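import Pool.Agent.H62.SR.Stubs

/-! # Binomial coefficients -/

namespace Pool.Agent.H62.SR.T.CH

open Finset Pool.Agent.H62.SR

theorem main : S_CH := by
  intro n k hk
  have hk0 : (0 : ℝ) < k := by exact_mod_cast hk
  have h1 : ((n.choose k : ℕ) : ℝ) ≤ (n : ℝ) ^ k / (Nat.factorial k : ℝ) := Nat.choose_le_pow_div k n
  have h2 : (k : ℝ) ^ k / (Nat.factorial k : ℝ) ≤ Real.exp k := Real.pow_div_factorial_le_exp k hk0.le k
  have h3 : Real.exp k ≤ (3 : ℝ) ^ k := by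
    rw [← Real.exp_one_rpow, Real.rpow_natCast]
    exact pow_le_pow_left₀ (Real.exp_pos 1).le (Real.exp_one_lt_d9.le.trans (by norm_num)) k
  have hf : (0 : ℝ) < (Nat.factorial k : ℝ) := by exact_mod_cast Nat.factorial_pos k
  have h4 : (k : ℝ) ^ k ≤ (3 : ℝ) ^ k * (Nat.factorial k : ℝ) := by
    have := h2.trans h3
    rwa [div_le_iff₀ hf] at this
  refine h1.trans ?_
  rw [div_pow, mul_pow, div_le_div_iff₀ hf (pow_pos hk0 k)]
  calc (n : ℝ) ^ k * (k : ℝ) ^ k ≤ (n : ℝ) ^ k * ((3 : ℝ) ^ k * (Nat.factorial k : ℝ)) :=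
        mul_le_mul_of_nonneg_left h4 (pow_nonneg (Nat.cast_nonneg n) k)
    _ = 3 ^ k * (n : ℝ) ^ k * (Nat.factorial k : ℝ) := by ring

end Pool.Agent.H62.SR.T.CH
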