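import Pool.Agent.H62.SR.Stubs

set_option autoImplicit false

/-!
# Project SR, task CLEAN
-/

namespace Pool.Agent.H62.SR.T.CLEAN

open Finset

variable {A B : Type} [Fintype A] [Fintype B] [DecidableEq A] [DecidableEq B]

/-- the part of `J` in `A₂ × B₂` -/
def part (J : Finset (A × B)) (q : Finset A × Finset B) : Finset (A × B) :=
  J.filter (fun p => p.1 ∈ q.1 ∧ p.2 ∈ q.2)

/-- the value of a pair -/
def val (J : Finset (A × B)) (s t : ℕ) (q : Finset A × Finset B) : ℤ :=
  ((part J q).card : ℤ) - s * q.1.card - t * q.2.card

theorem main : S_CLEAN := by
  intro A B _ _ _ _ J s t h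
  obtain ⟨q, -, hq⟩ := Finset.exists_max_image (univ : Finset (Finset A × Finset B)) (val J s t)
    ⟨(univ, univ), mem_univ _⟩
  have h0 : part J ((univ : Finset A), (univ : Finset B)) = J := by
    simp [part]
  have h1 : 0 < val J s t q := by
    have := hq (univ, univ) (mem_univ _)
    have h2 : 0 < val J s t ((univ : Finset A), (univ : Finset B)) := by
      unfold val
      rw [h0]
      simp only [card_univ]
      have : ((s * Fintype.card A + t * Fintype.card B : ℕ) : ℤ) < (J.card : ℤ) := by
        exact_mod_cast h
      push_cast at this
      linarith
    linarith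
  refine ⟨part J q, filter_subset _ _, ?_, ?_⟩
  · rw [← card_pos]
    unfold val at h1
    have : (0 : ℤ) ≤ s * q.1.card := by positivity
    have : (0 : ℤ) ≤ t * q.2.card := by positivity
    have : (0 : ℤ) < ((part J q).card : ℤ) := by linarith
    exact_mod_cast this
  · intro p hp
    have hp' := (mem_filter.1 hp).2
    constructor
    · have h3 := hq (q.1.erase p.1, q.2) (mem_univ _)
      have h4 : (part J (q.1.erase p.1, q.2)).card +
          ((part J q).filter (fun x => x.1 = p.1)).card = (part J q).card := by
        rw [← Finset.card_filter_add_card_filter_not (s := part J q) (fun x => x.1 = p.1), add_comm]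
        congr 2
        ext x
        simp only [part, mem_filter, mem_erase]
        tauto
      have h5 : (q.1.erase p.1).card + 1 = q.1.card := Finset.card_erase_add_one hp'.1
      unfold val at h3
      dsimp only at h3
      have h6 : (q.1.card : ℤ) = (q.1.erase p.1).card + 1 := by exact_mod_cast h5.symm
      have h7 : ((part J q).card : ℤ) = (part J (q.1.erase p.1, q.2)).card +
          ((part J q).filter (fun x => x.1 = p.1)).card := by exact_mod_cast h4.symm
      rw [h6, h7] at h3
      have : (s : ℤ) ≤ ((part J q).filter (fun x => x.1 = p.1)).card := by nlinarith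
      exact_mod_cast this
    · have h3 := hq (q.1, q.2.erase p.2) (mem_univ _)
      have h4 : (part J (q.1, q.2.erase p.2)).card +
          ((part J q).filter (fun x => x.2 = p.2)).card = (part J q).card := by
        rw [← Finset.card_filter_add_card_filter_not (s := part J q) (fun x => x.2 = p.2), add_comm]
        congr 2
        ext x
        simp only [part, mem_filter, mem_erase]
        tauto
      have h5 : (q.2.erase p.2).card + 1 = q.2.card := Finset.card_erase_add_one hp'.2
      unfold val at h3
      dsimp only at h3
      have h6 : (q.2.card : ℤ) = (q.2.erase p.2).card + 1 := by exact_mod_cast h5.symm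
      have h7 : ((part J q).card : ℤ) = (part J (q.1, q.2.erase p.2)).card +
          ((part J q).filter (fun x => x.2 = p.2)).card := by exact_mod_cast h4.symm
      rw [h6, h7] at h3
      have : (t : ℤ) ≤ ((part J q).filter (fun x => x.2 = p.2)).card := by nlinarith
      exact_mod_cast this

end Pool.Agent.H62.SR.T.CLEAN
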