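import Pool.Agent.H62.SR.Stubs

/-! # Counting functions with prescribed values -/

namespace Pool.Agent.H62.SR.T.CNT

open Finset Pool.Agent.H62.SR

theorem main : S_CNT := by
  intro N₁ d N₂ F T
  classical
  set P : Finset (Fin N₁ → Fin d → Fin N₂) :=
    Fintype.piFinset (fun a => Fintype.piFinset (fun i => if (a, i) ∈ F then T (a, i) else univ)) with hP
  have e1 : {g : Fin N₁ → Fin d → Fin N₂ | ∀ p ∈ F, g p.1 p.2 ∈ T p} = (P : Set (Fin N₁ → Fin d → Fin N₂)) := by
    ext g
    rw [mem_coe, hP, Fintype.mem_piFinset]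
    constructor
    · intro h a
      rw [Fintype.mem_piFinset]
      intro i
      split_ifs with hi
      · exact h (a, i) hi
      · exact mem_univ _
    · intro h p hp
      have h1 := h p.1
      rw [Fintype.mem_piFinset] at h1
      have h2 := h1 p.2
      rw [if_pos hp] at h2
      exact h2
  rw [e1, Set.ncard_coe_finset, hP, Fintype.card_piFinset]
  simp only [Fintype.card_piFinset]
  rw [← Fintype.prod_prod_type' (f := fun a i => (if (a, i) ∈ F then T (a, i) else univ : Finset (Fin N₂)).card)]
  have e2 : ∀ p : Fin N₁ × Fin d, (if (p.1, p.2) ∈ F then T (p.1, p.2) else univ : Finset (Fin N₂)).card =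
      (if p ∈ F then (T p).card else 1) * (if p ∈ F then 1 else N₂) := by
    intro p
    by_cases hp : p ∈ F
    · rw [if_pos hp, if_pos hp, if_pos hp, mul_one]
    · rw [if_neg hp, if_neg hp, if_neg hp, one_mul, card_univ, Fintype.card_fin]
  rw [prod_congr rfl fun p _ => e2 p, prod_mul_distrib, prod_ite_mem, univ_inter, mul_assoc]
  congr 1
  have e3 : ∏ p : Fin N₁ × Fin d, (if p ∈ F then 1 else N₂) = N₂ ^ (Fᶜ).card := by
    rw [← prod_const, ← prod_subset (subset_univ Fᶜ)]
    · exact prod_congr rfl fun p hp => if_neg (by simpa using hp)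
    · intro p _ hp
      exact if_pos (by simpa using hp)
  rw [e3, ← pow_add, card_compl_add_card, Fintype.card_prod, Fintype.card_fin, Fintype.card_fin,
    Fintype.card_fun, Fintype.card_fun, Fintype.card_fin, Fintype.card_fin, Fintype.card_fin, ← pow_mul, mul_comm]

end Pool.Agent.H62.SR.T.CNT
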