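import Pool.Agent.H62.SR.Stubs

set_option autoImplicit false

/-!
# Project SR, task DENSE: the complete bipartite host
-/

namespace Pool.Agent.H62.SR.T.DENSE

open Finset

theorem main (hT : S_TREE) (hC : S_CLEAN) : S_DENSE := by
  intro V _ _ T _ side n₁ n₂ d₁ d₂ r hd hr χ
  -- the majority colour
  obtain ⟨J, hJ⟩ : ∃ J : Fin r → Finset (Fin (2 * r * n₁ + 1) × Fin (2 * r * n₂ + 1)),
      ∀ c, J c = univ.filter (fun p => χ p.1 p.2 = c) := ⟨_, fun _ => rfl⟩
  have hcard : ∑ c, (J c).card = (2 * r * n₁ + 1) * (2 * r * n₂ + 1) := by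
    have h1 := Finset.card_eq_sum_card_fiberwise (s := (univ : Finset (Fin (2 * r * n₁ + 1) ×
      Fin (2 * r * n₂ + 1)))) (t := (univ : Finset (Fin r))) (f := fun p => χ p.1 p.2)
      (fun _ _ => mem_univ _)
    rw [card_univ, Fintype.card_prod, Fintype.card_fin, Fintype.card_fin] at h1
    rw [h1]
    exact sum_congr rfl fun c _ => by rw [hJ]
  obtain ⟨c, hc⟩ : ∃ c, n₂ * (2 * r * n₁ + 1) + n₁ * (2 * r * n₂ + 1) < (J c).card := by
    by_contra hcon
    push Not at hcon
    have h1 : ∑ c, (J c).card ≤ ∑ _c : Fin r, (n₂ * (2 * r * n₁ + 1) + n₁ * (2 * r * n₂ + 1)) :=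
      sum_le_sum fun c _ => hcon c
    rw [hcard, sum_const, card_univ, Fintype.card_fin, smul_eq_mul] at h1
    nlinarith [Nat.zero_le (r * n₁), Nat.zero_le (r * n₂)]
  obtain ⟨J', hJ1, hJ2, hJ3⟩ := hC (Fin (2 * r * n₁ + 1)) (Fin (2 * r * n₂ + 1)) (J c) n₂ n₁ (by
    rw [Fintype.card_fin, Fintype.card_fin]; exact hc)
  refine ⟨c, ?_⟩
  have hE : ∀ p ∈ J', χ p.1 p.2 = c := by
    intro p hp
    have := hJ1 hp
    rw [hJ] at this
    exact (mem_filter.1 this).2
  have hv : ∃ v, side v = true := by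
    have h1 : (univ.filter (fun v => side v = true)).Nonempty := by
      rw [← card_pos, hd.card₂]; exact hd.pos₂
    obtain ⟨v, hv⟩ := h1
    exact ⟨v, (mem_filter.1 hv).2⟩
  refine hT V (Fin (2 * r * n₁ + 1)) (Fin (2 * r * n₂ + 1)) T hd.tree side hd.bip hv d₁ d₂
    hd.deg₁ hd.deg₂ (fun a b => χ a b = c) (fun _ U _ => U ⊆ J'.image Prod.snd) ?_ ?_
  · obtain ⟨p, hp⟩ := hJ2
    refine ⟨p.2, ?_⟩
    rw [singleton_subset_iff]
    exact mem_image_of_mem _ hp
  · intro W U used x k hU hx _ _ hW hk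
    rw [hd.card₁] at hW
    rw [hd.card₂] at hk
    obtain ⟨p, hp, hpx⟩ := mem_image.1 (hU hx)
    -- the vertex `a`
    obtain ⟨a, haW, hax⟩ : ∃ a, a ∉ W ∧ (a, x) ∈ J' := by
      have h1 := (hJ3 p hp).2
      rw [hpx] at h1
      have h2 : ((J'.filter (fun y => y.2 = x)).image Prod.fst).card =
          (J'.filter (fun y => y.2 = x)).card := by
        refine card_image_of_injOn fun y hy z hz hyz => ?_
        have e1 := (mem_filter.1 hy).2
        have e2 := (mem_filter.1 hz).2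
        exact Prod.ext hyz (by rw [e1, e2])
      have h3 : ∃ a ∈ (J'.filter (fun y => y.2 = x)).image Prod.fst, a ∉ W := by
        refine exists_mem_notMem_of_card_lt_card ?_
        omega
      obtain ⟨a, ha, haW⟩ := h3
      obtain ⟨y, hy, hya⟩ := mem_image.1 ha
      obtain ⟨hy1, hy2⟩ := mem_filter.1 hy
      refine ⟨a, haW, ?_⟩
      have : (a, x) = y := Prod.ext hya.symm hy2.symm
      rw [this]; exact hy1
    refine ⟨a, haW, hE _ hax, ?_⟩
    -- the children
    have h1 : n₂ ≤ (J'.filter (fun y => y.1 = a)).card := (hJ3 _ hax).1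
    have h2 : ((J'.filter (fun y => y.1 = a)).image Prod.snd).card =
        (J'.filter (fun y => y.1 = a)).card := by
      refine card_image_of_injOn fun y hy z hz hyz => ?_
      have e1 := (mem_filter.1 hy).2
      have e2 := (mem_filter.1 hz).2
      exact Prod.ext (by rw [e1, e2]) hyz
    have h3 : k ≤ (((J'.filter (fun y => y.1 = a)).image Prod.snd) \ U).card := by
      have := le_card_sdiff U ((J'.filter (fun y => y.1 = a)).image Prod.snd)
      omega
    obtain ⟨K, hK, hKk⟩ := exists_subset_card_eq h3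
    have hmem : ∀ w ∈ K, (a, w) ∈ J' ∧ w ∉ U := by
      intro w hw
      obtain ⟨hw1, hw2⟩ := mem_sdiff.1 (hK hw)
      obtain ⟨y, hy, hyw⟩ := mem_image.1 hw1
      obtain ⟨hy1, hy2⟩ := mem_filter.1 hy
      have : (a, w) = y := Prod.ext hy2.symm hyw.symm
      exact ⟨by rw [this]; exact hy1, hw2⟩
    refine ⟨K, ?_, hKk, fun w hw => hE _ (hmem w hw).1, ?_⟩
    · rw [disjoint_left]
      exact fun w hw => (hmem w hw).2
    · refine union_subset hU fun w hw => ?_
      exact mem_image_of_mem Prod.snd (hmem w hw).1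

end Pool.Agent.H62.SR.T.DENSE
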