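import Pool.Agent.H62.SR.T.STEPA

/-! # The embedding in case A -/

namespace Pool.Agent.H62.SR.T.EMBA

open Finset Pool.Agent.H62.SR

/-- an admissible child on the level `A` with the new inequality -/
theorem levelA {A B : Type} [DecidableEq A] [DecidableEq B] (B' : Finset B) (C : B → Finset A)
    (n₁ d₂ : ℕ) (hHA : HA B' C n₁ d₂) (W : Finset A) (hW : W.card < n₁) (x : B) (hx : x ∈ B')
    (used : B → ℕ) (hux : used x < d₂)
    (hPA : ∀ Y : Finset A, W ⊆ Y → Y.card ≤ 8 * n₁ →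
      ∑ b ∈ B', (4 * d₂ - used b - (C b \ Y).card) + W.card ≤ Y.card) :
    ∃ S : Finset A, 4 * d₂ - used x ≤ (C x \ S).card ∧ W ⊆ S ∧ ∀ a ∈ C x, a ∉ S →
      ∀ Y : Finset A, insert a W ⊆ Y → Y.card ≤ 8 * n₁ →
      ∑ b ∈ B', (4 * d₂ - Function.update used x (used x + 1) b - (C b \ Y).card)
        + (insert a W).card ≤ Y.card := by
  obtain ⟨S, h1, h2, h3⟩ := STEPA.main A B B' C n₁ d₂ (fun b => 4 * d₂ - used b) W x hW.le
    (by omega) hx (show 1 ≤ 4 * d₂ - used x by omega) (fun b => Nat.sub_le _ _) hHA hPA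
  refine ⟨S, h1, h2, fun a ha haS Y hY hYc => ?_⟩
  refine le_trans (le_of_eq ?_) (h3 a ha haS Y hY hYc)
  congr 1
  refine sum_congr rfl fun b _ => ?_
  by_cases hb : b = x
  · subst hb
    rw [Function.update_self, Function.update_self]
    omega
  · rw [Function.update_of_ne hb, Function.update_of_ne hb]

theorem degree_pos {V : Type} [Fintype V] {T : SimpleGraph V} [DecidableRel T.Adj]
    {side : V → Bool} {n₁ n₂ d₁ d₂ : ℕ} (hT : TreeData V T side n₁ n₂ d₁ d₂) : 1 ≤ d₂ := by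
  obtain ⟨u, hu⟩ := card_pos.1 (hT.card₁ ▸ hT.pos₁)
  obtain ⟨v, hv⟩ := card_pos.1 (hT.card₂ ▸ hT.pos₂)
  rw [mem_filter] at hu hv
  have hne : v ≠ u := fun h => by rw [h, hu.2] at hv; exact absurd hv.2 (by decide)
  have hc := hT.tree.1.preconnected v u
  obtain ⟨w⟩ := hc
  have : 0 < T.degree v := by
    cases w with
    | nil => exact absurd rfl hne
    | cons h _ => exact (T.degree_pos_iff_exists_adj v).2 ⟨_, h⟩
  exact this.trans_le (hT.deg₂ v hv.2)

theorem main (hTREE : S_TREE) : S_EMBA := by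
  intro V A B _ _ _ _ T _ side n₁ n₂ d₁ d₂ hT A' B' C La hB' hC hLa hHA hHBA
  have hd₂ := degree_pos hT
  have hCne : ∀ b ∈ B', (C b).Nonempty := by
    intro b hb
    have h1 := hHA ∅ (by simp)
    rw [card_empty] at h1
    have h2 : ∑ b ∈ B', (4 * d₂ - (C b \ ∅).card) = 0 := by omega
    rw [sum_eq_zero_iff] at h2
    have h3 := h2 b hb
    rw [sdiff_empty] at h3
    exact card_pos.1 (by omega)
  obtain ⟨x₀, hx₀⟩ := hB'
  obtain ⟨a₀, ha₀⟩ := hCne x₀ hx₀
  have : Nonempty A := ⟨a₀⟩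
  obtain ⟨v₀, hv₀⟩ := card_pos.1 (hT.card₂ ▸ hT.pos₂)
  refine hTREE V A B T hT.tree side hT.bip ⟨v₀, (mem_filter.1 hv₀).2⟩ d₁ d₂ hT.deg₁ hT.deg₂
    (fun a b => (a ∈ A' ∧ b ∈ B') ∧ (a ∈ C b ∨ b ∈ La a))
    (fun W U used => U ⊆ B' ∧ (∀ b, used b ≤ d₂) ∧
      (∀ Y : Finset A, W ⊆ Y → Y.card ≤ 8 * n₁ →
        ∑ b ∈ B', (4 * d₂ - used b - (C b \ Y).card) + W.card ≤ Y.card) ∧
      (∀ R : Finset B, U ⊆ R → R.card ≤ 8 * n₂ →
        ∑ a ∈ A' \ W, (d₁ - (La a \ R).card) + U.card ≤ R.card)) ?_ ?_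
  · refine ⟨x₀, singleton_subset_iff.2 hx₀, fun _ => Nat.zero_le _, fun Y _ hYc => ?_,
      fun R hR hRc => ?_⟩
    · have := hHA Y hYc
      simp only [Nat.sub_zero, card_empty]
      omega
    · have h1 := hHBA R hRc
      have h2 := card_le_card hR
      rw [card_singleton] at h2 ⊢
      rw [sdiff_empty]
      omega
  · rintro W U used x k ⟨hUB, hused, hPA, hPB⟩ hxU hux hk hWc hUc
    rw [hT.card₁] at hWc
    rw [hT.card₂] at hUc
    have hxB := hUB hxU
    obtain ⟨S, hS1, hS2, hS3⟩ := levelA B' C n₁ d₂ hHA W hWc x hxB used hux hPA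
    obtain ⟨a, ha⟩ : (C x \ S).Nonempty := card_pos.1 (by omega)
    rw [mem_sdiff] at ha
    have haW : a ∉ W := fun h => ha.2 (hS2 h)
    have haA : a ∈ A' := hC x hxB ha.1
    set Φ : Finset B → ℕ := fun R => ∑ a' ∈ A' \ insert a W, (d₁ - (La a' \ R).card) with hΦ
    have hΦs : MonSup Φ := MonSup.sum _ fun a' _ => monSup_sdiff (La a') d₁
    have hle : ∀ R, Φ R + (d₁ - (La a \ R).card) = ∑ a ∈ A' \ W, (d₁ - (La a \ R).card) := by
      intro R
      have he : A' \ W = insert a (A' \ insert a W) := by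
        ext z; simp only [mem_sdiff, mem_insert]
        constructor
        · rintro ⟨h1, h2⟩
          by_cases hz : z = a
          · exact Or.inl hz
          · exact Or.inr ⟨h1, by tauto⟩
        · rintro (rfl | ⟨h1, h2⟩)
          · exact ⟨haA, haW⟩
          · exact ⟨h1, by tauto⟩
      rw [he, sum_insert (by simp), add_comm]
    obtain ⟨K, hKL, hKU, hKc, hKP⟩ := WSTEP.main B Φ hΦs n₂ k U (La a) hUc hT.pos₂
      (fun R hR => by
        refine le_trans (Nat.mul_le_mul_left _ ?_) (hHBA R hR)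
        exact sum_le_sum_of_subset sdiff_subset)
      (fun R hR hRc => by
        have h1 := hPB R hR hRc
        rw [← hle] at h1
        omega)
    refine ⟨a, haW, ⟨⟨haA, hxB⟩, Or.inl ha.1⟩, K, hKU, hKc, fun w hw =>
      ⟨⟨haA, hLa a haA (hKL hw)⟩, Or.inr (hKL hw)⟩, ?_, ?_, hS3 a ha.1 ha.2, hKP⟩
    · exact union_subset hUB (hKL.trans (hLa a haA))
    · intro b
      by_cases hb : b = x
      · subst hb; rw [Function.update_self]; omega
      · rw [Function.update_of_ne hb]; exact hused b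

end Pool.Agent.H62.SR.T.EMBA
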