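import Pool.Agent.H62.SR.Sup

/-! # Few children are bad -/

namespace Pool.Agent.H62.SR.T.BSTEP

open Finset Pool.Agent.H62.SR

theorem FF_ge {A B : Type} [DecidableEq B] (C : B → Finset A) (L : A → Finset B) (q T d : ℕ)
    (b : B) (R : Finset B) (hC : (C b).card = T) (hb : bad C L q b R ≤ d) :
    q * (T - d) ≤ FF C L q b R := by
  classical
  have h1 : ∑ a ∈ (C b).filter (fun a : A => ¬ (L a \ R).card < q), q ≤ FF C L q b R := by
    unfold FF
    refine le_trans (le_of_eq ?_) 
      (sum_le_sum_of_subset (filter_subset (fun a : A => ¬ (L a \ R).card < q) (C b)))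
    refine sum_congr rfl fun a ha => ?_
    rw [mem_filter] at ha
    rw [min_eq_left (by omega)]
  have h2 := card_filter_add_card_filter_not (s := C b) (fun a : A => (L a \ R).card < q)
  unfold bad at hb
  rw [sum_const, smul_eq_mul, mul_comm] at h1
  refine le_trans (Nat.mul_le_mul_left _ ?_) h1
  omega

theorem FF_le {A B : Type} [DecidableEq A] [DecidableEq B] (C : B → Finset A) (L : A → Finset B)
    (q T m : ℕ) (b : B) (R : Finset B) (hC : (C b).card = T) (S : Finset A) (hS : S ⊆ C b)
    (hm : ∀ a ∈ S, (L a \ R).card ≤ m) : FF C L q b R ≤ q * (T - S.card) + S.card * m := by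
  unfold FF
  rw [← sum_sdiff hS]
  refine add_le_add ?_ ?_
  · calc ∑ a ∈ C b \ S, min q (L a \ R).card ≤ ∑ a ∈ C b \ S, q :=
          sum_le_sum fun a _ => min_le_left _ _
      _ = q * (T - S.card) := by
          rw [sum_const, smul_eq_mul, card_sdiff_of_subset hS, hC, mul_comm]
  · calc ∑ a ∈ S, min q (L a \ R).card ≤ ∑ a ∈ S, m :=
          sum_le_sum fun a ha => (min_le_right _ _).trans (hm a ha)
      _ = S.card * m := by rw [sum_const, smul_eq_mul]

theorem term_le {A B : Type} [DecidableEq B] (C : B → Finset A) (La : A → Finset B)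
    (q T d₂ l : ℕ) (b : B) (hC : (C b).card = T) (hl : l ≤ q * (T - d₂)) (R : Finset B) :
    l - FF C La q b R ≤ if d₂ < bad C La q b R then q * bad C La q b R else 0 := by
  have h1 := FF_ge C La q T (max d₂ (bad C La q b R)) b R hC (le_max_right _ _)
  split_ifs with h
  · rw [max_eq_right h.le] at h1
    have h3 : q * (T - d₂) ≤ q * (T - bad C La q b R) + q * bad C La q b R := by
      rw [← mul_add]
      exact Nat.mul_le_mul_left _ (by omega)
    omega
  · rw [max_eq_left (by omega)] at h1
    omega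

theorem half_le {A B : Type} [DecidableEq B] (B' : Finset B) (C : B → Finset A)
    (La : A → Finset B) (n₂ d₁ d₂ T : ℕ) (Λ : B → ℕ) (hC : ∀ b ∈ B', (C b).card = T)
    (hΛ : ∀ b, Λ b ≤ 16 * d₁ * (T - d₂)) (hBB : HBB B' C La n₂ d₁ d₂) (R : Finset B)
    (hR : R.card ≤ 8 * n₂) :
    2 * ∑ b ∈ B', (Λ b - FF C La (16 * d₁) b R) ≤ R.card := by
  refine le_trans ?_ (hBB R hR)
  calc 2 * ∑ b ∈ B', (Λ b - FF C La (16 * d₁) b R)
      ≤ 2 * ∑ b ∈ B', (if d₂ < bad C La (16 * d₁) b R then
          16 * d₁ * bad C La (16 * d₁) b R else 0) :=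
        Nat.mul_le_mul_left _ (sum_le_sum fun b hb => term_le C La _ T d₂ _ b (hC b hb) (hΛ b) R)
    _ = _ := by
        rw [← sum_filter, mul_sum]
        refine sum_congr rfl fun b _ => by ring

theorem main : S_BSTEP := by
  intro A B _ _ B' C La n₂ d₁ d₂ T Λ U x k hd₁ hd₂ hk hU hx hC hT hLa hΛ hΛx hBB hPB
  classical
  set q := 16 * d₁ with hq
  -- the bad children
  set Sb : Finset A := (C x).filter (fun a => ¬ ∀ R : Finset B, U ⊆ R → R.card ≤ 8 * n₂ →
    ∑ b ∈ B', (Function.update Λ x (Λ x - d₁) b - FF C La q b R) + (k - (La a \ R).card)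
      + U.card ≤ R.card) with hSb
  refine ⟨Sb, ?_, fun a ha haS => ?_⟩
  swap
  · by_contra hcon
    exact haS (mem_filter.2 ⟨ha, hcon⟩)
  by_contra hcard
  push Not at hcard
  obtain ⟨S, hSS, hScard⟩ := exists_subset_card_eq hcard
  have hSC : S ⊆ C x := hSS.trans (filter_subset _ _)
  -- the function without the term of `x`
  set Φ : Finset B → ℕ := fun R => ∑ b ∈ B'.erase x, (Λ b - FF C La q b R) with hΦ
  have hΦs : MonSup Φ := MonSup.sum _ fun b _ => monSup_term C La q b (Λ b)
  have hsplit : ∀ R, ∑ b ∈ B', (Λ b - FF C La q b R) = Φ R + (Λ x - FF C La q x R) := by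
    intro R
    rw [← sum_erase_add _ _ hx]
  have hsplit' : ∀ R, ∑ b ∈ B', (Function.update Λ x (Λ x - d₁) b - FF C La q b R) =
      Φ R + (Λ x - d₁ - FF C La q x R) := by
    intro R
    rw [← sum_erase_add _ _ hx, Function.update_self]
    congr 1
    refine sum_congr rfl fun b hb => ?_
    rw [Function.update_of_ne (ne_of_mem_erase hb)]
  have hP : ∀ R : Finset B, U ⊆ R → R.card ≤ 8 * n₂ →
      Φ R + (Λ x - FF C La q x R) + U.card ≤ R.card := by
    intro R h1 h2
    have := hPB R h1 h2
    rw [hsplit] at this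
    exact this
  have hP1 : ∀ R : Finset B, U ⊆ R → R.card ≤ 2 * (4 * n₂) → Φ R + U.card ≤ R.card := by
    intro R h1 h2
    have := hP R h1 (by omega)
    omega
  -- the term h_b is small
  have hterm : ∀ b ∈ B', ∀ R : Finset B, Λ b - FF C La q b R ≤
      if d₂ < bad C La q b R then q * bad C La q b R else 0 := fun b hb R =>
    term_le C La q T d₂ (Λ b) b (hC b hb) (hΛ b) R
  have hhalf : ∀ R : Finset B, R.card ≤ 8 * n₂ →
      2 * ∑ b ∈ B', (Λ b - FF C La q b R) ≤ R.card := fun R hR =>
    half_le B' C La n₂ d₁ d₂ T Λ hC hΛ hBB R hR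
  have hwit : ∀ a ∈ S, ∃ R : Finset B, U ⊆ R ∧ R.card ≤ 8 * n₂ ∧
      R.card + (La a \ R).card < Φ R + k + U.card := by
    intro a ha
    have h1 := (mem_filter.1 (hSS ha)).2
    push Not at h1
    obtain ⟨R, hUR, hR8, hlt⟩ := h1
    refine ⟨R, hUR, hR8, ?_⟩
    rw [hsplit'] at hlt
    have h2 := hP R hUR hR8
    omega
  have hqd : q * (T - d₂) = q * (T - 2 * d₂) + q * d₂ := by
    rw [← mul_add]; congr 1; omega
  have h16 : q * d₂ = 16 * (d₁ * d₂) := by rw [hq]; ring
  have hpos : 0 < d₁ * d₂ := Nat.mul_pos hd₁ hd₂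
  have hd1le : d₁ ≤ d₁ * d₂ := Nat.le_mul_of_pos_right _ hd₂
  by_cases hreg : 2 * (d₁ * d₂) ≤ n₂
  · -- regime I
    have hsmall : ∀ R : Finset B, R.card ≤ 8 * n₂ →
        R.card ≤ Φ R + U.card + 2 * (d₁ * d₂) → R.card ≤ 4 * n₂ := by
      intro R hR h
      have h1 := hhalf R hR
      rw [hsplit] at h1
      omega
    have hind : ∀ S' : Finset A, S' ⊆ S → ∃ R : Finset B, U ⊆ R ∧ (∀ a ∈ S', La a ⊆ R) ∧
        R.card ≤ 4 * n₂ ∧ R.card ≤ Φ R + U.card + S'.card * d₁ := by
      intro S'
      induction S' using Finset.induction_on with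
      | empty =>
        intro _
        exact ⟨U, subset_rfl, by simp, by omega, by omega⟩
      | insert a S' ha ih =>
        intro hsub
        obtain ⟨R, hUR, hLR, hRc, hRs⟩ := ih ((subset_insert a S').trans hsub)
        obtain ⟨R₁, hUR₁, hR₁c, hR₁⟩ := hwit a (hsub (mem_insert_self a S'))
        have hR₁4 : R₁.card ≤ 4 * n₂ := hsmall R₁ hR₁c (by omega)
        have hc : (R₁ ∪ La a).card = R₁.card + (La a \ R₁).card := by
          rw [← union_sdiff_self_eq_union, card_union_of_disjoint disjoint_sdiff]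
        have hmono := hΦs.1 R₁ (R₁ ∪ La a) subset_union_left
        have hle : (La a \ R₁).card ≤ 4 * n₂ := (card_le_card sdiff_subset).trans
          (hLa a (hSC (hsub (mem_insert_self a S'))))
        have hR₂4 : (R₁ ∪ La a).card ≤ 4 * n₂ := hsmall _ (by omega) (by omega)
        obtain ⟨hu1, hu2⟩ := slack_union hΦs hP1 hUR (hUR₁.trans subset_union_left) hRc hR₂4 hRs
          (j := d₁) (by omega)
        have hcards : (insert a S').card = S'.card + 1 := card_insert_of_notMem ha
        have hle2 : (insert a S').card ≤ 2 * d₂ := hScard ▸ card_le_card hsub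
        have hmul : (S'.card + 1) * d₁ ≤ 2 * (d₁ * d₂) := by
          rw [hcards] at hle2
          calc (S'.card + 1) * d₁ ≤ (2 * d₂) * d₁ := Nat.mul_le_mul_right _ hle2
            _ = _ := by ring
        refine ⟨R ∪ (R₁ ∪ La a), hUR.trans subset_union_left, ?_, ?_, ?_⟩
        · intro a' ha'
          rw [mem_insert] at ha'
          rcases ha' with rfl | ha'
          · exact subset_union_right.trans subset_union_right
          · exact (hLR a' ha').trans subset_union_left
        · refine hsmall _ (by omega) ?_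
          rw [add_mul, one_mul] at hmul
          omega
        · rw [hcards, add_mul, one_mul]
          exact hu2
    obtain ⟨R, hUR, hLR, hRc, hRs⟩ := hind S subset_rfl
    have h1 := FF_le C La q T 0 x R (hC x hx) S hSC (by
      intro a ha
      rw [sdiff_eq_empty_iff_subset.2 (hLR a ha)]; simp)
    have h2 := hP R hUR (by omega)
    rw [hScard] at h1 hRs
    have h3 : 2 * d₂ * d₁ = 2 * (d₁ * d₂) := by ring
    rw [h3] at hRs
    simp only [mul_zero, add_zero] at h1
    omega
  · -- regime II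
    push Not at hreg
    have hnobad : ∀ b ∈ B', ∀ R : Finset B, R.card ≤ 8 * n₂ → bad C La q b R ≤ d₂ := by
      intro b hb R hR
      by_contra hcon
      push Not at hcon
      have h1 := (single_le_sum (f := fun b => 2 * q * bad C La q b R) (fun _ _ => Nat.zero_le _)
        (mem_filter.2 ⟨hb, hcon⟩)).trans (hBB R hR)
      have h2 : 2 * q * (d₂ + 1) ≤ 2 * q * bad C La q b R := Nat.mul_le_mul_left _ hcon
      have h3 : 2 * q * (d₂ + 1) = 32 * (d₁ * d₂) + 32 * d₁ := by rw [hq]; ring
      omega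
    have hΦ0 : ∀ R : Finset B, R.card ≤ 8 * n₂ → Φ R = 0 := by
      intro R hR
      refine sum_eq_zero fun b hb => ?_
      have hb' := mem_of_mem_erase hb
      have h1 := hterm b hb' R
      rw [if_neg (by have := hnobad b hb' R hR; omega)] at h1
      omega
    have hsm : ∀ a ∈ S, (La a \ U).card ≤ d₁ := by
      intro a ha
      obtain ⟨R, hUR, hR8, h1⟩ := hwit a ha
      rw [hΦ0 R hR8] at h1
      have h2 : (La a \ U).card ≤ (La a \ R).card + (R \ U).card := by
        refine le_trans (card_le_card ?_) (card_union_le _ _)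
        intro z hz
        rw [mem_sdiff] at hz
        rw [mem_union, mem_sdiff, mem_sdiff]
        tauto
      have h3 := card_sdiff_add_card_eq_card hUR
      omega
    have h1 := FF_le C La q T d₁ x U (hC x hx) S hSC hsm
    have h2 := hP U subset_rfl (by omega)
    rw [hScard] at h1
    have h3 : 2 * d₂ * d₁ = 2 * (d₁ * d₂) := by ring
    rw [h3] at h1
    omega

end Pool.Agent.H62.SR.T.BSTEP
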