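import Pool.Agent.H62.SR.Sup

/-! # Choosing the children of a pending vertex -/

namespace Pool.Agent.H62.SR.T.WSTEP

open Finset Pool.Agent.H62.SR

/-- the union of tight sets -/
theorem tight_cover {B : Type} [DecidableEq B] {Φ : Finset B → ℕ} (hΦ : MonSup Φ) {U : Finset B}
    {Q : ℕ} (hU : U.card ≤ Q)
    (h1 : ∀ R : Finset B, U ⊆ R → R.card ≤ 2 * Q → Φ R + U.card ≤ R.card)
    (h2 : ∀ R : Finset B, U ⊆ R → R.card ≤ 2 * Q → R.card ≤ Φ R + U.card → R.card ≤ Q)
    (S : Finset B) (hS : ∀ w ∈ S, ∃ R : Finset B, U ⊆ R ∧ w ∈ R ∧ R.card ≤ 2 * Q ∧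
      R.card ≤ Φ R + U.card) :
    ∃ R : Finset B, U ⊆ R ∧ S ⊆ R ∧ R.card ≤ Q ∧ R.card ≤ Φ R + U.card := by
  induction S using Finset.induction_on with
  | empty => exact ⟨U, subset_rfl, empty_subset _, hU, by omega⟩
  | insert w S hw ih =>
    obtain ⟨R, hUR, hSR, hRc, hRs⟩ := ih (fun w' hw' => hS w' (mem_insert_of_mem hw'))
    obtain ⟨R₁, hUR₁, hwR₁, hR₁c, hR₁s⟩ := hS w (mem_insert_self w S)
    have hR₁Q := h2 R₁ hUR₁ hR₁c hR₁s
    obtain ⟨hu1, hu2⟩ := slack_union hΦ h1 hUR hUR₁ hRc hR₁Q (i := 0) (j := 0) (by omega) (by omega)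
    refine ⟨R ∪ R₁, hUR.trans subset_union_left, ?_, h2 _ (hUR.trans subset_union_left) hu1
      (by omega), by omega⟩
    rw [insert_subset_iff]
    exact ⟨mem_union_right _ hwR₁, hSR.trans subset_union_left⟩

theorem main : S_WSTEP := by
  intro B _ Φ hΦ n₂ k
  induction k with
  | zero =>
    intro U La hU hn hhalf hP
    refine ⟨∅, empty_subset _, disjoint_empty_left _, rfl, fun R hR hRc => ?_⟩
    rw [union_empty] at hR ⊢
    have := hP R hR hRc
    omega
  | succ k ih =>
    intro U La hU hn hhalf hP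
    -- find one vertex
    have hex : ∃ w ∈ La \ U, ∀ R : Finset B, insert w U ⊆ R → R.card ≤ 8 * n₂ →
        Φ R + (k - (La \ R).card) + (insert w U).card ≤ R.card := by
      by_contra hcon
      push Not at hcon
      have hwit : ∀ w ∈ La \ U, ∃ R : Finset B, U ⊆ R ∧ w ∈ R ∧ R.card ≤ 2 * (4 * n₂) ∧
          R.card ≤ Φ R + U.card := by
        intro w hw
        obtain ⟨R, hR, hRc, hlt⟩ := hcon w hw
        have hwU : w ∉ U := (mem_sdiff.1 hw).2
        rw [card_insert_of_notMem hwU] at hlt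
        rw [insert_subset_iff] at hR
        refine ⟨R, hR.2, hR.1, by omega, ?_⟩
        have := hP R hR.2 hRc
        omega
      obtain ⟨R, hUR, hSR, hRc, hRs⟩ := tight_cover hΦ (Q := 4 * n₂) (by omega)
        (fun R h1 h2 => by have := hP R h1 (by omega); omega)
        (fun R _ h2 h3 => by have := hhalf R (by omega); omega) (La \ U) hwit
      have hLR : La ⊆ R := by
        intro z hz
        by_cases hzU : z ∈ U
        · exact hUR hzU
        · exact hSR (mem_sdiff.2 ⟨hz, hzU⟩)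
      have h1 := hP R hUR (by omega)
      rw [sdiff_eq_empty_iff_subset.2 hLR, card_empty] at h1
      omega
    obtain ⟨w, hw, hwP⟩ := hex
    rw [mem_sdiff] at hw
    have hc : (insert w U).card = U.card + 1 := card_insert_of_notMem hw.2
    obtain ⟨K, hKL, hKU, hKc, hKP⟩ := ih (insert w U) La (by omega) hn hhalf hwP
    rw [disjoint_insert_right] at hKU
    refine ⟨insert w K, insert_subset hw.1 hKL, ?_, ?_, ?_⟩
    · rw [disjoint_insert_left]; exact ⟨hw.2, hKU.2⟩
    · rw [card_insert_of_notMem hKU.1, hKc]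
    · intro R hR hRc
      have he : U ∪ insert w K = insert w U ∪ K := by
        ext z; simp only [mem_union, mem_insert]; tauto
      rw [he] at hR ⊢
      exact hKP R hR hRc

end Pool.Agent.H62.SR.T.WSTEP
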