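import Pool.Agent.H62.SR.T.EMBA
import Pool.Agent.H62.SR.T.BSTEP
import Pool.Agent.H62.SR.T.WSTEP

/-! # The embedding in case B -/

namespace Pool.Agent.H62.SR.T.EMBB

open Finset Pool.Agent.H62.SR

theorem main (hTREE : S_TREE) : S_EMBB := by
  intro V A B _ _ _ _ T _ side n₁ n₂ d₁ d₂ t hT A' B' C La hB' hC hLa hCt ht hLac hHA hHBB
  have hd₂ := EMBA.degree_pos hT
  obtain ⟨x₀, hx₀⟩ := hB'
  obtain ⟨a₀, ha₀⟩ : (C x₀).Nonempty := card_pos.1 (by rw [hCt x₀ hx₀]; omega)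
  have : Nonempty A := ⟨a₀⟩
  obtain ⟨v₀, hv₀⟩ := card_pos.1 (hT.card₂ ▸ hT.pos₂)
  have hn₂ := hT.pos₂
  refine hTREE V A B T hT.tree side hT.bip ⟨v₀, (mem_filter.1 hv₀).2⟩ d₁ d₂ hT.deg₁ hT.deg₂
    (fun a b => (a ∈ A' ∧ b ∈ B') ∧ (a ∈ C b ∨ b ∈ La a))
    (fun W U used => U ⊆ B' ∧ (∀ b, used b ≤ d₂) ∧
      (∀ Y : Finset A, W ⊆ Y → Y.card ≤ 8 * n₁ →
        ∑ b ∈ B', (4 * d₂ - used b - (C b \ Y).card) + W.card ≤ Y.card) ∧
      (∀ R : Finset B, U ⊆ R → R.card ≤ 8 * n₂ →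
        ∑ b ∈ B', (16 * d₁ * (t - d₂) - d₁ * used b - FF C La (16 * d₁) b R) + U.card
          ≤ R.card)) ?_ ?_
  · refine ⟨x₀, singleton_subset_iff.2 hx₀, fun _ => Nat.zero_le _, fun Y _ hYc => ?_,
      fun R hR hRc => ?_⟩
    · have := hHA Y hYc
      simp only [Nat.sub_zero, card_empty]
      omega
    · have h1 := BSTEP.half_le B' C La n₂ d₁ d₂ t (fun _ => 16 * d₁ * (t - d₂)) hCt
        (fun _ => le_rfl) hHBB R hRc
      have h2 := card_le_card hR
      rw [card_singleton] at h2 ⊢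
      simp only [Nat.sub_zero, mul_zero]
      omega
  · rintro W U used x k ⟨hUB, hused, hPA, hPB⟩ hxU hux hk hWc hUc
    rw [hT.card₁] at hWc
    rw [hT.card₂] at hUc
    have hxB := hUB hxU
    obtain ⟨S, hS1, hS2, hS3⟩ := EMBA.levelA B' C n₁ d₂ hHA W hWc x hxB used hux hPA
    set Λ : B → ℕ := fun b => 16 * d₁ * (t - d₂) - d₁ * used b with hΛ
    obtain ⟨Sb, hSb1, hSb2⟩ := BSTEP.main A B B' C La n₂ d₁ d₂ t Λ U x k (by omega) hd₂ hk
      (by omega) hxB hCt (by omega) (fun a ha => hLac a (hC x hxB ha)) (fun b => Nat.sub_le _ _)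
      (by
        have h := Nat.mul_le_mul_left d₁ (hused x)
        show _ ≤ 16 * d₁ * (t - d₂) - d₁ * used x + d₁ * d₂
        omega) hHBB hPB
    obtain ⟨a, ha⟩ : ((C x \ S) \ Sb).Nonempty := by
      rw [← card_pos]
      have := le_card_sdiff Sb (C x \ S)
      omega
    rw [mem_sdiff, mem_sdiff] at ha
    obtain ⟨⟨haC, haS⟩, haSb⟩ := ha
    have haW : a ∉ W := fun h => haS (hS2 h)
    have haA : a ∈ A' := hC x hxB haC
    set Φ : Finset B → ℕ := fun R =>
      ∑ b ∈ B', (Function.update Λ x (Λ x - d₁) b - FF C La (16 * d₁) b R) with hΦ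
    have hΦs : MonSup Φ := MonSup.sum _ fun b _ => monSup_term C La (16 * d₁) b _
    have hΛ'le : ∀ b, Function.update Λ x (Λ x - d₁) b ≤ 16 * d₁ * (t - d₂) := by
      intro b
      by_cases hb : b = x
      · subst hb
        rw [Function.update_self]
        exact (Nat.sub_le _ _).trans (Nat.sub_le _ _)
      · rw [Function.update_of_ne hb]
        exact Nat.sub_le _ _
    obtain ⟨K, hKL, hKU, hKc, hKP⟩ := WSTEP.main B Φ hΦs n₂ k U (La a) hUc hn₂
      (fun R hR => BSTEP.half_le B' C La n₂ d₁ d₂ t _ hCt hΛ'le hHBB R hR)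
      (fun R hR hRc => hSb2 a haC haSb R hR hRc)
    refine ⟨a, haW, ⟨⟨haA, hxB⟩, Or.inl haC⟩, K, hKU, hKc, fun w hw =>
      ⟨⟨haA, hLa a haA (hKL hw)⟩, Or.inr (hKL hw)⟩, ?_, ?_, hS3 a haC haS, ?_⟩
    · exact union_subset hUB (hKL.trans (hLa a haA))
    · intro b
      by_cases hb : b = x
      · subst hb; rw [Function.update_self]; omega
      · rw [Function.update_of_ne hb]; exact hused b
    · intro R hR hRc
      refine le_trans (le_of_eq ?_) (hKP R hR hRc)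
      congr 1
      refine sum_congr rfl fun b _ => ?_
      by_cases hb : b = x
      · subst hb
        rw [Function.update_self, Function.update_self, mul_add, mul_one]
        show _ = 16 * d₁ * (t - d₂) - d₁ * used b - d₁ - _
        omega
      · rw [Function.update_of_ne hb, Function.update_of_ne hb]

end Pool.Agent.H62.SR.T.EMBB
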