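import Pool.Agent.H62.SR.Stubs

/-! Task H0 of project SR (helper27): few repetitions. -/

namespace Pool.Agent.H62.SR.T.H0

open Finset Pool.Agent.H62.SR

/-- ordered pairs of different indices with the same value -/
def rep {N d : ℕ} (h : Fin d → Fin N) : Finset (Fin d × Fin d) :=
  univ.filter (fun q => q.1 < q.2 ∧ h q.1 = h q.2)

theorem card_le_image_add_rep {N d : ℕ} (h : Fin d → Fin N) :
    d ≤ (univ.image h).card + (rep h).card := by
  classical
  -- the indices that are not the first with their value inject into rep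
  set A : Finset (Fin d) := univ.filter (fun j => ∃ i, i < j ∧ h i = h j) with hA
  have h1 : A.card ≤ (rep h).card := by
    have hch : ∀ j ∈ A, ∃ i, i < j ∧ h i = h j := by
      intro j hj
      exact (Finset.mem_filter.1 hj).2
    apply Finset.card_le_card_of_injOn
      (fun j => if hj : ∃ i, i < j ∧ h i = h j then (hj.choose, j) else (j, j))
    · intro j hj
      have hj' := hch j hj
      have hs := hj'.choose_spec
      simp only [dif_pos hj']
      simp only [rep, Finset.coe_filter, Finset.mem_univ, true_and, Set.mem_setOf_eq]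
      exact hs
    · intro j hj j' hj' hjj
      have e1 := hch j hj
      have e2 := hch j' hj'
      simp only [dif_pos e1, dif_pos e2] at hjj
      exact (Prod.mk.inj hjj).2
  have h2 : (univ \ A).card ≤ (univ.image h).card := by
    apply Finset.card_le_card_of_injOn h
    · intro j _
      exact Finset.mem_coe.2 (Finset.mem_image_of_mem h (Finset.mem_univ j))
    · intro j hj j' hj' hjj
      rcases lt_trichotomy j j' with hlt | heq | hgt
      · exfalso
        have : j' ∈ A := Finset.mem_filter.2 ⟨Finset.mem_univ _, j, hlt, hjj⟩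
        exact (Finset.mem_sdiff.1 hj').2 this
      · exact heq
      · exfalso
        have : j ∈ A := Finset.mem_filter.2 ⟨Finset.mem_univ _, j', hgt, hjj.symm⟩
        exact (Finset.mem_sdiff.1 hj).2 this
  have h3 : (univ \ A).card + A.card = d := by
    rw [Finset.card_sdiff_add_card_eq_card (Finset.subset_univ A), Finset.card_univ, Fintype.card_fin]
  omega

theorem count_eq (hCNT : S_CNT) (N₁ d N₂ : ℕ) (a : Fin N₁) (i j : Fin d) (hij : i ≠ j) (hN : 0 < N₂) :
    {g : Fin N₁ → Fin d → Fin N₂ | g a i = g a j}.ncard * N₂ =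
      Fintype.card (Fin N₁ → Fin d → Fin N₂) := by
  classical
  have h1 : {g : Fin N₁ → Fin d → Fin N₂ | g a i = g a j} =
      ⋃ v ∈ (univ : Finset (Fin N₂)), {g : Fin N₁ → Fin d → Fin N₂ | ∀ p ∈ ({(a, i), (a, j)} : Finset (Fin N₁ × Fin d)),
        g p.1 p.2 ∈ ({v} : Finset (Fin N₂))} := by
    ext g
    simp only [Set.mem_setOf_eq, Set.mem_iUnion, Finset.mem_univ, exists_const, Finset.mem_insert,
      Finset.mem_singleton, forall_eq_or_imp, forall_eq]
    constructor
    · intro h
      exact ⟨g a i, rfl, h.symm⟩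
    · rintro ⟨v, h2, h3⟩
      rw [h2, h3]
  have h2 : {g : Fin N₁ → Fin d → Fin N₂ | g a i = g a j}.ncard =
      ∑ v : Fin N₂, {g : Fin N₁ → Fin d → Fin N₂ | ∀ p ∈ ({(a, i), (a, j)} : Finset (Fin N₁ × Fin d)),
        g p.1 p.2 ∈ ({v} : Finset (Fin N₂))}.ncard := by
    rw [h1, Set.ncard_eq_toFinset_card', ]
    rw [show (⋃ v ∈ (univ : Finset (Fin N₂)), {g : Fin N₁ → Fin d → Fin N₂ | ∀ p ∈ ({(a, i), (a, j)} : Finset (Fin N₁ × Fin d)),
        g p.1 p.2 ∈ ({v} : Finset (Fin N₂))}).toFinset = (univ : Finset (Fin N₂)).biUnion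
        (fun v => {g : Fin N₁ → Fin d → Fin N₂ | ∀ p ∈ ({(a, i), (a, j)} : Finset (Fin N₁ × Fin d)),
        g p.1 p.2 ∈ ({v} : Finset (Fin N₂))}.toFinset) by
      ext g; simp]
    rw [Finset.card_biUnion]
    · apply Finset.sum_congr rfl
      intro v _
      rw [Set.ncard_eq_toFinset_card']
    · intro v _ w _ hvw
      rw [Function.onFun, Finset.disjoint_left]
      intro g hg hg'
      simp only [Set.mem_toFinset, Set.mem_setOf_eq, Finset.mem_insert, Finset.mem_singleton,
        forall_eq_or_imp, forall_eq] at hg hg'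
      exact hvw (hg.1.symm.trans hg'.1)
  have hne : ((a, i) : Fin N₁ × Fin d) ≠ (a, j) := by
    intro h
    exact hij (Prod.mk.inj h).2
  have h3 : ∀ v : Fin N₂, {g : Fin N₁ → Fin d → Fin N₂ | ∀ p ∈ ({(a, i), (a, j)} : Finset (Fin N₁ × Fin d)),
        g p.1 p.2 ∈ ({v} : Finset (Fin N₂))}.ncard * N₂ ^ 2 =
      Fintype.card (Fin N₁ → Fin d → Fin N₂) := by
    intro v
    have := hCNT N₁ d N₂ {(a, i), (a, j)} (fun _ => {v})
    rw [Finset.card_pair hne] at this
    rw [this]
    simp
  have h4 : {g : Fin N₁ → Fin d → Fin N₂ | g a i = g a j}.ncard * N₂ * N₂ =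
      Fintype.card (Fin N₁ → Fin d → Fin N₂) * N₂ := by
    rw [mul_assoc, ← pow_two, h2, Finset.sum_mul, Finset.sum_congr rfl (fun v _ => h3 v),
      Finset.sum_const, Finset.card_univ, Fintype.card_fin, smul_eq_mul, mul_comm]
  exact Nat.eq_of_mul_eq_mul_right hN h4

theorem main (hCNT : S_CNT) : S_H0 := by
  classical
  intro r L n₁ n₂ d₁ d₂ h
  set N₁ := NN r n₁ with hN₁
  set N₂ := NN r n₂ with hN₂
  set d := dd r L d₁ with hd
  have hr := h.hr
  have hn1 : 1 ≤ n₁ := h.hn₂.trans h.hn
  have hN1pos : 0 < N₁ := by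
    rw [hN₁]; unfold NN; positivity
  have hN2pos : 0 < N₂ := by
    have := h.hn₂
    rw [hN₂]; unfold NN; positivity
  have hdpos : 0 < d := by
    have h1 := h.hL
    have h2 := h.hd₁
    rw [hd]; unfold dd t1; positivity
  have hdN : 2 ^ 16 * d ≤ N₂ := by
    have hs := h.hs
    rw [hd, hN₂]
    unfold dd NN
    calc 2 ^ 16 * (4 * r * t1 L d₁) = 2 ^ 18 * r * t1 L d₁ := by ring
      _ ≤ 2 ^ 18 * r * (4 * n₂) := Nat.mul_le_mul_left _ hs
      _ = 2 ^ 20 * r * n₂ := by ring
  set H := Fintype.card (Host r L n₁ n₂ d₁) with hH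
  have hHpos : 0 < H := by
    rw [hH]
    have : Nonempty (Host r L n₁ n₂ d₁) := ⟨fun _ _ => ⟨0, hN2pos⟩⟩
    exact Fintype.card_pos
  set Bad : Finset (Host r L n₁ n₂ d₁) := univ.filter (fun g => ¬ G0 r L n₁ n₂ d₁ g) with hBad
  have hcard : {g : Host r L n₁ n₂ d₁ | ¬ G0 r L n₁ n₂ d₁ g}.ncard = Bad.card := by
    rw [Set.ncard_eq_toFinset_card']
    congr 1
    ext g
    simp [hBad]
  rw [hcard]
  -- each bad host has many repetitions
  have h1 : ∀ g ∈ Bad, N₁ * d ≤ 4 * ∑ a, (rep (g a)).card := by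
    intro g hg
    have hg' : ¬ (3 * (N₁ * d) ≤ 4 * ∑ a, (nb g a).card) := (Finset.mem_filter.1 hg).2
    have h2 : N₁ * d ≤ ∑ a, (nb g a).card + ∑ a, (rep (g a)).card := by
      rw [← Finset.sum_add_distrib]
      calc N₁ * d = ∑ _a : Fin N₁, d := by simp
        _ ≤ _ := Finset.sum_le_sum (fun a _ => card_le_image_add_rep (g a))
    omega
  -- the total number of repetitions
  have h2 : ∑ g : Host r L n₁ n₂ d₁, ∑ a, (rep (g a)).card * N₂ ≤ N₁ * d * d * H := by
    rw [Finset.sum_comm]
    calc ∑ a : Fin N₁, ∑ g : Host r L n₁ n₂ d₁, (rep (g a)).card * N₂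
        ≤ ∑ a : Fin N₁, d * d * H := by
          apply Finset.sum_le_sum
          intro a _
          have e1 : ∀ g : Host r L n₁ n₂ d₁, (rep (g a)).card * N₂ =
              ∑ q ∈ (univ : Finset (Fin d × Fin d)).filter (fun q => q.1 < q.2),
                (if g a q.1 = g a q.2 then N₂ else 0) := by
            intro g
            rw [← Finset.sum_filter, Finset.filter_filter, Finset.sum_const, smul_eq_mul]
            rfl
          rw [Finset.sum_congr rfl (fun g _ => e1 g), Finset.sum_comm]
          calc ∑ q ∈ (univ : Finset (Fin d × Fin d)).filter (fun q => q.1 < q.2),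
                ∑ g : Host r L n₁ n₂ d₁, (if g a q.1 = g a q.2 then N₂ else 0)
              = ∑ q ∈ (univ : Finset (Fin d × Fin d)).filter (fun q => q.1 < q.2), H := by
                apply Finset.sum_congr rfl
                intro q hq
                have hq' := (Finset.mem_filter.1 hq).2
                rw [← Finset.sum_filter, Finset.sum_const, smul_eq_mul]
                have hce := count_eq hCNT N₁ d N₂ a q.1 q.2 hq'.ne hN2pos
                rw [Set.ncard_eq_toFinset_card'] at hce
                have e2 : (univ.filter (fun g : Host r L n₁ n₂ d₁ => g a q.1 = g a q.2)) =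
                    {g : Fin N₁ → Fin d → Fin N₂ | g a q.1 = g a q.2}.toFinset := by
                  ext g
                  simp
                rw [e2]
                exact hce
            _ ≤ d * d * H := by
                rw [Finset.sum_const, smul_eq_mul]
                apply Nat.mul_le_mul_right
                refine (Finset.card_filter_le _ _).trans ?_
                simp
      _ = N₁ * d * d * H := by
          rw [Finset.sum_const, Finset.card_univ, Fintype.card_fin, smul_eq_mul]
          ring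
  have h3 : Bad.card * (N₁ * d) * N₂ ≤ 4 * (N₁ * d * d * H) := by
    calc Bad.card * (N₁ * d) * N₂ = ∑ g ∈ Bad, N₁ * d * N₂ := by
          rw [Finset.sum_const, smul_eq_mul]; ring
      _ ≤ ∑ g ∈ Bad, 4 * ∑ a, (rep (g a)).card * N₂ := by
          apply Finset.sum_le_sum
          intro g hg
          calc N₁ * d * N₂ ≤ (4 * ∑ a, (rep (g a)).card) * N₂ := Nat.mul_le_mul_right _ (h1 g hg)
            _ = 4 * ∑ a, (rep (g a)).card * N₂ := by rw [mul_assoc, Finset.sum_mul]
      _ ≤ ∑ g : Host r L n₁ n₂ d₁, 4 * ∑ a, (rep (g a)).card * N₂ :=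
          Finset.sum_le_sum_of_subset (Finset.subset_univ _)
      _ = 4 * ∑ g : Host r L n₁ n₂ d₁, ∑ a, (rep (g a)).card * N₂ := by rw [Finset.mul_sum]
      _ ≤ _ := Nat.mul_le_mul_left 4 h2
  have h4 : Bad.card * N₂ ≤ 4 * d * H := by
    have h5 : (Bad.card * N₂) * (N₁ * d) ≤ (4 * d * H) * (N₁ * d) := by
      calc (Bad.card * N₂) * (N₁ * d) = Bad.card * (N₁ * d) * N₂ := by ring
        _ ≤ _ := h3
        _ = _ := by ring
    exact Nat.le_of_mul_le_mul_right h5 (Nat.mul_pos hN1pos hdpos)
  -- conclusion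
  have h6 : 2 ^ 16 * d * Bad.card ≤ 4 * d * H := by
    calc 2 ^ 16 * d * Bad.card ≤ N₂ * Bad.card := Nat.mul_le_mul_right _ hdN
      _ = Bad.card * N₂ := by ring
      _ ≤ _ := h4
  have h7 : 2 ^ 14 * Bad.card ≤ H := by
    have h8 : (2 ^ 14 * Bad.card) * (4 * d) ≤ H * (4 * d) := by
      calc (2 ^ 14 * Bad.card) * (4 * d) = 2 ^ 16 * d * Bad.card := by ring
        _ ≤ _ := h6
        _ = _ := by ring
    exact Nat.le_of_mul_le_mul_right h8 (by positivity)
  omega

end Pool.Agent.H62.SR.T.H0
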