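import Pool.Agent.H62.SR.Stubs

/-! Task H1 of project SR (helper27): property (G1) of the random host, union bound. -/

namespace Pool.Agent.H62.SR.T.H1

open Finset Pool.Agent.H62.SR

/-- the number of index pairs -/
def ss (L d₂ m : ℕ) : ℕ := 256 * (d₂ * L) * m

theorem pairs {N₁ d N₂ : ℕ} (g : Fin N₁ → Fin d → Fin N₂) (X : Finset (Fin N₂))
    (Y : Finset (Fin N₁)) (t : ℕ)
    (h : ∀ b ∈ X, 2 * t ≤ 2 * (Y.filter (fun a => b ∈ nb g a)).card) :
    t * X.card ≤ ((Y ×ˢ (univ : Finset (Fin d))).filter (fun p => g p.1 p.2 ∈ X)).card := by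
  classical
  have h1 : ((Y ×ˢ (univ : Finset (Fin d))).filter (fun p => g p.1 p.2 ∈ X)).card =
      ∑ b ∈ X, (((Y ×ˢ (univ : Finset (Fin d))).filter (fun p => g p.1 p.2 ∈ X)).filter
        (fun p => g p.1 p.2 = b)).card :=
    Finset.card_eq_sum_card_fiberwise (fun p hp => (Finset.mem_filter.1 hp).2)
  rw [h1]
  have h2 : ∀ b ∈ X, t ≤ (((Y ×ˢ (univ : Finset (Fin d))).filter (fun p => g p.1 p.2 ∈ X)).filter
        (fun p => g p.1 p.2 = b)).card := by
    intro b hb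
    have h3 : (Y.filter (fun a => b ∈ nb g a)) ⊆
        ((((Y ×ˢ (univ : Finset (Fin d))).filter (fun p => g p.1 p.2 ∈ X)).filter
        (fun p => g p.1 p.2 = b)).image Prod.fst) := by
      intro a ha
      obtain ⟨haY, hab⟩ := Finset.mem_filter.1 ha
      unfold nb at hab
      obtain ⟨i, -, hi⟩ := Finset.mem_image.1 hab
      refine Finset.mem_image.2 ⟨(a, i), ?_, rfl⟩
      refine Finset.mem_filter.2 ⟨Finset.mem_filter.2 ⟨Finset.mem_product.2 ⟨haY, Finset.mem_univ _⟩, ?_⟩, hi⟩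
      change g a i ∈ X
      rw [hi]
      exact hb
    have h4 := Finset.card_le_card h3
    have h5 := h b hb
    have h6 : ((((Y ×ˢ (univ : Finset (Fin d))).filter (fun p => g p.1 p.2 ∈ X)).filter
        (fun p => g p.1 p.2 = b)).image Prod.fst).card ≤ _ := Finset.card_image_le
    omega
  calc t * X.card = ∑ b ∈ X, t := by rw [Finset.sum_const, smul_eq_mul, mul_comm]
    _ ≤ _ := Finset.sum_le_sum h2

/-- the weight of a pair of sizes -/
noncomputable def wt (N₂ n₁ d L d₂ m k : ℕ) : ℝ :=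
  if 1 ≤ m ∧ k ≤ 8 * n₁ ∧ k < 8 * d₂ * m then
    (((k * d).choose (ss L d₂ m) : ℕ) : ℝ) * ((m : ℝ) / N₂) ^ (ss L d₂ m) else 0

theorem wt_nonneg (N₂ n₁ d L d₂ m k : ℕ) : 0 ≤ wt N₂ n₁ d L d₂ m k := by
  unfold wt
  split_ifs
  · positivity
  · exact le_rfl

theorem count_F (hCNT : S_CNT) (N₁ d N₂ : ℕ) (hN : 0 < N₂) (F : Finset (Fin N₁ × Fin d))
    (X : Finset (Fin N₂)) :
    (({g : Fin N₁ → Fin d → Fin N₂ | ∀ p ∈ F, g p.1 p.2 ∈ X}.ncard : ℕ) : ℝ) =
      ((X.card : ℝ) / N₂) ^ F.card * (Fintype.card (Fin N₁ → Fin d → Fin N₂) : ℝ) := by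
  have h := hCNT N₁ d N₂ F (fun _ => X)
  rw [Finset.prod_const] at h
  have h' : (({g : Fin N₁ → Fin d → Fin N₂ | ∀ p ∈ F, g p.1 p.2 ∈ X}.ncard : ℕ) : ℝ) *
      (N₂ : ℝ) ^ F.card = (X.card : ℝ) ^ F.card *
        (Fintype.card (Fin N₁ → Fin d → Fin N₂) : ℝ) := by exact_mod_cast h
  have hN' : (0 : ℝ) < (N₂ : ℝ) ^ F.card := by positivity
  rw [div_pow]
  field_simp
  linarith [h']

/-- the numerical estimate -/
theorem numeric (hCH : S_CH) (r L n₁ n₂ d₁ d₂ m k : ℕ) (h : Par r L n₁ n₂ d₁ d₂)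
    (hm : 1 ≤ m) (hk : 1 ≤ k) (hk8 : k ≤ 8 * n₁) (hkm : k < 8 * d₂ * m) :
    (((NN r n₂).choose m : ℕ) : ℝ) * (((NN r n₁).choose k : ℕ) : ℝ) *
      ((((k * dd r L d₁).choose (ss L d₂ m) : ℕ) : ℝ) * ((m : ℝ) / NN r n₂) ^ (ss L d₂ m)) ≤
      (1 / 2 : ℝ) ^ m * (1 / 2 : ℝ) ^ k * (1 / 1024) := by
  have hr := h.hr
  have hL := h.hL
  have hd1 := h.hd₁
  have hd2 : 1 ≤ d₂ := h.hd₁.trans h.hd
  have hn2 := h.hn₂
  have hn1 : 1 ≤ n₁ := h.hn₂.trans h.hn
  have hmR : (1 : ℝ) ≤ m := by exact_mod_cast hm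
  have hkR : (1 : ℝ) ≤ k := by exact_mod_cast hk
  have hrR : (2 : ℝ) ≤ r := by exact_mod_cast hr
  have hLR : (1 : ℝ) ≤ L := by exact_mod_cast hL
  have hd1R : (1 : ℝ) ≤ d₁ := by exact_mod_cast hd1
  have hd2R : (1 : ℝ) ≤ d₂ := by exact_mod_cast hd2
  have hn1R : (1 : ℝ) ≤ n₁ := by exact_mod_cast hn1
  have hn2R : (1 : ℝ) ≤ n₂ := by exact_mod_cast hn2
  have hk8R : (k : ℝ) ≤ 8 * n₁ := by exact_mod_cast hk8
  have hkmR : (k : ℝ) ≤ 8 * d₂ * m := by exact_mod_cast hkm.le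
  have h12R : (n₁ : ℝ) * d₁ ≤ 2 * (n₂ * d₂) := by exact_mod_cast h.h12
  have hnR : (n₂ : ℝ) ≤ n₁ := by exact_mod_cast h.hn
  set y : ℝ := 2 ^ 20 * n₁ / (96 * k) with hy
  have hkpos : (0 : ℝ) < k := by linarith
  have hmpos : (0 : ℝ) < m := by linarith
  have hy1 : (1024 : ℝ) ≤ y := by
    rw [hy, le_div_iff₀ (by positivity)]
    nlinarith
  have hypos : (0 : ℝ) < y := by linarith
  have hyk : y * (96 * k) = 2 ^ 20 * n₁ := by
    rw [hy]; field_simp
  have hrL : (r : ℝ) ≤ y ^ L := by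
    have h1 : (r : ℝ) ≤ 2 ^ L := by exact_mod_cast h.hrL
    exact h1.trans (pow_le_pow_left₀ (by norm_num) (by linarith) L)
  have hd2y : (d₂ : ℝ) ≤ y ^ d₂ := by
    have h1 : (d₂ : ℝ) ≤ 2 ^ d₂ := by exact_mod_cast (Nat.lt_two_pow_self).le
    exact h1.trans (pow_le_pow_left₀ (by norm_num) (by linarith) d₂)
  have hNN1 : ((NN r n₁ : ℕ) : ℝ) = r * (y * (96 * k)) := by
    rw [hyk]; unfold NN; push_cast; ring
  have hNN2 : ((NN r n₂ : ℕ) : ℝ) ≤ r * (y * (96 * k)) := by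
    rw [hyk]; unfold NN; push_cast
    have : (r : ℝ) * n₂ ≤ r * n₁ := by nlinarith
    nlinarith
  have hNN2pos : (0 : ℝ) < ((NN r n₂ : ℕ) : ℝ) := by
    unfold NN; push_cast; positivity
  have hy1' : (1 : ℝ) ≤ y := by linarith
  -- the sets Y
  have hY : (2 : ℝ) ^ k * (((NN r n₁).choose k : ℕ) : ℝ) ≤ y ^ (32 * (L * d₂ * m)) := by
    have e1 := hCH (NN r n₁) k hk
    have e2 : (3 * ((NN r n₁ : ℕ) : ℝ) / k) = 288 * r * y := by
      rw [hNN1]; field_simp; norm_num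
    rw [e2] at e1
    have e3 : 2 * (288 * r * y) ≤ y ^ (4 * L) := by
      have e4 : 2 * (288 * r * y) ≤ y * y ^ L * y := by
        have : (576 : ℝ) * r ≤ y * y ^ L := mul_le_mul (by linarith) hrL (by linarith) hypos.le
        nlinarith
      have e5 : y * y ^ L * y = y ^ (L + 2) := by ring
      rw [e5] at e4
      exact e4.trans (pow_le_pow_right₀ hy1' (by omega))
    calc (2 : ℝ) ^ k * (((NN r n₁).choose k : ℕ) : ℝ) ≤ 2 ^ k * (288 * r * y) ^ k := by
          gcongr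
      _ = (2 * (288 * r * y)) ^ k := by rw [← mul_pow]
      _ ≤ (y ^ (4 * L)) ^ k := pow_le_pow_left₀ (by positivity) e3 k
      _ = y ^ (4 * L * k) := by rw [← pow_mul]
      _ ≤ y ^ (32 * (L * d₂ * m)) := by
          apply pow_le_pow_right₀ hy1'
          calc 4 * L * k ≤ 4 * L * (8 * d₂ * m) := Nat.mul_le_mul_left _ hkm.le
            _ = 32 * (L * d₂ * m) := by ring
  -- the sets X
  have hX : (2 : ℝ) ^ m * (((NN r n₂).choose m : ℕ) : ℝ) ≤ y ^ (5 * (L * d₂ * m)) := by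
    have e1 := hCH (NN r n₂) m hm
    have e2 : (3 * ((NN r n₂ : ℕ) : ℝ) / m) ≤ 2304 * r * d₂ * y := by
      rw [div_le_iff₀ hmpos]
      calc 3 * ((NN r n₂ : ℕ) : ℝ) ≤ 3 * (r * (y * (96 * k))) := by linarith
        _ = 288 * (r * y) * k := by ring
        _ ≤ 288 * (r * y) * (8 * d₂ * m) := by
            apply mul_le_mul_of_nonneg_left hkmR (by positivity)
        _ = 2304 * r * d₂ * y * m := by ring
    have e3 : 2 * (2304 * r * d₂ * y) ≤ y ^ (5 * (L * d₂)) := by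
      have e4 : 2 * (2304 * r * d₂ * y) ≤ (y * y) * y ^ L * y ^ d₂ * y := by
        have a1 : (4608 : ℝ) * r ≤ (y * y) * y ^ L := mul_le_mul (by nlinarith) hrL (by linarith) (by positivity)
        have a2 : (4608 : ℝ) * r * d₂ ≤ (y * y) * y ^ L * y ^ d₂ := mul_le_mul a1 hd2y (by linarith) (by positivity)
        nlinarith
      have e5 : (y * y) * y ^ L * y ^ d₂ * y = y ^ (L + d₂ + 3) := by
        rw [pow_add, pow_add]; ring
      rw [e5] at e4
      refine e4.trans (pow_le_pow_right₀ hy1' ?_)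
      nlinarith [Nat.mul_le_mul hL hd2, mul_nonneg (Int.natCast_nonneg (L-1)) (Int.natCast_nonneg (d₂-1)),
        Nat.le_mul_of_pos_right L (show 0 < d₂ by omega), Nat.le_mul_of_pos_left d₂ (show 0 < L by omega)]
    calc (2 : ℝ) ^ m * (((NN r n₂).choose m : ℕ) : ℝ) ≤ 2 ^ m * (2304 * r * d₂ * y) ^ m := by
          apply mul_le_mul_of_nonneg_left _ (by positivity)
          exact e1.trans (pow_le_pow_left₀ (by positivity) e2 m)
      _ = (2 * (2304 * r * d₂ * y)) ^ m := by rw [← mul_pow]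
      _ ≤ (y ^ (5 * (L * d₂))) ^ m := pow_le_pow_left₀ (by positivity) e3 m
      _ = y ^ (5 * (L * d₂ * m)) := by rw [← pow_mul]; ring_nf
  -- the index pairs
  have hspos : 1 ≤ ss L d₂ m := by
    unfold ss
    have : 0 < 256 * (d₂ * L) * m := by positivity
    omega
  have hF : (((k * dd r L d₁).choose (ss L d₂ m) : ℕ) : ℝ) * ((m : ℝ) / NN r n₂) ^ (ss L d₂ m) ≤
      (1 / y) ^ (256 * (L * d₂ * m)) := by
    have e1 := hCH (k * dd r L d₁) (ss L d₂ m) hspos
    have e2 : 3 * ((k * dd r L d₁ : ℕ) : ℝ) / (ss L d₂ m : ℕ) * ((m : ℝ) / NN r n₂) ≤ 1 / y := by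
      have a1 : ((k * dd r L d₁ : ℕ) : ℝ) = k * (4096 * (r * (d₁ * L))) := by
        unfold dd t1; push_cast; ring
      have a2 : ((ss L d₂ m : ℕ) : ℝ) = 256 * (d₂ * L) * m := by
        unfold ss; push_cast; ring
      have a3 : ((NN r n₂ : ℕ) : ℝ) = 2 ^ 20 * r * n₂ := by
        unfold NN; push_cast; ring
      rw [a1, a2, a3]
      have a4 : 3 * ((k : ℝ) * (4096 * (r * (d₁ * L)))) / (256 * (d₂ * L) * m) *
          ((m : ℝ) / (2 ^ 20 * r * n₂)) = 48 * k * d₁ / (2 ^ 20 * (n₂ * d₂)) := by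
        field_simp
        norm_num
      rw [a4, hy, one_div_div, div_le_div_iff₀ (by positivity) (by positivity)]
      have a5 : (k : ℝ) * (n₁ * d₁) ≤ k * (2 * (n₂ * d₂)) := mul_le_mul_of_nonneg_left h12R hkpos.le
      nlinarith
    calc (((k * dd r L d₁).choose (ss L d₂ m) : ℕ) : ℝ) * ((m : ℝ) / NN r n₂) ^ (ss L d₂ m)
        ≤ (3 * ((k * dd r L d₁ : ℕ) : ℝ) / (ss L d₂ m : ℕ)) ^ (ss L d₂ m) *
            ((m : ℝ) / NN r n₂) ^ (ss L d₂ m) := by gcongr
      _ = (3 * ((k * dd r L d₁ : ℕ) : ℝ) / (ss L d₂ m : ℕ) * ((m : ℝ) / NN r n₂)) ^ (ss L d₂ m) := by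
          rw [← mul_pow]
      _ ≤ (1 / y) ^ (ss L d₂ m) := pow_le_pow_left₀ (by positivity) e2 _
      _ = (1 / y) ^ (256 * (L * d₂ * m)) := by
          congr 1; unfold ss; ring
  -- together
  set Q : ℕ := L * d₂ * m with hQ
  have hQ1 : 1 ≤ Q := by
    have : 0 < L * d₂ * m := by positivity
    omega
  have hfin : y ^ (5 * Q) * y ^ (32 * Q) * (1 / y) ^ (256 * Q) ≤ 1 / 1024 := by
    have b1 : y ^ (5 * Q) * y ^ (32 * Q) * (1 / y) ^ (256 * Q) = (1 / y) ^ (219 * Q) := by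
      have : (1 / y) ^ (256 * Q) = (1 / y) ^ (37 * Q) * (1 / y) ^ (219 * Q) := by
        rw [← pow_add]; congr 1; ring
      rw [this, ← pow_add, ← mul_assoc, show 5 * Q + 32 * Q = 37 * Q by ring, ← mul_pow]
      rw [mul_one_div_cancel hypos.ne', one_pow, one_mul]
    rw [b1]
    have b2 : (1 / y) ≤ 1 / 1024 := one_div_le_one_div_of_le (by norm_num) hy1
    calc (1 / y) ^ (219 * Q) ≤ (1 / y) ^ 1 := by
          apply pow_le_pow_of_le_one (by positivity) (b2.trans (by norm_num)) (by omega)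
      _ = 1 / y := pow_one _
      _ ≤ _ := b2
  have hcomb : ((2 : ℝ) ^ m * (((NN r n₂).choose m : ℕ) : ℝ)) *
      ((2 : ℝ) ^ k * (((NN r n₁).choose k : ℕ) : ℝ)) *
      ((((k * dd r L d₁).choose (ss L d₂ m) : ℕ) : ℝ) * ((m : ℝ) / NN r n₂) ^ (ss L d₂ m)) ≤
      1 / 1024 := by
    refine le_trans ?_ hfin
    gcongr
  have h2m : (1 / 2 : ℝ) ^ m * 2 ^ m = 1 := by rw [← mul_pow]; norm_num
  have h2k : (1 / 2 : ℝ) ^ k * 2 ^ k = 1 := by rw [← mul_pow]; norm_num
  calc (((NN r n₂).choose m : ℕ) : ℝ) * (((NN r n₁).choose k : ℕ) : ℝ) *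
      ((((k * dd r L d₁).choose (ss L d₂ m) : ℕ) : ℝ) * ((m : ℝ) / NN r n₂) ^ (ss L d₂ m))
      = ((1 / 2 : ℝ) ^ m * 2 ^ m) * ((1 / 2 : ℝ) ^ k * 2 ^ k) *
        ((((NN r n₂).choose m : ℕ) : ℝ) * (((NN r n₁).choose k : ℕ) : ℝ) *
      ((((k * dd r L d₁).choose (ss L d₂ m) : ℕ) : ℝ) * ((m : ℝ) / NN r n₂) ^ (ss L d₂ m))) := by
        rw [h2m, h2k]; ring
    _ = (1 / 2 : ℝ) ^ m * (1 / 2 : ℝ) ^ k * (((2 : ℝ) ^ m * (((NN r n₂).choose m : ℕ) : ℝ)) *
      ((2 : ℝ) ^ k * (((NN r n₁).choose k : ℕ) : ℝ)) *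
      ((((k * dd r L d₁).choose (ss L d₂ m) : ℕ) : ℝ) * ((m : ℝ) / NN r n₂) ^ (ss L d₂ m))) := by ring
    _ ≤ _ := mul_le_mul_of_nonneg_left hcomb (by positivity)

theorem main (hCNT : S_CNT) (hCH : S_CH) : S_H1 := by
  classical
  intro r L n₁ n₂ d₁ d₂ h
  have hr := h.hr
  have hL := h.hL
  have hn1 : 1 ≤ n₁ := h.hn₂.trans h.hn
  have hd2 : 1 ≤ d₂ := h.hd₁.trans h.hd
  have hN2pos : 0 < NN r n₂ := by
    have := h.hn₂
    unfold NN; positivity
  set H : ℕ := Fintype.card (Host r L n₁ n₂ d₁) with hH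
  have hHpos : 0 < H := by
    rw [hH]
    have : Nonempty (Host r L n₁ n₂ d₁) := ⟨fun _ _ => ⟨0, hN2pos⟩⟩
    exact Fintype.card_pos
  set Bad : Finset (Host r L n₁ n₂ d₁) := univ.filter (fun g => ¬ G1 r L n₁ n₂ d₁ d₂ g) with hBad
  have hcard : {g : Host r L n₁ n₂ d₁ | ¬ G1 r L n₁ n₂ d₁ d₂ g}.ncard = Bad.card := by
    rw [Set.ncard_eq_toFinset_card']
    congr 1
    ext g
    simp [hBad]
  rw [hcard]
  -- the events
  set Ev : Finset (Fin (NN r n₂)) → Finset (Fin (NN r n₁) × Fin (dd r L d₁)) →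
      Finset (Host r L n₁ n₂ d₁) := fun X F => univ.filter (fun g => ∀ p ∈ F, g p.1 p.2 ∈ X) with hEv
  have hEvc : ∀ X F, ((Ev X F).card : ℝ) = ((X.card : ℝ) / NN r n₂) ^ F.card * (H : ℝ) := by
    intro X F
    rw [← count_F hCNT (NN r n₁) (dd r L d₁) (NN r n₂) hN2pos F X, Set.ncard_eq_toFinset_card']
    congr 2
    ext g
    simp [hEv]
  set Ys : Finset (Fin (NN r n₂)) → Finset (Finset (Fin (NN r n₁))) := fun X =>
    univ.filter (fun Y => 1 ≤ X.card ∧ Y.card ≤ 8 * n₁ ∧ Y.card < 8 * d₂ * X.card) with hYs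
  have hsub : Bad ⊆ (univ : Finset (Finset (Fin (NN r n₂)))).biUnion (fun X => (Ys X).biUnion (fun Y =>
      (powersetCard (ss L d₂ X.card) (Y ×ˢ (univ : Finset (Fin (dd r L d₁))))).biUnion
        (fun F => Ev X F))) := by
    intro g hg
    have hg' := (Finset.mem_filter.1 hg).2
    unfold G1 at hg'
    push Not at hg'
    obtain ⟨X, Y, h1, h2, h3⟩ := hg'
    have hX1 : 1 ≤ X.card := by
      by_contra hc
      have : X.card = 0 := by omega
      rw [this] at h3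
      omega
    have h4 := pairs g X Y (256 * (d₂ * L)) (by
      intro b hb
      have := h2 b hb
      unfold t2 at this
      omega)
    obtain ⟨F, hF1, hF2⟩ := Finset.exists_subset_card_eq h4
    refine Finset.mem_biUnion.2 ⟨X, Finset.mem_univ _, Finset.mem_biUnion.2 ⟨Y, ?_,
      Finset.mem_biUnion.2 ⟨F, ?_, ?_⟩⟩⟩
    · exact Finset.mem_filter.2 ⟨Finset.mem_univ _, hX1, h1, h3⟩
    · rw [Finset.mem_powersetCard]
      exact ⟨hF1.trans (Finset.filter_subset _ _), hF2⟩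
    · refine Finset.mem_filter.2 ⟨Finset.mem_univ _, ?_⟩
      intro p hp
      exact (Finset.mem_filter.1 (hF1 hp)).2
  have hsum : (Bad.card : ℝ) ≤ ∑ X : Finset (Fin (NN r n₂)), ∑ Y : Finset (Fin (NN r n₁)),
      wt (NN r n₂) n₁ (dd r L d₁) L d₂ X.card Y.card * H := by
    calc (Bad.card : ℝ) ≤ (((univ : Finset (Finset (Fin (NN r n₂)))).biUnion (fun X => (Ys X).biUnion (fun Y =>
      (powersetCard (ss L d₂ X.card) (Y ×ˢ (univ : Finset (Fin (dd r L d₁))))).biUnion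
        (fun F => Ev X F)))).card : ℝ) := by exact_mod_cast Finset.card_le_card hsub
      _ ≤ ∑ X : Finset (Fin (NN r n₂)), ∑ Y ∈ Ys X, ∑ F ∈ (powersetCard (ss L d₂ X.card)
            (Y ×ˢ (univ : Finset (Fin (dd r L d₁))))), ((Ev X F).card : ℝ) := by
          have := Finset.card_biUnion_le (s := (univ : Finset (Finset (Fin (NN r n₂))))) (t := fun X => (Ys X).biUnion (fun Y =>
            (powersetCard (ss L d₂ X.card) (Y ×ˢ (univ : Finset (Fin (dd r L d₁))))).biUnion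
            (fun F => Ev X F)))
          have h1 : (((univ : Finset (Finset (Fin (NN r n₂)))).biUnion (fun X => (Ys X).biUnion (fun Y =>
            (powersetCard (ss L d₂ X.card) (Y ×ˢ (univ : Finset (Fin (dd r L d₁))))).biUnion
            (fun F => Ev X F)))).card : ℝ) ≤ ∑ X : Finset (Fin (NN r n₂)), (((Ys X).biUnion (fun Y =>
            (powersetCard (ss L d₂ X.card) (Y ×ˢ (univ : Finset (Fin (dd r L d₁))))).biUnion
            (fun F => Ev X F))).card : ℝ) := by exact_mod_cast this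
          refine h1.trans (Finset.sum_le_sum fun X _ => ?_)
          have := Finset.card_biUnion_le (s := Ys X) (t := fun Y =>
            (powersetCard (ss L d₂ X.card) (Y ×ˢ (univ : Finset (Fin (dd r L d₁))))).biUnion
            (fun F => Ev X F))
          have h2 : (((Ys X).biUnion (fun Y =>
            (powersetCard (ss L d₂ X.card) (Y ×ˢ (univ : Finset (Fin (dd r L d₁))))).biUnion
            (fun F => Ev X F))).card : ℝ) ≤ ∑ Y ∈ Ys X, (((powersetCard (ss L d₂ X.card)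
            (Y ×ˢ (univ : Finset (Fin (dd r L d₁))))).biUnion (fun F => Ev X F)).card : ℝ) := by
            exact_mod_cast this
          refine h2.trans (Finset.sum_le_sum fun Y _ => ?_)
          have := Finset.card_biUnion_le (s := powersetCard (ss L d₂ X.card)
            (Y ×ˢ (univ : Finset (Fin (dd r L d₁))))) (t := fun F => Ev X F)
          exact_mod_cast this
      _ ≤ ∑ X : Finset (Fin (NN r n₂)), ∑ Y : Finset (Fin (NN r n₁)),
            wt (NN r n₂) n₁ (dd r L d₁) L d₂ X.card Y.card * H := by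
          apply Finset.sum_le_sum
          intro X _
          rw [hYs, Finset.sum_filter]
          apply Finset.sum_le_sum
          intro Y _
          unfold wt
          split_ifs with hc
          · apply le_of_eq
            have : ∀ F ∈ (powersetCard (ss L d₂ X.card)
              (Y ×ˢ (univ : Finset (Fin (dd r L d₁))))), ((Ev X F).card : ℝ) =
                ((X.card : ℝ) / NN r n₂) ^ (ss L d₂ X.card) * (H : ℝ) := by
              intro F hF
              rw [hEvc, (Finset.mem_powersetCard.1 hF).2]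
            rw [Finset.sum_congr rfl this, Finset.sum_const, Finset.card_powersetCard,
              Finset.card_product, Finset.card_univ, Fintype.card_fin, nsmul_eq_mul]
            ring
          · simp
  -- sums over sizes
  have hsizes : ∑ X : Finset (Fin (NN r n₂)), ∑ Y : Finset (Fin (NN r n₁)),
      wt (NN r n₂) n₁ (dd r L d₁) L d₂ X.card Y.card * H =
      ∑ m ∈ range (NN r n₂ + 1), ∑ k ∈ range (NN r n₁ + 1),
        (((NN r n₂).choose m : ℕ) : ℝ) * (((NN r n₁).choose k : ℕ) : ℝ) *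
          wt (NN r n₂) n₁ (dd r L d₁) L d₂ m k * H := by
    have e1 : ∀ (N : ℕ) (f : ℕ → ℝ), ∑ X : Finset (Fin N), f X.card =
        ∑ m ∈ range (N + 1), ((N.choose m : ℕ) : ℝ) * f m := by
      intro N f
      have := Finset.sum_powerset_apply_card (x := (univ : Finset (Fin N))) f
      rw [Finset.powerset_univ, Finset.card_univ, Fintype.card_fin] at this
      rw [this]
      apply Finset.sum_congr rfl
      intro m _
      rw [nsmul_eq_mul]
    rw [e1 (NN r n₂) (fun m => ∑ Y : Finset (Fin (NN r n₁)),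
      wt (NN r n₂) n₁ (dd r L d₁) L d₂ m Y.card * H)]
    apply Finset.sum_congr rfl
    intro m _
    rw [e1 (NN r n₁) (fun k => wt (NN r n₂) n₁ (dd r L d₁) L d₂ m k * H), Finset.mul_sum]
    apply Finset.sum_congr rfl
    intro k _
    ring
  have hterm : ∀ m k : ℕ, (((NN r n₂).choose m : ℕ) : ℝ) * (((NN r n₁).choose k : ℕ) : ℝ) *
          wt (NN r n₂) n₁ (dd r L d₁) L d₂ m k * H ≤ (1 / 2 : ℝ) ^ m * (1 / 2 : ℝ) ^ k * (1 / 1024) * H := by
    intro m k
    apply mul_le_mul_of_nonneg_right _ (Nat.cast_nonneg _)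
    unfold wt
    split_ifs with hc
    · rcases Nat.eq_zero_or_pos k with hk0 | hkpos
      · have hs1 : 1 ≤ ss L d₂ m := by
          unfold ss
          have h1 := hc.1
          have : 0 < 256 * (d₂ * L) * m := by positivity
          omega
        rw [hk0, Nat.zero_mul, Nat.choose_eq_zero_of_lt (by omega : 0 < ss L d₂ m)]
        simp
      · exact numeric hCH r L n₁ n₂ d₁ d₂ m k h hc.1 hkpos hc.2.1 hc.2.2
    · rw [mul_zero]; positivity
  have hgeo : ∀ N : ℕ, ∑ m ∈ range (N + 1), (1 / 2 : ℝ) ^ m ≤ 2 := by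
    intro N
    have := geom_sum_eq (show (1 / 2 : ℝ) ≠ 1 by norm_num) (N + 1)
    rw [this]
    have h1 : (0 : ℝ) < (1 / 2) ^ (N + 1) := by positivity
    rw [div_le_iff_of_neg (by norm_num)]
    linarith
  have htot : (Bad.card : ℝ) ≤ 4 / 1024 * H := by
    rw [hsizes] at hsum
    refine hsum.trans ?_
    calc ∑ m ∈ range (NN r n₂ + 1), ∑ k ∈ range (NN r n₁ + 1),
        (((NN r n₂).choose m : ℕ) : ℝ) * (((NN r n₁).choose k : ℕ) : ℝ) *
          wt (NN r n₂) n₁ (dd r L d₁) L d₂ m k * H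
        ≤ ∑ m ∈ range (NN r n₂ + 1), ∑ k ∈ range (NN r n₁ + 1),
          (1 / 2 : ℝ) ^ m * (1 / 2 : ℝ) ^ k * (1 / 1024) * H :=
          Finset.sum_le_sum fun m _ => Finset.sum_le_sum fun k _ => hterm m k
      _ = (∑ m ∈ range (NN r n₂ + 1), (1 / 2 : ℝ) ^ m) *
          (∑ k ∈ range (NN r n₁ + 1), (1 / 2 : ℝ) ^ k) * (1 / 1024 * H) := by
          rw [Finset.sum_mul_sum, Finset.sum_mul]
          apply Finset.sum_congr rfl
          intro m _
          rw [Finset.sum_mul]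
          apply Finset.sum_congr rfl
          intro k _
          ring
      _ ≤ 2 * 2 * (1 / 1024 * H) := by
          apply mul_le_mul_of_nonneg_right _ (by positivity)
          exact mul_le_mul (hgeo _) (hgeo _) (Finset.sum_nonneg fun _ _ => by positivity) (by norm_num)
      _ = 4 / 1024 * H := by ring
  have hfin : (4 * Bad.card : ℝ) < H := by
    have : (0 : ℝ) < H := by exact_mod_cast hHpos
    linarith
  exact_mod_cast hfin

end Pool.Agent.H62.SR.T.H1
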