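import Pool.Agent.H62.SR.UB

/-! # The union bound for the property (G2A) -/

namespace Pool.Agent.H62.SR.T.H2A

open Finset Pool.Agent.H62.SR Pool.Agent.H62.SR.UB

/-- the numerical part -/
theorem numer {r L n₁ n₂ d₁ d₂ : ℕ} (hp : Par r L n₁ n₂ d₁ d₂) (hd : d₂ ≤ 2 ^ (30 * (d₁ * L)))
    {ρ s : ℕ} (hρ : 1 ≤ ρ) (hs : 1 ≤ s) (hρ8 : ρ ≤ 8 * n₂) (hρs : ρ ≤ 2 * d₁ * s) :
    (((dd r L d₁).choose (512 * (d₁ * L)) : ℕ) * ((ρ : ℝ) / NN r n₂) ^ (512 * (d₁ * L))) ^ s *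
      (((NN r n₂).choose ρ : ℕ) * ((NN r n₁).choose s : ℕ)) * 2 ^ (ρ + s + 3) ≤ 1 := by
  obtain ⟨hr, hL, hrL, hn₂, hn, hd₁, hd12, h12, h21, -⟩ := hp
  set h : ℕ := 512 * (d₁ * L) with hh
  have hdL : 1 ≤ d₁ * L := Nat.mul_pos hd₁ hL
  have hh1 : 1 ≤ h := by omega
  have R1 : (1 : ℝ) ≤ ρ := by exact_mod_cast hρ
  have S1 : (1 : ℝ) ≤ s := by exact_mod_cast hs
  have N1 : (1 : ℝ) ≤ n₂ := by exact_mod_cast hn₂
  have r1 : (2 : ℝ) ≤ r := by exact_mod_cast hr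
  have D1 : (1 : ℝ) ≤ d₁ := by exact_mod_cast hd₁
  have L1 : (1 : ℝ) ≤ L := by exact_mod_cast hL
  have D2 : (1 : ℝ) ≤ d₂ := by exact_mod_cast hd₁.trans hd12
  have hρ8' : (ρ : ℝ) ≤ 8 * n₂ := by exact_mod_cast hρ8
  have hρs' : (ρ : ℝ) ≤ 2 * d₁ * s := by exact_mod_cast hρs
  have h12' : (n₁ : ℝ) * d₁ ≤ 2 * (n₂ * d₂) := by exact_mod_cast h12
  set y : ℝ := 2 ^ 20 * n₂ / (24 * ρ) with hy
  have hy12 : (2 : ℝ) ^ 12 ≤ y := by
    rw [hy, le_div_iff₀ (by positivity)]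
    nlinarith
  have hy0 : 0 < y := lt_of_lt_of_le (by positivity) hy12
  have hy1 : 1 ≤ y := le_trans (by norm_num) hy12
  -- the rows
  have e1 : (((dd r L d₁).choose h : ℕ) : ℝ) * ((ρ : ℝ) / NN r n₂) ^ h ≤ (y⁻¹) ^ h := by
    have h1 := CH.main (dd r L d₁) h hh1
    have h2 : (3 * ((dd r L d₁ : ℕ) : ℝ) / h) * ((ρ : ℝ) / NN r n₂) = y⁻¹ := by
      rw [hy, hh]
      unfold dd t1 NN
      push_cast
      field_simp
      ring
    calc (((dd r L d₁).choose h : ℕ) : ℝ) * ((ρ : ℝ) / NN r n₂) ^ h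
        ≤ (3 * ((dd r L d₁ : ℕ) : ℝ) / h) ^ h * ((ρ : ℝ) / NN r n₂) ^ h :=
          mul_le_mul_of_nonneg_right h1 (by positivity)
      _ = (y⁻¹) ^ h := by rw [← mul_pow, h2]
  -- the sets `R`
  have hrp : (r : ℝ) ≤ 2 ^ L := by exact_mod_cast hrL
  have e2 : (((NN r n₂).choose ρ : ℕ) : ℝ) * 2 ^ ρ ≤ y ^ (2 * L * ρ) := by
    have h1 := CH.main (NN r n₂) ρ hρ
    have h2 : 3 * ((NN r n₂ : ℕ) : ℝ) / ρ = 72 * r * y := by
      rw [hy]
      unfold NN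
      push_cast
      field_simp
      ring
    have h3 : 144 * r * y ≤ y ^ (2 * L) := by
      have h4 : (144 : ℝ) * r ≤ y ^ L := by
        calc (144 : ℝ) * r ≤ 2 ^ 8 * 2 ^ L := by
              apply mul_le_mul (by norm_num) hrp (by positivity) (by positivity)
          _ = 2 ^ (8 + L) := by rw [pow_add]
          _ ≤ 2 ^ (12 * L) := pow_le_pow_right₀ (by norm_num) (by omega)
          _ = (2 ^ 12) ^ L := by rw [pow_mul]
          _ ≤ y ^ L := pow_le_pow_left₀ (by positivity) hy12 L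
      calc 144 * r * y ≤ y ^ L * y := mul_le_mul_of_nonneg_right h4 hy0.le
        _ = y ^ (L + 1) := by rw [pow_succ]
        _ ≤ y ^ (2 * L) := pow_le_pow_right₀ hy1 (by omega)
    calc (((NN r n₂).choose ρ : ℕ) : ℝ) * 2 ^ ρ ≤ (72 * r * y) ^ ρ * 2 ^ ρ := by
          rw [← h2]; exact mul_le_mul_of_nonneg_right h1 (by positivity)
      _ = (144 * r * y) ^ ρ := by rw [← mul_pow]; congr 1; ring
      _ ≤ (y ^ (2 * L)) ^ ρ := pow_le_pow_left₀ (by positivity) h3 ρ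
      _ = y ^ (2 * L * ρ) := by rw [← pow_mul]
  -- the sets `S`
  have hd2p : (d₂ : ℝ) ≤ 2 ^ (30 * (d₁ * L)) := by exact_mod_cast hd
  have e3 : (((NN r n₁).choose s : ℕ) : ℝ) * 2 ^ s ≤ y ^ (5 * (d₁ * L) * s) := by
    have h1 := CH.main (NN r n₁) s hs
    have h2 : 3 * ((NN r n₁ : ℕ) : ℝ) / s ≤ 288 * r * d₂ * y := by
      rw [hy]
      unfold NN
      push_cast
      rw [div_le_iff₀ (by positivity)]
      have h5 : (n₁ : ℝ) * ρ ≤ 4 * (n₂ * d₂) * s := by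
        calc (n₁ : ℝ) * ρ ≤ n₁ * (2 * d₁ * s) := mul_le_mul_of_nonneg_left hρs' (by positivity)
          _ = 2 * (n₁ * d₁) * s := by ring
          _ ≤ 2 * (2 * (n₂ * d₂)) * s := by gcongr
          _ = _ := by ring
      have h6 : 288 * (r : ℝ) * d₂ * (2 ^ 20 * n₂ / (24 * ρ)) * s = 3 * 2 ^ 20 * r * ((4 * (n₂ * d₂) * s) / ρ) := by
        field_simp
        ring
      rw [h6]
      have h7 : (n₁ : ℝ) ≤ (4 * (n₂ * d₂) * s) / ρ := by
        rw [le_div_iff₀ (by positivity)]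
        exact h5
      have h8 : 3 * 2 ^ 20 * (r : ℝ) * n₁ ≤ 3 * 2 ^ 20 * r * ((4 * (n₂ * d₂) * s) / ρ) := by gcongr
      refine le_trans (le_of_eq ?_) h8
      ring
    have h3 : 576 * r * d₂ * y ≤ y ^ (5 * (d₁ * L)) := by
      have h4 : (576 : ℝ) * r * d₂ ≤ y ^ (4 * (d₁ * L)) := by
        calc (576 : ℝ) * r * d₂ ≤ 2 ^ 10 * 2 ^ L * 2 ^ (30 * (d₁ * L)) := by
              apply mul_le_mul _ hd2p (by positivity) (by positivity)
              apply mul_le_mul (by norm_num) hrp (by positivity) (by positivity)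
          _ = 2 ^ (10 + L + 30 * (d₁ * L)) := by rw [pow_add, pow_add]
          _ ≤ 2 ^ (12 * (4 * (d₁ * L))) := by
              apply pow_le_pow_right₀ (by norm_num)
              have : L ≤ d₁ * L := Nat.le_mul_of_pos_left L hd₁
              omega
          _ = (2 ^ 12) ^ (4 * (d₁ * L)) := by rw [pow_mul]
          _ ≤ y ^ (4 * (d₁ * L)) := pow_le_pow_left₀ (by positivity) hy12 _
      calc 576 * r * d₂ * y ≤ y ^ (4 * (d₁ * L)) * y := mul_le_mul_of_nonneg_right h4 hy0.le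
        _ = y ^ (4 * (d₁ * L) + 1) := by rw [pow_succ]
        _ ≤ y ^ (5 * (d₁ * L)) := pow_le_pow_right₀ hy1 (by omega)
    calc (((NN r n₁).choose s : ℕ) : ℝ) * 2 ^ s ≤ (288 * r * d₂ * y) ^ s * 2 ^ s := by
          refine mul_le_mul_of_nonneg_right (h1.trans ?_) (by positivity)
          exact pow_le_pow_left₀ (by positivity) h2 s
      _ = (576 * r * d₂ * y) ^ s := by rw [← mul_pow]; congr 1; ring
      _ ≤ (y ^ (5 * (d₁ * L))) ^ s := pow_le_pow_left₀ (by positivity) h3 s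
      _ = y ^ (5 * (d₁ * L) * s) := by rw [← pow_mul]
  -- together
  have e4 : (2 : ℝ) ^ 3 ≤ y := le_trans (by norm_num) hy12
  have hexp : 2 * L * ρ + 5 * (d₁ * L) * s + 1 ≤ h * s := by
    have h1 : 2 * L * ρ ≤ 2 * L * (2 * d₁ * s) := Nat.mul_le_mul_left _ hρs
    have h2 : 2 * L * (2 * d₁ * s) = 4 * (d₁ * L * s) := by ring
    have h3 : 5 * (d₁ * L) * s = 5 * (d₁ * L * s) := by ring
    have h4 : h * s = 512 * (d₁ * L * s) := by rw [hh]; ring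
    have h5 : 1 ≤ d₁ * L * s := Nat.mul_pos hdL hs
    omega
  calc (((dd r L d₁).choose h : ℕ) * ((ρ : ℝ) / NN r n₂) ^ h) ^ s *
      (((NN r n₂).choose ρ : ℕ) * ((NN r n₁).choose s : ℕ)) * 2 ^ (ρ + s + 3)
      = (((dd r L d₁).choose h : ℕ) * ((ρ : ℝ) / NN r n₂) ^ h) ^ s *
        ((((NN r n₂).choose ρ : ℕ) * 2 ^ ρ) * (((NN r n₁).choose s : ℕ) * 2 ^ s) * 2 ^ 3) := by
        rw [pow_add, pow_add]; ring
    _ ≤ ((y⁻¹) ^ h) ^ s * (y ^ (2 * L * ρ) * y ^ (5 * (d₁ * L) * s) * y) := by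
        apply mul_le_mul (pow_le_pow_left₀ (by positivity) e1 s) _ (by positivity) (by positivity)
        apply mul_le_mul (mul_le_mul e2 e3 (by positivity) (by positivity)) e4 (by positivity) (by positivity)
    _ = (y⁻¹) ^ (h * s) * y ^ (2 * L * ρ + 5 * (d₁ * L) * s + 1) := by
        rw [← pow_mul, pow_succ, pow_add]
    _ ≤ (y⁻¹) ^ (h * s) * y ^ (h * s) :=
        mul_le_mul_of_nonneg_left (pow_le_pow_right₀ hy1 hexp) (by positivity)
    _ = 1 := by rw [← mul_pow, inv_mul_cancel₀ hy0.ne', one_pow]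

theorem main : S_H2A := by
  intro r L n₁ n₂ d₁ d₂ hp hd
  classical
  have hr := hp.hr
  have hN₂ : 0 < NN r n₂ := by
    unfold NN
    exact Nat.mul_pos (Nat.mul_pos (by norm_num) (by omega)) hp.hn₂
  have hdL : 1 ≤ d₁ * L := Nat.mul_pos hp.hd₁ hp.hL
  have : Nonempty (Fin (NN r n₂)) := ⟨⟨0, hN₂⟩⟩
  have : Nonempty (Host r L n₁ n₂ d₁) := ⟨fun _ _ => ⟨0, hN₂⟩⟩
  refine union_pairs (N₁ := NN r n₁) (N₂ := NN r n₂) _ (fun R S g => R.card ≤ 8 * n₂ ∧ R.card ≤ 2 * d₁ * S.card ∧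
    ∀ a ∈ S, 512 * (d₁ * L) ≤ (nb g a ∩ R).card) ?_ ?_
  · intro g hg
    have hg' : ¬ G2A r L n₁ n₂ d₁ g := hg
    unfold G2A at hg'
    push Not at hg'
    obtain ⟨R, S, hR, hS, hlt⟩ := hg'
    have hSn : S.Nonempty := by
      rw [← card_pos]
      by_contra h0
      rw [Nat.eq_zero_of_not_pos h0, mul_zero] at hlt
      omega
    have hS' : ∀ a ∈ S, 512 * (d₁ * L) ≤ (nb g a ∩ R).card := by
      intro a ha
      have := hS a ha
      unfold t1 at this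
      omega
    refine ⟨R, S, ?_, hSn, hR, hlt.le, hS'⟩
    obtain ⟨a, ha⟩ := hSn
    have h1 := hS' a ha
    have h2 : (nb g a ∩ R).Nonempty := card_pos.1 (by omega)
    exact h2.mono inter_subset_right
  · intro R S hR hS
    by_cases hc : R.card ≤ 8 * n₂ ∧ R.card ≤ 2 * d₁ * S.card
    · have h1 := row_count (d := dd r L d₁) hN₂ R (512 * (d₁ * L))
      have h2 := rows_count (N₁ := NN r n₁) S _ h1
      have h3 : ({g : Host r L n₁ n₂ d₁ | R.card ≤ 8 * n₂ ∧ R.card ≤ 2 * d₁ * S.card ∧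
          ∀ a ∈ S, 512 * (d₁ * L) ≤ (nb g a ∩ R).card}.ncard : ℝ) ≤
          (((dd r L d₁).choose (512 * (d₁ * L)) : ℕ) * ((R.card : ℝ) / NN r n₂) ^ (512 * (d₁ * L))) ^ S.card *
            Fintype.card (Host r L n₁ n₂ d₁) := by
        refine le_trans ?_ h2
        have h5 : {g : Host r L n₁ n₂ d₁ | R.card ≤ 8 * n₂ ∧ R.card ≤ 2 * d₁ * S.card ∧
            ∀ a ∈ S, 512 * (d₁ * L) ≤ (nb g a ∩ R).card} ⊆
            {g : Fin (NN r n₁) → Fin (dd r L d₁) → Fin (NN r n₂) | ∀ a ∈ S, g a ∈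
              (univ : Finset (Fin (dd r L d₁) → Fin (NN r n₂))).filter
                (fun f => 512 * (d₁ * L) ≤ (univ.image f ∩ R).card)} := by
          intro g hg a ha
          rw [mem_filter]
          exact ⟨mem_univ _, hg.2.2 a ha⟩
        exact_mod_cast Set.ncard_le_ncard h5 (Set.toFinite _)
      have h4 := numer hp hd (card_pos.2 hR) (card_pos.2 hS) hc.1 hc.2
      have hH : (0 : ℝ) ≤ Fintype.card (Host r L n₁ n₂ d₁) := Nat.cast_nonneg _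
      calc _ ≤ (((dd r L d₁).choose (512 * (d₁ * L)) : ℕ) * ((R.card : ℝ) / NN r n₂) ^ (512 * (d₁ * L))) ^ S.card *
            Fintype.card (Host r L n₁ n₂ d₁) *
            (((NN r n₂).choose R.card : ℕ) * ((NN r n₁).choose S.card : ℕ)) * 2 ^ (R.card + S.card + 3) := by
            gcongr
        _ = ((((dd r L d₁).choose (512 * (d₁ * L)) : ℕ) * ((R.card : ℝ) / NN r n₂) ^ (512 * (d₁ * L))) ^ S.card *
            (((NN r n₂).choose R.card : ℕ) * ((NN r n₁).choose S.card : ℕ)) * 2 ^ (R.card + S.card + 3)) *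
            Fintype.card (Host r L n₁ n₂ d₁) := by ring
        _ ≤ 1 * Fintype.card (Host r L n₁ n₂ d₁) := mul_le_mul_of_nonneg_right h4 hH
        _ = _ := one_mul _
    · have h0 : {g : Host r L n₁ n₂ d₁ | R.card ≤ 8 * n₂ ∧ R.card ≤ 2 * d₁ * S.card ∧
          ∀ a ∈ S, 512 * (d₁ * L) ≤ (nb g a ∩ R).card} = ∅ := by
        ext g
        simp only [Set.mem_ofPred_eq, Set.mem_empty_iff_false, iff_false]
        exact fun hg => hc ⟨hg.1, hg.2.1⟩
      rw [h0, Set.ncard_empty]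
      simp

end Pool.Agent.H62.SR.T.H2A
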