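import Pool.Agent.H62.SR.Stubs

/-!
# Task SR_H2B: the union bound for (G2B) (helper94)
-/

namespace Pool.Agent.H62.SR.T.H2B

open Finset Pool.Agent.H62.SR

/-- sum over all subsets, weighted by the inverse number of subsets of the same size -/
lemma sum_inv_choose (α : Type) [Fintype α] [DecidableEq α] :
    ∑ R : Finset α, (1 : ℝ) / (((Fintype.card α).choose R.card : ℝ) * 2 ^ R.card) ≤ 2 := by
  have h := Finset.sum_powerset_apply_card
    (fun m => (1 : ℝ) / (((Fintype.card α).choose m : ℝ) * 2 ^ m)) (x := (univ : Finset α))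
  rw [Finset.powerset_univ] at h
  rw [h, Finset.card_univ]
  calc ∑ m ∈ range (Fintype.card α + 1),
        (Fintype.card α).choose m • ((1 : ℝ) / (((Fintype.card α).choose m : ℝ) * 2 ^ m))
      = ∑ m ∈ range (Fintype.card α + 1), ((1 : ℝ) / 2) ^ m := by
        apply Finset.sum_congr rfl
        intro m hm
        have hpos : (0 : ℝ) < ((Fintype.card α).choose m : ℝ) := by
          exact_mod_cast Nat.choose_pos (by simpa [Nat.lt_succ_iff] using hm)
        rw [nsmul_eq_mul, one_div_pow]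
        field_simp
    _ ≤ 2 := sum_geometric_two_le _

/-- the binomial estimate -/
lemma choose_le (n k : ℕ) (hk : 1 ≤ k) : ((n.choose k : ℕ) : ℝ) ≤ (3 * n / k) ^ k := by
  have hk0 : (0 : ℝ) < (k : ℝ) := by exact_mod_cast hk
  have h1 : ((n.choose k : ℕ) : ℝ) ≤ (n : ℝ) ^ k / (k.factorial : ℝ) :=
    Nat.choose_le_pow_div k n
  have h2 : (k : ℝ) ^ k / (k.factorial : ℝ) ≤ Real.exp k :=
    Real.pow_div_factorial_le_exp (k : ℝ) hk0.le k
  have h3 : Real.exp k ≤ 3 ^ k := by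
    have h4 : Real.exp (k : ℝ) = Real.exp 1 ^ k := by
      rw [← Real.exp_nat_mul]; simp
    rw [h4]
    apply pow_le_pow_left₀ (Real.exp_pos 1).le
    have := Real.exp_one_lt_d9
    linarith
  have hf : (0 : ℝ) < (k.factorial : ℝ) := by exact_mod_cast Nat.factorial_pos k
  have h5 : (k : ℝ) ^ k ≤ 3 ^ k * (k.factorial : ℝ) := by
    have := h2.trans h3
    rwa [div_le_iff₀ hf] at this
  refine h1.trans ?_
  rw [div_pow, mul_pow, div_le_div_iff₀ hf (by positivity)]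
  calc (n : ℝ) ^ k * (k : ℝ) ^ k ≤ (n : ℝ) ^ k * (3 ^ k * (k.factorial : ℝ)) := by
        apply mul_le_mul_of_nonneg_left h5 (by positivity)
    _ = 3 ^ k * (n : ℝ) ^ k * (k.factorial : ℝ) := by ring

/-- the rows which meet `R` in at least `h` points and meet `X` -/
def rows (d N h : ℕ) (R X : Finset (Fin N)) : Finset (Fin d → Fin N) :=
  univ.filter (fun f => h ≤ (univ.image f ∩ R).card ∧ (univ.image f ∩ X).Nonempty)

/-- the functions with one value in `X` and `I` mapped into `R` -/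
def cyl (d N : ℕ) (R X : Finset (Fin N)) (i : Fin d) (I : Finset (Fin d)) :
    Finset (Fin d → Fin N) :=
  Fintype.piFinset (fun j => if j = i then X else if j ∈ I then R else univ)

lemma card_cyl (d N : ℕ) (R X : Finset (Fin N)) (i : Fin d) (I : Finset (Fin d)) (hi : i ∉ I) :
    (cyl d N R X i I).card = X.card * (R.card ^ I.card * N ^ (d - 1 - I.card)) := by
  unfold cyl
  rw [Fintype.card_piFinset]
  rw [← Finset.mul_prod_erase univ _ (mem_univ i)]
  simp only [if_true]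
  congr 1
  have h1 : ∏ j ∈ univ.erase i, (if j = i then X else if j ∈ I then R else univ).card =
      ∏ j ∈ univ.erase i, (if j ∈ I then R.card else N) := by
    apply Finset.prod_congr rfl
    intro j hj
    have : j ≠ i := (Finset.mem_erase.1 hj).1
    rw [if_neg this]
    split_ifs <;> simp
  rw [h1]
  have hsub : I ⊆ univ.erase i := by
    intro j hj
    rw [Finset.mem_erase]
    exact ⟨fun h => hi (h ▸ hj), mem_univ _⟩
  rw [← Finset.prod_sdiff hsub]
  have h2 : ∏ j ∈ (univ.erase i) \ I, (if j ∈ I then R.card else N) = N ^ (d - 1 - I.card) := by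
    rw [Finset.prod_congr rfl (g := fun _ => N)]
    · rw [Finset.prod_const, Finset.card_sdiff_of_subset hsub, Finset.card_erase_of_mem (mem_univ i)]
      simp
    · intro j hj
      rw [if_neg (Finset.mem_sdiff.1 hj).2]
  have h3 : ∏ j ∈ I, (if j ∈ I then R.card else N) = R.card ^ I.card := by
    rw [Finset.prod_congr rfl (g := fun _ => R.card)]
    · rw [Finset.prod_const]
    · intro j hj
      rw [if_pos hj]
  rw [h2, h3, mul_comm]

lemma rows_subset (d N h : ℕ) (R X : Finset (Fin N)) :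
    rows d N h R X ⊆ univ.biUnion (fun i : Fin d =>
      ((univ.erase i).powersetCard (h - 1)).biUnion (fun I => cyl d N R X i I)) := by
  intro f hf
  unfold rows at hf
  rw [Finset.mem_filter] at hf
  obtain ⟨-, h1, h2⟩ := hf
  obtain ⟨b, hb⟩ := h2
  rw [Finset.mem_inter, Finset.mem_image] at hb
  obtain ⟨⟨i, -, hi⟩, hbX⟩ := hb
  set J : Finset (Fin d) := univ.filter (fun j => f j ∈ R) with hJ
  have hJc : h ≤ J.card := by
    refine h1.trans ?_
    have : univ.image f ∩ R ⊆ J.image f := by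
      intro c hc
      rw [Finset.mem_inter, Finset.mem_image] at hc
      obtain ⟨⟨j, -, hj⟩, hcR⟩ := hc
      rw [Finset.mem_image]
      refine ⟨j, ?_, hj⟩
      rw [hJ, Finset.mem_filter]
      exact ⟨mem_univ _, by rw [hj]; exact hcR⟩
    exact (Finset.card_le_card this).trans Finset.card_image_le
  have hJe : h - 1 ≤ (J.erase i).card := by
    have := Finset.pred_card_le_card_erase (s := J) (a := i)
    omega
  obtain ⟨I, hIs, hIc⟩ := Finset.exists_subset_card_eq hJe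
  rw [Finset.mem_biUnion]
  refine ⟨i, mem_univ _, ?_⟩
  rw [Finset.mem_biUnion]
  refine ⟨I, ?_, ?_⟩
  · rw [Finset.mem_powersetCard]
    refine ⟨fun j hj => ?_, hIc⟩
    have := Finset.mem_erase.1 (hIs hj)
    exact Finset.mem_erase.2 ⟨this.1, mem_univ _⟩
  · unfold cyl
    rw [Fintype.mem_piFinset]
    intro j
    by_cases hji : j = i
    · rw [if_pos hji, hji, hi]; exact hbX
    · rw [if_neg hji]
      by_cases hjI : j ∈ I
      · rw [if_pos hjI]
        have := Finset.mem_erase.1 (hIs hjI)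
        have := this.2
        rw [hJ, Finset.mem_filter] at this
        exact this.2
      · rw [if_neg hjI]; exact mem_univ _

lemma card_rows_le (d N h : ℕ) (R X : Finset (Fin N)) (hh : 1 ≤ h) :
    (rows d N h R X).card ≤ d * (d.choose (h - 1) * (X.card * (R.card ^ (h - 1) * N ^ (d - h)))) := by
  refine (Finset.card_le_card (rows_subset d N h R X)).trans ?_
  refine Finset.card_biUnion_le.trans ?_
  calc ∑ i : Fin d, (((univ.erase i).powersetCard (h - 1)).biUnion (fun I => cyl d N R X i I)).card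
      ≤ ∑ i : Fin d, (d.choose (h - 1) * (X.card * (R.card ^ (h - 1) * N ^ (d - h)))) := by
        apply Finset.sum_le_sum
        intro i _
        refine Finset.card_biUnion_le.trans ?_
        calc ∑ I ∈ (univ.erase i).powersetCard (h - 1), (cyl d N R X i I).card
            = ∑ I ∈ (univ.erase i).powersetCard (h - 1),
                (X.card * (R.card ^ (h - 1) * N ^ (d - h))) := by
              apply Finset.sum_congr rfl
              intro I hI
              rw [Finset.mem_powersetCard] at hI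
              rw [card_cyl d N R X i I (fun hi => by
                have := hI.1 hi
                exact (Finset.mem_erase.1 this).1 rfl), hI.2]
              congr 3
              omega
          _ = (d - 1).choose (h - 1) * (X.card * (R.card ^ (h - 1) * N ^ (d - h))) := by
              rw [Finset.sum_const, Finset.card_powersetCard,
                Finset.card_erase_of_mem (mem_univ i)]
              simp
          _ ≤ d.choose (h - 1) * (X.card * (R.card ^ (h - 1) * N ^ (d - h))) := by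
              apply Nat.mul_le_mul_right
              exact Nat.choose_le_choose _ (Nat.sub_le _ _)
    _ = _ := by
        rw [Finset.sum_const]
        simp

/-- the event of the triple `(R, X, S)` -/
def ev (N₁ d N h : ℕ) (R X : Finset (Fin N)) (S : Finset (Fin N₁)) :
    Finset (Fin N₁ → Fin d → Fin N) :=
  Fintype.piFinset (fun a => if a ∈ S then rows d N h R X else univ)

lemma card_ev (N₁ d N h : ℕ) (R X : Finset (Fin N)) (S : Finset (Fin N₁)) (hN : 1 ≤ N) :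
    ((ev N₁ d N h R X S).card : ℝ) =
      (((rows d N h R X).card : ℝ) / (N : ℝ) ^ d) ^ S.card *
        (Fintype.card (Fin N₁ → Fin d → Fin N) : ℝ) := by
  have hN0 : (0 : ℝ) < (N : ℝ) := by exact_mod_cast hN
  unfold ev
  rw [Fintype.card_piFinset]
  have h1 : ∏ a : Fin N₁, (if a ∈ S then rows d N h R X else univ).card =
      (rows d N h R X).card ^ S.card * (N ^ d) ^ (N₁ - S.card) := by
    rw [← Finset.prod_sdiff (Finset.subset_univ S)]
    have h2 : ∏ a ∈ univ \ S, (if a ∈ S then rows d N h R X else univ).card =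
        (N ^ d) ^ (N₁ - S.card) := by
      rw [Finset.prod_congr rfl (g := fun _ => N ^ d)]
      · rw [Finset.prod_const, Finset.card_sdiff_of_subset (Finset.subset_univ S)]
        simp
      · intro a ha
        rw [if_neg (Finset.mem_sdiff.1 ha).2]
        simp
    have h3 : ∏ a ∈ S, (if a ∈ S then rows d N h R X else univ).card =
        (rows d N h R X).card ^ S.card := by
      rw [Finset.prod_congr rfl (g := fun _ => (rows d N h R X).card)]
      · rw [Finset.prod_const]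
      · intro a ha
        rw [if_pos ha]
    rw [h2, h3, mul_comm]
  rw [h1]
  have hcard : (Fintype.card (Fin N₁ → Fin d → Fin N)) = (N ^ d) ^ N₁ := by
    simp [Fintype.card_pi]
  rw [hcard]
  push_cast
  have hS : S.card ≤ N₁ := by simpa using Finset.card_le_univ S
  have h4 : ((N : ℝ) ^ d) ^ N₁ = ((N : ℝ) ^ d) ^ S.card * ((N : ℝ) ^ d) ^ (N₁ - S.card) := by
    rw [← pow_add]; congr 1; omega
  rw [h4, div_pow]
  field_simp

/-- the numerical estimate: `y = 2^20 n₂ / (48 ρ)` -/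
lemma num (r L n₁ n₂ d₁ d₂ : ℕ) (P : Par r L n₁ n₂ d₁ d₂) (hB : 2 ^ (30 * (d₁ * L)) < d₂)
    (ρ x s : ℕ) (hρ : 1 ≤ ρ) (hx : 1 ≤ x) (hs : 1 ≤ s) (hρ8 : ρ ≤ 8 * n₂)
    (hρs : ρ ≤ 64 * d₁ * s) (hxs : d₂ * x ≤ 2 * s) :
    (((NN r n₂).choose ρ : ℝ) * 2 ^ ρ) * (((NN r n₂).choose x : ℝ) * 2 ^ x) *
      (((NN r n₁).choose s : ℝ) * 2 ^ s) *
      (((dd r L d₁ : ℕ) : ℝ) * ((((dd r L d₁).choose (512 * (d₁ * L) - 1) : ℕ) : ℝ) *
        (((x : ℝ) / (NN r n₂ : ℝ)) * ((ρ : ℝ) / (NN r n₂ : ℝ)) ^ (512 * (d₁ * L) - 1)))) ^ s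
      ≤ 1 / 2048 := by
  have hr2 := P.hr
  have hL := P.hL
  have hn₂ := P.hn₂
  have hd₁ := P.hd₁
  -- real versions
  have rr : (1 : ℝ) ≤ (r : ℝ) := by exact_mod_cast (by omega : 1 ≤ r)
  have rL : (1 : ℝ) ≤ (L : ℝ) := by exact_mod_cast hL
  have rn : (1 : ℝ) ≤ (n₂ : ℝ) := by exact_mod_cast hn₂
  have rn1 : (1 : ℝ) ≤ (n₁ : ℝ) := by exact_mod_cast hn₂.trans P.hn
  have rd1 : (1 : ℝ) ≤ (d₁ : ℝ) := by exact_mod_cast hd₁
  have rρ : (1 : ℝ) ≤ (ρ : ℝ) := by exact_mod_cast hρ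
  have rx : (1 : ℝ) ≤ (x : ℝ) := by exact_mod_cast hx
  have rs : (1 : ℝ) ≤ (s : ℝ) := by exact_mod_cast hs
  have rρ8 : (ρ : ℝ) ≤ 8 * (n₂ : ℝ) := by exact_mod_cast hρ8
  have rρs : (ρ : ℝ) ≤ 64 * (d₁ : ℝ) * (s : ℝ) := by exact_mod_cast hρs
  have rxs : (d₂ : ℝ) * (x : ℝ) ≤ 2 * (s : ℝ) := by exact_mod_cast hxs
  have rrL : (r : ℝ) ≤ 2 ^ L := by exact_mod_cast P.hrL
  have r12 : (n₁ : ℝ) * d₁ ≤ 2 * ((n₂ : ℝ) * d₂) := by exact_mod_cast P.h12
  have hN2 : ((NN r n₂ : ℕ) : ℝ) = 2 ^ 20 * r * n₂ := by unfold NN; push_cast; ring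
  have hN1 : ((NN r n₁ : ℕ) : ℝ) = 2 ^ 20 * r * n₁ := by unfold NN; push_cast; ring
  have hdd : ((dd r L d₁ : ℕ) : ℝ) = 4096 * r * (d₁ * L) := by unfold dd t1; push_cast; ring
  obtain ⟨y, hy⟩ : ∃ y : ℝ, y = 2 ^ 20 * n₂ / (48 * ρ) := ⟨_, rfl⟩
  have ypos : 0 < y := by rw [hy]; positivity
  have y2 : 2048 ≤ y := by
    rw [hy, le_div_iff₀ (by positivity)]
    nlinarith
  have y1 : 1 ≤ y := by linarith
  have hyρ : 48 * (y * ρ) = 2 ^ 20 * n₂ := by
    rw [hy]; field_simp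
  have h2y : (2 : ℝ) ^ L ≤ y ^ L := pow_le_pow_left₀ (by norm_num) (by linarith) L
  have hry : (r : ℝ) ≤ y ^ L := rrL.trans h2y
  have hLy : (L : ℝ) ≤ y ^ L := by
    have : (L : ℝ) ≤ 2 ^ L := by exact_mod_cast (Nat.lt_two_pow_self).le
    exact this.trans h2y
  -- (1) the number of `R`
  have e1 : (((NN r n₂).choose ρ : ℝ) * 2 ^ ρ) ≤ y ^ (3 * L * ρ) := by
    have a1 := choose_le (NN r n₂) ρ hρ
    have a2 : (3 * ((NN r n₂ : ℕ) : ℝ) / ρ) * 2 ≤ y ^ (3 * L) := by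
      have a3 : (3 * ((NN r n₂ : ℕ) : ℝ) / ρ) * 2 = 288 * r * y := by
        rw [hN2, hy]; field_simp; ring
      rw [a3]
      calc 288 * (r : ℝ) * y ≤ y * y ^ L * y := by
            have : (288 : ℝ) * r ≤ y * y ^ L := mul_le_mul (by linarith) hry (by linarith) ypos.le
            exact mul_le_mul_of_nonneg_right this ypos.le
        _ = y ^ (L + 2) := by ring
        _ ≤ y ^ (3 * L) := pow_le_pow_right₀ y1 (by omega)
    calc (((NN r n₂).choose ρ : ℝ) * 2 ^ ρ) ≤ (3 * ((NN r n₂ : ℕ) : ℝ) / ρ) ^ ρ * 2 ^ ρ :=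
          mul_le_mul_of_nonneg_right a1 (by positivity)
      _ = ((3 * ((NN r n₂ : ℕ) : ℝ) / ρ) * 2) ^ ρ := by rw [mul_pow]
      _ ≤ (y ^ (3 * L)) ^ ρ := pow_le_pow_left₀ (by positivity) a2 ρ
      _ = y ^ (3 * L * ρ) := (pow_mul y (3 * L) ρ).symm
  -- (2) the number of `X`
  have hd2big : (18432 * (r : ℝ) * d₁ * y) ^ 2 ≤ y ^ d₂ := by
    have b1 : (d₁ : ℝ) ≤ y ^ d₁ := by
      have : (d₁ : ℝ) ≤ 2 ^ d₁ := by exact_mod_cast (Nat.lt_two_pow_self).le
      exact this.trans (pow_le_pow_left₀ (by norm_num) (by linarith) d₁)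
    have b2 : (18432 * (r : ℝ) * d₁ * y) ≤ y ^ (L + d₁ + 3) := by
      calc (18432 * (r : ℝ) * d₁ * y) ≤ y ^ 2 * y ^ L * y ^ d₁ * y := by
            have c1 : (18432 : ℝ) ≤ y ^ 2 := by nlinarith
            have c2 : (18432 : ℝ) * r ≤ y ^ 2 * y ^ L := mul_le_mul c1 hry (by linarith) (by positivity)
            have c3 : (18432 : ℝ) * r * d₁ ≤ y ^ 2 * y ^ L * y ^ d₁ :=
              mul_le_mul c2 b1 (by linarith) (by positivity)
            exact mul_le_mul_of_nonneg_right c3 ypos.le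
        _ = y ^ (L + d₁ + 3) := by ring
    calc (18432 * (r : ℝ) * d₁ * y) ^ 2 ≤ (y ^ (L + d₁ + 3)) ^ 2 :=
          pow_le_pow_left₀ (by positivity) b2 2
      _ = y ^ ((L + d₁ + 3) * 2) := (pow_mul y _ 2).symm
      _ ≤ y ^ d₂ := by
          apply pow_le_pow_right₀ y1
          have c1 : 30 * (d₁ * L) < d₂ := (Nat.lt_two_pow_self).trans hB
          have c2 : L ≤ d₁ * L := by nlinarith
          have c3 : d₁ ≤ d₁ * L := by nlinarith
          omega
  have e2 : (((NN r n₂).choose x : ℝ) * 2 ^ x) ≤ y ^ (2 * s) := by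
    have a1 := choose_le (NN r n₂) x hx
    have a2 : (3 * ((NN r n₂ : ℕ) : ℝ) / x) * 2 ≤ (18432 * (r : ℝ) * d₁ * y) * ((s : ℝ) / x) := by
      rw [hN2]
      have : (3 * (2 ^ 20 * (r : ℝ) * n₂) / x) * 2 = (288 * r * y * ρ) / x := by
        have : (2 ^ 20 : ℝ) * r * n₂ = r * (48 * (y * ρ)) := by rw [hyρ]; ring
        rw [this]; ring
      rw [this, ← mul_div_assoc]
      have hx0 : (0 : ℝ) ≤ (x : ℝ) := by linarith
      apply div_le_div_of_nonneg_right _ hx0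
      have : 288 * (r : ℝ) * y * ρ ≤ 288 * (r : ℝ) * y * (64 * (d₁ : ℝ) * (s : ℝ)) :=
        mul_le_mul_of_nonneg_left rρs (by positivity)
      linarith
    have a3 : ((18432 * (r : ℝ) * d₁ * y)) ^ x ≤ y ^ s := by
      rw [← pow_le_pow_iff_left₀ (by positivity) (by positivity) (two_ne_zero)]
      calc (((18432 * (r : ℝ) * d₁ * y)) ^ x) ^ 2 = (((18432 * (r : ℝ) * d₁ * y)) ^ 2) ^ x :=
            pow_right_comm _ x 2
        _ ≤ (y ^ d₂) ^ x := pow_le_pow_left₀ (by positivity) hd2big x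
        _ = y ^ (d₂ * x) := (pow_mul y d₂ x).symm
        _ ≤ y ^ (2 * s) := pow_le_pow_right₀ y1 hxs
        _ = (y ^ s) ^ 2 := by rw [← pow_mul, mul_comm]
    have a4 : ((s : ℝ) / x) ^ x ≤ y ^ s := by
      have c1 : (s : ℝ) / x ≤ Real.exp ((s : ℝ) / x) := by
        have := Real.add_one_le_exp ((s : ℝ) / x)
        linarith
      calc ((s : ℝ) / x) ^ x ≤ (Real.exp ((s : ℝ) / x)) ^ x :=
            pow_le_pow_left₀ (by positivity) c1 x
        _ = Real.exp s := by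
            rw [← Real.exp_nat_mul]; congr 1; field_simp
        _ = Real.exp 1 ^ s := by rw [← Real.exp_nat_mul]; simp
        _ ≤ y ^ s := by
            apply pow_le_pow_left₀ (Real.exp_pos 1).le
            have := Real.exp_one_lt_d9
            linarith
    calc (((NN r n₂).choose x : ℝ) * 2 ^ x) ≤ (3 * ((NN r n₂ : ℕ) : ℝ) / x) ^ x * 2 ^ x :=
          mul_le_mul_of_nonneg_right a1 (by positivity)
      _ = ((3 * ((NN r n₂ : ℕ) : ℝ) / x) * 2) ^ x := by rw [mul_pow]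
      _ ≤ ((18432 * (r : ℝ) * d₁ * y) * ((s : ℝ) / x)) ^ x := pow_le_pow_left₀ (by positivity) a2 x
      _ = (18432 * (r : ℝ) * d₁ * y) ^ x * ((s : ℝ) / x) ^ x := by rw [mul_pow]
      _ ≤ y ^ s * y ^ s := mul_le_mul a3 a4 (by positivity) (by positivity)
      _ = y ^ (2 * s) := by rw [← pow_add]; congr 1; omega
  -- (3) the number of `S` and the probability
  set m : ℕ := 512 * (d₁ * L) - 1 with hm
  have hdL : 1 ≤ d₁ * L := Nat.one_le_iff_ne_zero.2 (by positivity)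
  have hm1 : 1 ≤ m := by omega
  have rdL : (1 : ℝ) ≤ (d₁ : ℝ) * L := by exact_mod_cast hdL
  have rm : (m : ℝ) = 512 * ((d₁ : ℝ) * L) - 1 := by
    rw [hm, Nat.cast_sub (by omega)]; push_cast; ring
  have f1 : (((dd r L d₁).choose m : ℕ) : ℝ) * ((ρ : ℝ) / (NN r n₂ : ℝ)) ^ m * y ^ m ≤ 1 := by
    have a1 := choose_le (dd r L d₁) m hm1
    have a2 : (3 * ((dd r L d₁ : ℕ) : ℝ) / m) * ((ρ : ℝ) / (NN r n₂ : ℝ)) * y ≤ 1 := by
      have hm0 : (0 : ℝ) < (m : ℝ) := by exact_mod_cast hm1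
      have : (3 * ((dd r L d₁ : ℕ) : ℝ) / m) * ((ρ : ℝ) / (NN r n₂ : ℝ)) * y =
          256 * ((d₁ : ℝ) * L) / m := by
        rw [hdd, hN2, hy]; field_simp; ring
      rw [this, div_le_one hm0, rm]
      linarith
    calc (((dd r L d₁).choose m : ℕ) : ℝ) * ((ρ : ℝ) / (NN r n₂ : ℝ)) ^ m * y ^ m
        ≤ (3 * ((dd r L d₁ : ℕ) : ℝ) / m) ^ m * ((ρ : ℝ) / (NN r n₂ : ℝ)) ^ m * y ^ m := by
          apply mul_le_mul_of_nonneg_right _ (by positivity)
          exact mul_le_mul_of_nonneg_right a1 (by positivity)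
      _ = ((3 * ((dd r L d₁ : ℕ) : ℝ) / m) * ((ρ : ℝ) / (NN r n₂ : ℝ)) * y) ^ m := by
          rw [mul_pow, mul_pow]
      _ ≤ 1 := pow_le_one₀ (by positivity) a2
  have f2 : (3 * ((NN r n₁ : ℕ) : ℝ) / s) * 2 * (((dd r L d₁ : ℕ) : ℝ) *
      ((x : ℝ) / (NN r n₂ : ℝ))) ≤ y ^ (4 * L) := by
    have a0 : (3 * ((NN r n₁ : ℕ) : ℝ) / s) * 2 * (((dd r L d₁ : ℕ) : ℝ) *
      ((x : ℝ) / (NN r n₂ : ℝ))) = 24576 * r * L * (((n₁ : ℝ) * d₁ * x) / (n₂ * s)) := by
      rw [hN1, hN2, hdd]; field_simp; ring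
    have a1 : ((n₁ : ℝ) * d₁ * x) / (n₂ * s) ≤ 4 := by
      rw [div_le_iff₀ (by positivity)]
      calc (n₁ : ℝ) * d₁ * x ≤ 2 * ((n₂ : ℝ) * d₂) * x :=
            mul_le_mul_of_nonneg_right r12 (by positivity)
        _ = 2 * (n₂ : ℝ) * (d₂ * x) := by ring
        _ ≤ 2 * (n₂ : ℝ) * (2 * s) := mul_le_mul_of_nonneg_left rxs (by positivity)
        _ = 4 * (n₂ * s) := by ring
    rw [a0]
    calc 24576 * (r : ℝ) * L * (((n₁ : ℝ) * d₁ * x) / (n₂ * s)) ≤ 24576 * (r : ℝ) * L * 4 :=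
          mul_le_mul_of_nonneg_left a1 (by positivity)
      _ = 98304 * r * L := by ring
      _ ≤ y ^ 2 * y ^ L * y ^ L := by
          have c1 : (98304 : ℝ) ≤ y ^ 2 := by nlinarith
          have c2 : (98304 : ℝ) * r ≤ y ^ 2 * y ^ L := mul_le_mul c1 hry (by linarith) (by positivity)
          exact mul_le_mul c2 hLy (by linarith) (by positivity)
      _ = y ^ (2 + L + L) := by ring
      _ ≤ y ^ (4 * L) := pow_le_pow_right₀ y1 (by omega)
  have e3 : (((NN r n₁).choose s : ℝ) * 2 ^ s) *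
      (((dd r L d₁ : ℕ) : ℝ) * ((((dd r L d₁).choose m : ℕ) : ℝ) *
        (((x : ℝ) / (NN r n₂ : ℝ)) * ((ρ : ℝ) / (NN r n₂ : ℝ)) ^ m))) ^ s *
      y ^ (m * s) ≤ y ^ (4 * L * s) := by
    have a1 := choose_le (NN r n₁) s hs
    calc (((NN r n₁).choose s : ℝ) * 2 ^ s) *
      (((dd r L d₁ : ℕ) : ℝ) * ((((dd r L d₁).choose m : ℕ) : ℝ) *
        (((x : ℝ) / (NN r n₂ : ℝ)) * ((ρ : ℝ) / (NN r n₂ : ℝ)) ^ m))) ^ s *
      y ^ (m * s) ≤ ((3 * ((NN r n₁ : ℕ) : ℝ) / s) ^ s * 2 ^ s) *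
      (((dd r L d₁ : ℕ) : ℝ) * ((((dd r L d₁).choose m : ℕ) : ℝ) *
        (((x : ℝ) / (NN r n₂ : ℝ)) * ((ρ : ℝ) / (NN r n₂ : ℝ)) ^ m))) ^ s *
      y ^ (m * s) := by
          apply mul_le_mul_of_nonneg_right _ (by positivity)
          apply mul_le_mul_of_nonneg_right _ (by positivity)
          exact mul_le_mul_of_nonneg_right a1 (by positivity)
      _ = (((3 * ((NN r n₁ : ℕ) : ℝ) / s) * 2 * (((dd r L d₁ : ℕ) : ℝ) *
            ((x : ℝ) / (NN r n₂ : ℝ)))) * ((((dd r L d₁).choose m : ℕ) : ℝ) *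
            ((ρ : ℝ) / (NN r n₂ : ℝ)) ^ m * y ^ m)) ^ s := by
          rw [pow_mul y m s, ← mul_pow, ← mul_pow, ← mul_pow]
          congr 1
          ring
      _ ≤ (y ^ (4 * L)) ^ s := by
          apply pow_le_pow_left₀ (by positivity)
          calc _ ≤ y ^ (4 * L) * 1 := mul_le_mul f2 f1 (by positivity) (by positivity)
            _ = y ^ (4 * L) := mul_one _
      _ = y ^ (4 * L * s) := (pow_mul y (4 * L) s).symm
  -- conclusion
  set PP : ℝ := (((dd r L d₁ : ℕ) : ℝ) * ((((dd r L d₁).choose m : ℕ) : ℝ) *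
        (((x : ℝ) / (NN r n₂ : ℝ)) * ((ρ : ℝ) / (NN r n₂ : ℝ)) ^ m))) ^ s with hPP
  have hPP0 : 0 ≤ PP := by rw [hPP]; positivity
  have key : (((NN r n₂).choose ρ : ℝ) * 2 ^ ρ) * (((NN r n₂).choose x : ℝ) * 2 ^ x) *
      (((NN r n₁).choose s : ℝ) * 2 ^ s) * PP * y ^ (m * s) ≤
      y ^ (3 * L * ρ + 2 * s + 4 * L * s) := by
    calc (((NN r n₂).choose ρ : ℝ) * 2 ^ ρ) * (((NN r n₂).choose x : ℝ) * 2 ^ x) *
      (((NN r n₁).choose s : ℝ) * 2 ^ s) * PP * y ^ (m * s)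
        = (((NN r n₂).choose ρ : ℝ) * 2 ^ ρ) * (((NN r n₂).choose x : ℝ) * 2 ^ x) *
      ((((NN r n₁).choose s : ℝ) * 2 ^ s) * PP * y ^ (m * s)) := by ring
      _ ≤ y ^ (3 * L * ρ) * y ^ (2 * s) * y ^ (4 * L * s) := by
          apply mul_le_mul _ e3 (by positivity) (by positivity)
          exact mul_le_mul e1 e2 (by positivity) (by positivity)
      _ = y ^ (3 * L * ρ + 2 * s + 4 * L * s) := by rw [← pow_add, ← pow_add]
  have hexp : 3 * L * ρ + 2 * s + 4 * L * s + 1 ≤ m * s := by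
    have c0 : 3 * L * ρ ≤ 3 * L * (64 * d₁ * s) := Nat.mul_le_mul_left _ hρs
    have c1 : 3 * L * (64 * d₁ * s) = 192 * (d₁ * L) * s := by ring
    have c2 : 2 * s + 4 * L * s + 1 ≤ 7 * (d₁ * L) * s := by
      have c3 : L * s ≤ d₁ * L * s := by
        apply Nat.mul_le_mul_right; nlinarith
      have c4 : s ≤ d₁ * L * s := by nlinarith
      nlinarith
    have c5 : 199 * (d₁ * L) * s ≤ m * s := by
      apply Nat.mul_le_mul_right
      omega
    nlinarith
  have hfin : y ^ (3 * L * ρ + 2 * s + 4 * L * s) * 2048 ≤ y ^ (m * s) := by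
    calc y ^ (3 * L * ρ + 2 * s + 4 * L * s) * 2048 ≤ y ^ (3 * L * ρ + 2 * s + 4 * L * s) * y :=
          mul_le_mul_of_nonneg_left y2 (by positivity)
      _ = y ^ (3 * L * ρ + 2 * s + 4 * L * s + 1) := by rw [pow_succ]
      _ ≤ y ^ (m * s) := pow_le_pow_right₀ y1 hexp
  have hyms : 0 < y ^ (m * s) := by positivity
  rw [le_div_iff₀ (by norm_num)]
  by_contra hcon
  push Not at hcon
  have := mul_lt_mul_of_pos_right hcon hyms
  nlinarith

/-- one event is rare -/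
lemma ev_le (r L n₁ n₂ d₁ d₂ : ℕ) (P : Par r L n₁ n₂ d₁ d₂) (hB : 2 ^ (30 * (d₁ * L)) < d₂)
    (R X : Finset (Fin (NN r n₂))) (S : Finset (Fin (NN r n₁)))
    (hρ : 1 ≤ R.card) (hx : 1 ≤ X.card) (hs : 1 ≤ S.card) (hρ8 : R.card ≤ 8 * n₂)
    (hρs : R.card ≤ 64 * d₁ * S.card) (hxs : d₂ * X.card ≤ 2 * S.card) :
    ((ev (NN r n₁) (dd r L d₁) (NN r n₂) (512 * (d₁ * L)) R X S).card : ℝ) ≤
      (1 / 2048 * (Fintype.card (Host r L n₁ n₂ d₁) : ℝ)) *
        ((1 / (((NN r n₂).choose R.card : ℝ) * 2 ^ R.card)) *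
         (1 / (((NN r n₂).choose X.card : ℝ) * 2 ^ X.card)) *
         (1 / (((NN r n₁).choose S.card : ℝ) * 2 ^ S.card))) := by
  have hr2 := P.hr
  have hL := P.hL
  have hn₂ := P.hn₂
  have hd₁ := P.hd₁
  have hN : 1 ≤ NN r n₂ := by
    unfold NN
    have : 0 < 2 ^ 20 * r * n₂ := by positivity
    omega
  have hdL : 1 ≤ d₁ * L := Nat.one_le_iff_ne_zero.2 (by positivity)
  rw [card_ev _ _ _ _ _ _ _ hN]
  have hH : (0 : ℝ) ≤ (Fintype.card (Host r L n₁ n₂ d₁) : ℝ) := by positivity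
  change _ * (Fintype.card (Host r L n₁ n₂ d₁) : ℝ) ≤ _
  generalize (Fintype.card (Host r L n₁ n₂ d₁) : ℝ) = H at *
  have hnum := num r L n₁ n₂ d₁ d₂ P hB R.card X.card S.card hρ hx hs hρ8 hρs hxs
  have hN0 : (0 : ℝ) < (NN r n₂ : ℝ) := by exact_mod_cast hN
  obtain ⟨N, hNe⟩ : ∃ N : ℕ, N = NN r n₂ := ⟨_, rfl⟩
  obtain ⟨d, hde⟩ : ∃ d : ℕ, d = dd r L d₁ := ⟨_, rfl⟩
  obtain ⟨h, hhe⟩ : ∃ h : ℕ, h = 512 * (d₁ * L) := ⟨_, rfl⟩
  have hh1 : 1 ≤ h := by omega
  have hhd : h ≤ d := by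
    rw [hhe, hde]; unfold dd t1
    have : 1 * (1024 * (d₁ * L)) ≤ 4 * r * (1024 * (d₁ * L)) := Nat.mul_le_mul_right _ (by omega)
    omega
  have hrow := card_rows_le d (NN r n₂) h R X hh1
  rw [← hhe, ← hde] at hnum ⊢
  have hq : ((rows d (NN r n₂) h R X).card : ℝ) / (NN r n₂ : ℝ) ^ d ≤
      (d : ℝ) * (((d.choose (h - 1) : ℕ) : ℝ) *
        (((X.card : ℝ) / (NN r n₂ : ℝ)) * ((R.card : ℝ) / (NN r n₂ : ℝ)) ^ (h - 1))) := by
    rw [div_le_iff₀ (by positivity)]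
    have hrow' : ((rows d (NN r n₂) h R X).card : ℝ) ≤ (d : ℝ) * (((d.choose (h - 1) : ℕ) : ℝ) *
        ((X.card : ℝ) * ((R.card : ℝ) ^ (h - 1) * (NN r n₂ : ℝ) ^ (d - h)))) := by
      exact_mod_cast hrow
    refine hrow'.trans (le_of_eq ?_)
    have hpow : (NN r n₂ : ℝ) ^ d = (NN r n₂ : ℝ) * ((NN r n₂ : ℝ) ^ (h - 1) *
        (NN r n₂ : ℝ) ^ (d - h)) := by
      rw [← pow_add, ← pow_succ']; congr 1; omega
    rw [hpow, div_pow]
    field_simp
  have hc1 : (0 : ℝ) < ((NN r n₂).choose R.card : ℝ) * 2 ^ R.card := by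
    have : 0 < (NN r n₂).choose R.card := Nat.choose_pos (by simpa using Finset.card_le_univ R)
    positivity
  have hc2 : (0 : ℝ) < ((NN r n₂).choose X.card : ℝ) * 2 ^ X.card := by
    have : 0 < (NN r n₂).choose X.card := Nat.choose_pos (by simpa using Finset.card_le_univ X)
    positivity
  have hc3 : (0 : ℝ) < ((NN r n₁).choose S.card : ℝ) * 2 ^ S.card := by
    have : 0 < (NN r n₁).choose S.card := Nat.choose_pos (by simpa using Finset.card_le_univ S)
    positivity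
  have hpw := pow_le_pow_left₀ (by positivity) hq S.card
  generalize (((rows d (NN r n₂) h R X).card : ℝ) / (NN r n₂ : ℝ) ^ d) ^ S.card = q at *
  generalize ((d : ℝ) * (((d.choose (h - 1) : ℕ) : ℝ) *
        (((X.card : ℝ) / (NN r n₂ : ℝ)) * ((R.card : ℝ) / (NN r n₂ : ℝ)) ^ (h - 1)))) ^ S.card = p at *
  generalize ((NN r n₂).choose R.card : ℝ) * 2 ^ R.card = c₁ at *
  generalize ((NN r n₂).choose X.card : ℝ) * 2 ^ X.card = c₂ at *
  generalize ((NN r n₁).choose S.card : ℝ) * 2 ^ S.card = c₃ at *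
  have hp : p ≤ 1 / 2048 * ((1 / c₁) * (1 / c₂) * (1 / c₃)) := by
    have : 1 / 2048 * ((1 / c₁) * (1 / c₂) * (1 / c₃)) = (1 / 2048) / (c₁ * c₂ * c₃) := by
      field_simp
    rw [this, le_div_iff₀ (by positivity)]
    linarith
  calc q * H ≤ p * H := mul_le_mul_of_nonneg_right hpw hH
    _ ≤ (1 / 2048 * ((1 / c₁) * (1 / c₂) * (1 / c₃))) * H := mul_le_mul_of_nonneg_right hp hH
    _ = _ := by ring

theorem main : S_H2B := by
  intro r L n₁ n₂ d₁ d₂ P hB
  have hr2 := P.hr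
  have hL := P.hL
  have hn₂ := P.hn₂
  have hd₁ := P.hd₁
  have hdL : 1 ≤ d₁ * L := Nat.one_le_iff_ne_zero.2 (by positivity)
  have hN : 1 ≤ NN r n₂ := by
    unfold NN
    have : 0 < 2 ^ 20 * r * n₂ := by positivity
    omega
  classical
  set cond : Finset (Fin (NN r n₂)) × Finset (Fin (NN r n₂)) × Finset (Fin (NN r n₁)) → Prop :=
    fun T => 1 ≤ T.1.card ∧ 1 ≤ T.2.1.card ∧ 1 ≤ T.2.2.card ∧ T.1.card ≤ 8 * n₂ ∧
      T.1.card ≤ 64 * d₁ * T.2.2.card ∧ d₂ * T.2.1.card ≤ 2 * T.2.2.card with hcond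
  set E : Finset (Fin (NN r n₂)) × Finset (Fin (NN r n₂)) × Finset (Fin (NN r n₁)) →
      Finset (Host r L n₁ n₂ d₁) := fun T =>
    ev (NN r n₁) (dd r L d₁) (NN r n₂) (512 * (d₁ * L)) T.1 T.2.1 T.2.2 with hE
  have hsub : {g : Host r L n₁ n₂ d₁ | ¬ G2B r L n₁ n₂ d₁ d₂ g} ⊆
      ((univ.filter cond).biUnion E : Finset (Host r L n₁ n₂ d₁)) := by
    intro g hg
    change ¬ G2B r L n₁ n₂ d₁ d₂ g at hg
    unfold G2B at hg
    push Not at hg
    obtain ⟨R, X, S, h1, h2, h3, h4, h5, h6, -⟩ := hg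
    rw [Finset.mem_coe, Finset.mem_biUnion]
    refine ⟨(R, X, S), ?_, ?_⟩
    · rw [Finset.mem_filter]
      refine ⟨mem_univ _, ?_⟩
      obtain ⟨a, ha⟩ := h2
      have ha3 := h3 a ha
      have ha4 := h4 a ha
      refine ⟨?_, ?_, Finset.card_pos.2 ⟨a, ha⟩, h1, h5, h6⟩
      · have : (nb g a ∩ R).card ≤ R.card := Finset.card_le_card Finset.inter_subset_right
        unfold t1 at ha3
        show 1 ≤ R.card
        omega
      · have : (nb g a ∩ X).card ≤ X.card := Finset.card_le_card Finset.inter_subset_right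
        have := Finset.card_pos.2 ha4
        show 1 ≤ X.card
        omega
    · rw [hE]
      show g ∈ ev (NN r n₁) (dd r L d₁) (NN r n₂) (512 * (d₁ * L)) R X S
      unfold ev
      rw [Fintype.mem_piFinset]
      intro a
      by_cases ha : a ∈ S
      · rw [if_pos ha]
        unfold rows
        rw [Finset.mem_filter]
        refine ⟨mem_univ _, ?_, h4 a ha⟩
        have := h3 a ha
        unfold t1 nb at this
        omega
      · rw [if_neg ha]; exact mem_univ _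
  have hcard1 : {g : Host r L n₁ n₂ d₁ | ¬ G2B r L n₁ n₂ d₁ d₂ g}.ncard ≤
      ∑ T ∈ univ.filter cond, (E T).card := by
    calc {g : Host r L n₁ n₂ d₁ | ¬ G2B r L n₁ n₂ d₁ d₂ g}.ncard
        ≤ (((univ.filter cond).biUnion E : Finset (Host r L n₁ n₂ d₁)) :
            Set (Host r L n₁ n₂ d₁)).ncard := Set.ncard_le_ncard hsub (Set.toFinite _)
      _ = ((univ.filter cond).biUnion E).card := Set.ncard_coe_finset _
      _ ≤ _ := Finset.card_biUnion_le
  obtain ⟨w₂, hw₂⟩ : ∃ w : Finset (Fin (NN r n₂)) → ℝ, w = fun R =>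
      1 / (((NN r n₂).choose R.card : ℝ) * 2 ^ R.card) := ⟨_, rfl⟩
  obtain ⟨w₁, hw₁⟩ : ∃ w : Finset (Fin (NN r n₁)) → ℝ, w = fun S =>
      1 / (((NN r n₁).choose S.card : ℝ) * 2 ^ S.card) := ⟨_, rfl⟩
  have hw₂0 : ∀ R, 0 ≤ w₂ R := by intro R; rw [hw₂]; positivity
  have hw₁0 : ∀ R, 0 ≤ w₁ R := by intro R; rw [hw₁]; positivity
  have hs₂ : ∑ R, w₂ R ≤ 2 := by
    have := sum_inv_choose (Fin (NN r n₂))
    rw [hw₂]
    simpa using this
  have hs₁ : ∑ R, w₁ R ≤ 2 := by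
    have := sum_inv_choose (Fin (NN r n₁))
    rw [hw₁]
    simpa using this
  have hH : (0 : ℝ) < (Fintype.card (Host r L n₁ n₂ d₁) : ℝ) := by
    have : Nonempty (Host r L n₁ n₂ d₁) := ⟨fun _ _ => ⟨0, hN⟩⟩
    exact_mod_cast Fintype.card_pos
  have hreal : (({g : Host r L n₁ n₂ d₁ | ¬ G2B r L n₁ n₂ d₁ d₂ g}.ncard : ℕ) : ℝ) ≤
      (1 / 2048 * (Fintype.card (Host r L n₁ n₂ d₁) : ℝ)) * 8 := by
    calc (({g : Host r L n₁ n₂ d₁ | ¬ G2B r L n₁ n₂ d₁ d₂ g}.ncard : ℕ) : ℝ)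
        ≤ ∑ T ∈ univ.filter cond, ((E T).card : ℝ) := by exact_mod_cast hcard1
      _ ≤ ∑ T ∈ univ.filter cond, (1 / 2048 * (Fintype.card (Host r L n₁ n₂ d₁) : ℝ)) *
            (w₂ T.1 * w₂ T.2.1 * w₁ T.2.2) := by
          apply Finset.sum_le_sum
          intro T hT
          rw [Finset.mem_filter] at hT
          obtain ⟨-, h1, h2, h3, h4, h5, h6⟩ := hT
          rw [hw₁, hw₂]
          exact ev_le r L n₁ n₂ d₁ d₂ P hB T.1 T.2.1 T.2.2 h1 h2 h3 h4 h5 h6
      _ ≤ ∑ T : Finset (Fin (NN r n₂)) × Finset (Fin (NN r n₂)) × Finset (Fin (NN r n₁)),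
            (1 / 2048 * (Fintype.card (Host r L n₁ n₂ d₁) : ℝ)) *
            (w₂ T.1 * w₂ T.2.1 * w₁ T.2.2) := by
          apply Finset.sum_le_sum_of_subset_of_nonneg (Finset.subset_univ _)
          intro T _ _
          have := hw₂0 T.1
          have := hw₂0 T.2.1
          have := hw₁0 T.2.2
          positivity
      _ = (1 / 2048 * (Fintype.card (Host r L n₁ n₂ d₁) : ℝ)) *
            ((∑ R, w₂ R) * ((∑ X, w₂ X) * (∑ S, w₁ S))) := by
          rw [← Finset.mul_sum]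
          congr 1
          calc ∑ T : Finset (Fin (NN r n₂)) × Finset (Fin (NN r n₂)) × Finset (Fin (NN r n₁)),
                (w₂ T.1 * w₂ T.2.1 * w₁ T.2.2) = ∑ R, ∑ X, ∑ S, w₂ R * w₂ X * w₁ S := by
                simp only [Fintype.sum_prod_type]
            _ = ∑ R, w₂ R * ((∑ X, w₂ X) * (∑ S, w₁ S)) := by
                apply Finset.sum_congr rfl
                intro R _
                rw [Finset.sum_mul_sum, Finset.mul_sum]
                apply Finset.sum_congr rfl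
                intro X _
                rw [Finset.mul_sum]
                apply Finset.sum_congr rfl
                intro S _
                ring
            _ = _ := by rw [← Finset.sum_mul]
      _ ≤ _ := by
          apply mul_le_mul_of_nonneg_left _ (by positivity)
          have a1 : 0 ≤ ∑ R, w₂ R := Finset.sum_nonneg (fun R _ => hw₂0 R)
          have a2 : 0 ≤ ∑ R, w₁ R := Finset.sum_nonneg (fun R _ => hw₁0 R)
          have a3 : (∑ X, w₂ X) * (∑ S, w₁ S) ≤ 2 * 2 := mul_le_mul hs₂ hs₁ a2 (by norm_num)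
          calc (∑ R, w₂ R) * ((∑ X, w₂ X) * (∑ S, w₁ S)) ≤ 2 * (2 * 2) :=
                mul_le_mul hs₂ a3 (by positivity) (by norm_num)
            _ = 8 := by norm_num
  have : (4 : ℝ) * (({g : Host r L n₁ n₂ d₁ | ¬ G2B r L n₁ n₂ d₁ d₂ g}.ncard : ℕ) : ℝ) <
      (Fintype.card (Host r L n₁ n₂ d₁) : ℝ) := by
    linarith
  exact_mod_cast this

end Pool.Agent.H62.SR.T.H2B
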