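import Pool.Agent.H62.SR.Stubs

/-!
Task H3: the union bound for (G3).
-/

set_option autoImplicit false

namespace Pool.Agent.H62.SR.T.H3

open Finset Pool.Agent.H62.SR

/-- a finite set contains `⌊|I| / 2⌋` disjoint pairs -/
theorem pairs {α : Type} [DecidableEq α] (I : Finset α) :
    ∃ Q : Finset (α × α), Q.card = I.card / 2 ∧ (∀ p ∈ Q, p.1 ∈ I ∧ p.2 ∈ I) ∧
      (Q.biUnion (fun p => {p.1, p.2})).card = 2 * Q.card := by
  induction I using Finset.strongInduction with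
  | H I ih =>
    by_cases h : I.card ≤ 1
    · refine ⟨∅, ?_, by simp, by simp⟩
      rw [Finset.card_empty]
      omega
    · push Not at h
      obtain ⟨i, hi, j, hj, hij⟩ := Finset.one_lt_card.1 h
      have hsub : {i, j} ⊆ I := by
        intro x hx
        simp only [mem_insert, mem_singleton] at hx
        rcases hx with rfl | rfl <;> assumption
      have hc2 : ({i, j} : Finset α).card = 2 := Finset.card_pair hij
      have hcard : (I \ {i, j}).card = I.card - 2 := by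
        rw [Finset.card_sdiff_of_subset hsub, hc2]
      obtain ⟨Q, hQ1, hQ2, hQ3⟩ := ih (I \ {i, j}) (by
        refine Finset.sdiff_ssubset hsub ⟨i, by simp⟩)
      have hni : ∀ p ∈ Q, p.1 ≠ i ∧ p.1 ≠ j ∧ p.2 ≠ i ∧ p.2 ≠ j := by
        intro p hp
        have := hQ2 p hp
        simp only [mem_sdiff, mem_insert, mem_singleton, not_or] at this
        exact ⟨this.1.2.1, this.1.2.2, this.2.2.1, this.2.2.2⟩
      have hnot : (i, j) ∉ Q := fun h => (hni _ h).1 rfl
      refine ⟨insert (i, j) Q, ?_, ?_, ?_⟩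
      · rw [card_insert_of_notMem hnot, hQ1, hcard]
        omega
      · intro p hp
        rcases mem_insert.1 hp with rfl | hp
        · exact ⟨hi, hj⟩
        · have := hQ2 p hp
          simp only [mem_sdiff] at this
          exact ⟨this.1.1, this.2.1⟩
      · rw [biUnion_insert, card_union_of_disjoint, hQ3, card_insert_of_notMem hnot, hc2]
        · ring
        · rw [Finset.disjoint_left]
          intro x hx hx'
          simp only [mem_insert, mem_singleton] at hx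
          simp only [mem_biUnion, mem_insert, mem_singleton] at hx'
          obtain ⟨p, hp, hp'⟩ := hx'
          obtain ⟨a1, a2, a3, a4⟩ := hni p hp
          rcases hx with rfl | rfl <;> rcases hp' with h | h
          · exact a1 h.symm
          · exact a3 h.symm
          · exact a2 h.symm
          · exact a4 h.symm

/-- the positions used by a set of pairs of positions in the same row -/
def FP {N d : ℕ} (P : Finset (Fin N × (Fin d × Fin d))) : Finset (Fin N × Fin d) :=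
  P.biUnion (fun x => {(x.1, x.2.1), (x.1, x.2.2)})

theorem FP_card_le {N d : ℕ} (P : Finset (Fin N × (Fin d × Fin d))) :
    (FP P).card ≤ 2 * P.card := by
  unfold FP
  refine (card_biUnion_le).trans ?_
  calc ∑ x ∈ P, ({(x.1, x.2.1), (x.1, x.2.2)} : Finset (Fin N × Fin d)).card
      ≤ ∑ x ∈ P, 2 := sum_le_sum fun x _ => card_le_two
    _ = 2 * P.card := by simp [mul_comm]

theorem FP_sub {N d : ℕ} (P P' : Finset (Fin N × (Fin d × Fin d))) (h : P' ⊆ P)
    (hP : (FP P).card = 2 * P.card) : (FP P').card = 2 * P'.card := by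
  have h1 : FP P = FP P' ∪ FP (P \ P') := by
    unfold FP
    rw [← union_biUnion, union_sdiff_of_subset h]
  have h2 := FP_card_le P'
  have h3 := FP_card_le (P \ P')
  have h4 := card_union_le (FP P') (FP (P \ P'))
  rw [← h1, hP] at h4
  have h5 := card_sdiff_add_card_eq_card h
  omega

/-- the pairs found in the rows of `g` -/
theorem extract {N d M : ℕ} (g : Fin N → Fin d → Fin M) (X : Finset (Fin M)) (u : ℕ)
    (hu : 4 * u ≤ 2 * ∑ a, ((nb g a ∩ X).card - 1) + 3) :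
    ∃ P : Finset (Fin N × (Fin d × Fin d)), P.card = u ∧ (FP P).card = 2 * P.card ∧
      ∀ q ∈ FP P, g q.1 q.2 ∈ X := by
  classical
  -- indices
  have hI : ∀ a, ∃ I : Finset (Fin d), I.card = (nb g a ∩ X).card ∧ ∀ i ∈ I, g a i ∈ X := by
    intro a
    have h1 : ∀ b ∈ nb g a ∩ X, ∃ i, g a i = b := by
      intro b hb
      have := (mem_inter.1 hb).1
      simpa [nb] using this
    choose f hf using h1
    refine ⟨(nb g a ∩ X).attach.image (fun b => f b.1 b.2), ?_, ?_⟩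
    · rw [card_image_of_injective, card_attach]
      intro b b' h
      apply Subtype.ext
      rw [← hf b.1 b.2, ← hf b'.1 b'.2]
      exact congrArg (g a) h
    · intro i hi
      obtain ⟨b, -, rfl⟩ := mem_image.1 hi
      rw [hf b.1 b.2]
      exact (mem_inter.1 b.2).2
  choose I hI1 hI2 using hI
  choose Q hQ1 hQ2 hQ3 using fun a => pairs (I a)
  set P : Finset (Fin N × (Fin d × Fin d)) :=
    univ.biUnion (fun a => (Q a).image (fun p => (a, p))) with hP
  have hmem : ∀ x, x ∈ P ↔ x.2 ∈ Q x.1 := by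
    intro x
    simp only [hP, mem_biUnion, mem_univ, true_and, mem_image]
    constructor
    · rintro ⟨a, p, hp, rfl⟩
      exact hp
    · intro h
      exact ⟨x.1, x.2, h, rfl⟩
  have hPc : P.card = ∑ a, (I a).card / 2 := by
    rw [hP, card_biUnion]
    · refine sum_congr rfl fun a _ => ?_
      rw [card_image_of_injective _ (fun p q h => (Prod.mk.inj h).2), hQ1]
    · intro a _ b _ hab
      simp only [Function.onFun]
      rw [Finset.disjoint_left]
      intro x hx hx'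
      obtain ⟨p, _, rfl⟩ := mem_image.1 hx
      obtain ⟨q, _, h⟩ := mem_image.1 hx'
      exact hab (Prod.mk.inj h).1.symm
  have hFP : FP P = univ.biUnion
      (fun a => ((Q a).biUnion (fun p => {p.1, p.2})).image (fun i => (a, i))) := by
    ext ⟨a, i⟩
    simp only [FP, mem_biUnion, mem_univ, true_and, mem_image, mem_insert, mem_singleton]
    constructor
    · rintro ⟨x, hx, h⟩
      have hx' := (hmem x).1 hx
      rcases h with h | h
      · exact ⟨x.1, x.2.1, ⟨x.2, hx', Or.inl rfl⟩, h.symm⟩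
      · exact ⟨x.1, x.2.2, ⟨x.2, hx', Or.inr rfl⟩, h.symm⟩
    · rintro ⟨b, j, ⟨p, hp, hj⟩, h⟩
      have hb := (Prod.mk.inj h).1
      have hi := (Prod.mk.inj h).2
      subst hb; subst hi
      refine ⟨(b, p), (hmem _).2 hp, ?_⟩
      rcases hj with rfl | rfl
      · exact Or.inl rfl
      · exact Or.inr rfl
  have hFc : (FP P).card = 2 * P.card := by
    rw [hFP, card_biUnion, hPc, mul_sum]
    · refine sum_congr rfl fun a _ => ?_
      rw [card_image_of_injective _ (fun p q h => (Prod.mk.inj h).2), hQ3, hQ1]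
    · intro a _ b _ hab
      simp only [Function.onFun]
      rw [Finset.disjoint_left]
      intro x hx hx'
      obtain ⟨p, _, rfl⟩ := mem_image.1 hx
      obtain ⟨q, _, h⟩ := mem_image.1 hx'
      exact hab (Prod.mk.inj h).1.symm
  have hu' : u ≤ P.card := by
    have h1 : ∑ a, ((nb g a ∩ X).card - 1) ≤ 2 * P.card := by
      rw [hPc, mul_sum]
      refine sum_le_sum fun a _ => ?_
      rw [hI1]
      omega
    omega
  obtain ⟨P', hP', hc⟩ := exists_subset_card_eq hu'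
  refine ⟨P', hc, FP_sub P P' hP' hFc, ?_⟩
  intro q hq
  have hq' : q ∈ FP P := by
    unfold FP at hq ⊢
    exact biUnion_subset_biUnion_of_subset_left _ hP' hq
  simp only [FP, mem_biUnion, mem_insert, mem_singleton] at hq'
  obtain ⟨x, hx, h⟩ := hq'
  have hx' := (hmem x).1 hx
  have h2 := hQ2 x.1 x.2 hx'
  rcases h with rfl | rfl
  · exact hI2 _ _ h2.1
  · exact hI2 _ _ h2.2

theorem numeric (hCH : S_CH) {r L n₁ n₂ d₁ d₂ : ℕ} (hp : Par r L n₁ n₂ d₁ d₂)
    (hbig : 2 ^ (30 * (d₁ * L)) < d₂) (m : ℕ) (hm : 2 ≤ m) (hm2 : 2 * d₁ * d₂ * m ≤ n₂) :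
    ((NN r n₂).choose m : ℝ) * (((NN r n₁ * (dd r L d₁ * dd r L d₁)).choose
      ((d₂ * m + 3) / 4) : ℕ) : ℝ) * ((m : ℝ) / NN r n₂) ^ (2 * ((d₂ * m + 3) / 4)) ≤
      (1 / 2) ^ (15 * m) := by
  have hr := hp.hr
  have hL := hp.hL
  have hrL := hp.hrL
  have hn₂ := hp.hn₂
  have hd₁ := hp.hd₁
  have h12 := hp.h12
  have hdL : 1 ≤ d₁ * L := Nat.mul_pos hd₁ hL
  have h30 : 2 ^ 30 ≤ 2 ^ (30 * (d₁ * L)) := Nat.pow_le_pow_right (by norm_num) (by omega)
  have hd₂ : 2 ^ 30 < d₂ := by omega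
  set u := (d₂ * m + 3) / 4 with hu
  have hdm : 2 ^ 30 * m ≤ d₂ * m := Nat.mul_le_mul_right _ hd₂.le
  have hu1 : d₂ * m ≤ 4 * u := by omega
  have hu2 : 4 * m ≤ u := by omega
  have hu3 : 1 ≤ u := by omega
  have hA := hCH (NN r n₂) m (by omega)
  have hB := hCH (NN r n₁ * (dd r L d₁ * dd r L d₁)) u hu3
  -- reals
  set y : ℝ := 2 ^ (d₁ * L) with hy
  have hy2 : (2 : ℝ) ≤ y := by
    calc (2 : ℝ) = 2 ^ 1 := by norm_num
      _ ≤ 2 ^ (d₁ * L) := pow_le_pow_right₀ (by norm_num) hdL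
  have hy1 : (1 : ℝ) ≤ y := by linarith
  have hypos : 0 < y := by linarith
  have hry : (r : ℝ) ≤ y := by
    calc (r : ℝ) ≤ ((2 ^ L : ℕ) : ℝ) := by exact_mod_cast hrL
      _ = 2 ^ L := by push_cast; rfl
      _ ≤ 2 ^ (d₁ * L) := pow_le_pow_right₀ (by norm_num) (Nat.le_mul_of_pos_left L hd₁)
  have hLy : (L : ℝ) ≤ y := by
    calc (L : ℝ) ≤ ((2 ^ L : ℕ) : ℝ) := by exact_mod_cast Nat.lt_two_pow_self.le
      _ = 2 ^ L := by push_cast; rfl
      _ ≤ 2 ^ (d₁ * L) := pow_le_pow_right₀ (by norm_num) (Nat.le_mul_of_pos_left L hd₁)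
  have hdy : (d₁ : ℝ) ≤ y := by
    calc (d₁ : ℝ) ≤ ((2 ^ d₁ : ℕ) : ℝ) := by exact_mod_cast Nat.lt_two_pow_self.le
      _ = 2 ^ d₁ := by push_cast; rfl
      _ ≤ 2 ^ (d₁ * L) := pow_le_pow_right₀ (by norm_num) (Nat.le_mul_of_pos_right d₁ hL)
  have hmR : (2 : ℝ) ≤ m := by exact_mod_cast hm
  have hm0 : (0 : ℝ) < m := by linarith
  have hn0 : (0 : ℝ) < n₂ := by exact_mod_cast hn₂
  have hr0 : (0 : ℝ) < r := by exact_mod_cast (by omega : 0 < r)
  have hd0 : (0 : ℝ) < d₁ := by exact_mod_cast hd₁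
  have hd20 : (0 : ℝ) < d₂ := by exact_mod_cast (by omega : 0 < d₂)
  have hu0 : (0 : ℝ) < u := by exact_mod_cast hu3
  have hL0 : (0 : ℝ) < L := by exact_mod_cast hL
  set x : ℝ := (m : ℝ) / n₂ with hx
  have hx0 : 0 < x := div_pos hm0 hn0
  have hxy : x * y ^ 30 ≤ 1 := by
    have h1 : m * 2 ^ (30 * (d₁ * L)) ≤ n₂ := by
      calc m * 2 ^ (30 * (d₁ * L)) ≤ m * d₂ := Nat.mul_le_mul_left _ hbig.le
        _ ≤ 2 * d₁ * d₂ * m := by nlinarith [Nat.mul_le_mul_right (d₂ * m) (by omega : 1 ≤ 2 * d₁)]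
        _ ≤ n₂ := hm2
    have h2 : (m : ℝ) * 2 ^ (30 * (d₁ * L)) ≤ n₂ := by exact_mod_cast h1
    have h3 : y ^ 30 = 2 ^ (30 * (d₁ * L)) := by rw [hy, ← pow_mul, mul_comm 30]
    rw [h3, hx, div_mul_eq_mul_div, div_le_one hn0]
    exact h2
  set W : ℝ := 384 * r * L ^ 2 * d₁ with hW
  have hW0 : 0 < W := by positivity
  have h384 : (384 : ℝ) ≤ y ^ 9 := by
    calc (384 : ℝ) ≤ 2 ^ 9 := by norm_num
      _ ≤ y ^ 9 := pow_le_pow_left₀ (by norm_num) hy2 9
  have hWy : W ≤ y ^ 13 := by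
    calc W = 384 * r * L ^ 2 * d₁ := rfl
      _ ≤ y ^ 9 * y * y ^ 2 * y := by gcongr
      _ = y ^ 13 := by ring
  have hWx1 : W * x ≤ 1 := by
    calc W * x ≤ y ^ 13 * x := by gcongr
      _ ≤ y ^ 30 * x :=
          mul_le_mul_of_nonneg_right (pow_le_pow_right₀ hy1 (by norm_num)) hx0.le
      _ = x * y ^ 30 := mul_comm _ _
      _ ≤ 1 := hxy
  have hN2R : ((NN r n₂ : ℕ) : ℝ) = 2 ^ 20 * r * n₂ := by unfold NN; push_cast; ring
  have hN1R : ((NN r n₁ : ℕ) : ℝ) = 2 ^ 20 * r * n₁ := by unfold NN; push_cast; ring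
  have hddR : ((dd r L d₁ : ℕ) : ℝ) = 2 ^ 12 * r * d₁ * L := by
    unfold dd t1; push_cast; ring
  -- the second factor
  have hC : (((NN r n₁ * (dd r L d₁ * dd r L d₁)).choose u : ℕ) : ℝ) *
      ((m : ℝ) / NN r n₂) ^ (2 * u) ≤ (W * x) ^ (4 * m) := by
    have h1 : (((NN r n₁ * (dd r L d₁ * dd r L d₁)).choose u : ℕ) : ℝ) *
        ((m : ℝ) / NN r n₂) ^ (2 * u) ≤
        (3 * ((NN r n₁ * (dd r L d₁ * dd r L d₁) : ℕ) : ℝ) / u * ((m : ℝ) / NN r n₂) ^ 2) ^ u := by
      rw [mul_pow, ← pow_mul]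
      gcongr
    refine h1.trans ?_
    have h2 : 3 * ((NN r n₁ * (dd r L d₁ * dd r L d₁) : ℕ) : ℝ) / u * ((m : ℝ) / NN r n₂) ^ 2 ≤
        W * x := by
      push_cast
      rw [hN1R, hN2R, hddR]
      have h3 : (n₁ : ℝ) * d₁ ≤ 2 * (n₂ * d₂) := by exact_mod_cast h12
      have h4 : (d₂ : ℝ) * m ≤ 4 * u := by exact_mod_cast hu1
      have e1 : 3 * (2 ^ 20 * (r : ℝ) * n₁ * (2 ^ 12 * r * d₁ * L * (2 ^ 12 * r * d₁ * L))) / u *
          ((m : ℝ) / (2 ^ 20 * r * n₂)) ^ 2 =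
          48 * r * L ^ 2 * d₁ * ((n₁ * d₁) * m ^ 2) / (n₂ ^ 2 * u) := by
        field_simp
        ring
      have e2 : W * x = 48 * r * L ^ 2 * d₁ * (8 * m * n₂ * u) / (n₂ ^ 2 * u) := by
        rw [hW, hx]
        field_simp
        ring
      rw [e1, e2]
      have key : (n₁ : ℝ) * d₁ * (m : ℝ) ^ 2 ≤ 8 * (m : ℝ) * n₂ * u := by
        calc (n₁ : ℝ) * d₁ * (m : ℝ) ^ 2 ≤ 2 * ((n₂ : ℝ) * d₂) * (m : ℝ) ^ 2 := by gcongr
          _ = 2 * (n₂ : ℝ) * m * ((d₂ : ℝ) * m) := by ring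
          _ ≤ 2 * (n₂ : ℝ) * m * (4 * (u : ℝ)) := by gcongr
          _ = 8 * (m : ℝ) * n₂ * u := by ring
      exact div_le_div_of_nonneg_right (mul_le_mul_of_nonneg_left key (by positivity))
        (by positivity)
    calc (3 * ((NN r n₁ * (dd r L d₁ * dd r L d₁) : ℕ) : ℝ) / u * ((m : ℝ) / NN r n₂) ^ 2) ^ u
        ≤ (W * x) ^ u := by gcongr
      _ ≤ (W * x) ^ (4 * m) := pow_le_pow_of_le_one (by positivity) hWx1 hu2
  have hA' : ((NN r n₂).choose m : ℝ) ≤ (3 * 2 ^ 20 * r / x) ^ m := by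
    refine hA.trans (le_of_eq ?_)
    rw [hN2R, hx]
    congr 1
    field_simp
  calc ((NN r n₂).choose m : ℝ) * (((NN r n₁ * (dd r L d₁ * dd r L d₁)).choose u : ℕ) : ℝ) *
        ((m : ℝ) / NN r n₂) ^ (2 * u)
      = ((NN r n₂).choose m : ℝ) * ((((NN r n₁ * (dd r L d₁ * dd r L d₁)).choose u : ℕ) : ℝ) *
        ((m : ℝ) / NN r n₂) ^ (2 * u)) := by ring
    _ ≤ (3 * 2 ^ 20 * r / x) ^ m * (W * x) ^ (4 * m) := by gcongr
    _ = (3 * 2 ^ 20 * r * W ^ 4 * x ^ 3) ^ m := by
        rw [pow_mul, ← mul_pow]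
        congr 1
        field_simp
    _ ≤ ((1 / 2) ^ 15) ^ m := by
        gcongr
        have h5 : x ≤ 1 / y ^ 30 := by
          rw [le_div_iff₀ (by positivity)]
          exact hxy
        calc 3 * 2 ^ 20 * r * W ^ 4 * x ^ 3 ≤ y ^ 22 * y * (y ^ 13) ^ 4 * (1 / y ^ 30) ^ 3 := by
              gcongr
              calc (3 * 2 ^ 20 : ℝ) ≤ 2 ^ 22 := by norm_num
                _ ≤ y ^ 22 := pow_le_pow_left₀ (by norm_num) hy2 22
          _ = (1 / y) ^ 15 := by
              field_simp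
          _ ≤ (1 / 2) ^ 15 := by gcongr
    _ = (1 / 2) ^ (15 * m) := by rw [pow_mul]

theorem main (hCNT : S_CNT) (hCH : S_CH) : S_H3 := by
  classical
  intro r L n₁ n₂ d₁ d₂ hp hbig
  set H : ℕ := Fintype.card (Host r L n₁ n₂ d₁) with hH
  have hN₂pos : 0 < NN r n₂ := by
    have := hp.hr
    have := hp.hn₂
    unfold NN
    positivity
  have hHpos : 0 < H := by
    rw [hH]
    have : Nonempty (Fin (NN r n₂)) := ⟨⟨0, hN₂pos⟩⟩
    exact Fintype.card_pos
  -- the events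
  let Ev : Finset (Fin (NN r n₂)) → Finset (Fin (NN r n₁) × (Fin (dd r L d₁) × Fin (dd r L d₁))) →
    Finset (Host r L n₁ n₂ d₁) := fun X P =>
      univ.filter (fun g => ∀ q ∈ FP P, g q.1 q.2 ∈ X)
  have hEv : ∀ X P, (FP P).card = 2 * P.card →
      ((Ev X P).card : ℝ) = ((X.card : ℝ) / NN r n₂) ^ (2 * P.card) * H := by
    intro X P hP
    have h1 := hCNT (NN r n₁) (dd r L d₁) (NN r n₂) (FP P) (fun _ => X)
    have h2 : {g : Fin (NN r n₁) → Fin (dd r L d₁) → Fin (NN r n₂) |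
        ∀ p ∈ FP P, g p.1 p.2 ∈ X}.ncard = (Ev X P).card := by
      rw [Set.ncard_eq_toFinset_card']
      congr 1
      ext g
      simp [Ev]
    rw [h2, prod_const, hP] at h1
    have h3 : ((Ev X P).card : ℝ) * (NN r n₂ : ℝ) ^ (2 * P.card) =
        (X.card : ℝ) ^ (2 * P.card) * H := by exact_mod_cast h1
    have h4 : (0 : ℝ) < NN r n₂ := by exact_mod_cast hN₂pos
    rw [div_pow]
    field_simp
    exact h3
  let cond : ℕ → Prop := fun m => 2 ≤ m ∧ 2 * d₁ * d₂ * m ≤ n₂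
  let u : ℕ → ℕ := fun m => (d₂ * m + 3) / 4
  let f : ℕ → ℝ := fun m => if cond m then
    (((NN r n₁ * (dd r L d₁ * dd r L d₁)).choose (u m) : ℕ) : ℝ) *
      (((m : ℝ) / NN r n₂) ^ (2 * u m) * H) else 0
  have hbad : {g : Host r L n₁ n₂ d₁ | ¬ G3 r L n₁ n₂ d₁ d₂ g}.ncard =
      (univ.filter (fun g : Host r L n₁ n₂ d₁ => ¬ G3 r L n₁ n₂ d₁ d₂ g)).card := by
    rw [Set.ncard_eq_toFinset_card']
    congr 1
    ext g
    simp
  have hsub : univ.filter (fun g : Host r L n₁ n₂ d₁ => ¬ G3 r L n₁ n₂ d₁ d₂ g) ⊆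
      (univ.powerset.filter (fun X => cond X.card)).biUnion (fun X =>
        ((powersetCard (u X.card) univ).filter (fun P => (FP P).card = 2 * P.card)).biUnion
          (fun P => Ev X P)) := by
    intro g hg
    have hg' := (mem_filter.1 hg).2
    unfold G3 at hg'
    push Not at hg'
    obtain ⟨X, hX1, hX2, hX3⟩ := hg'
    obtain ⟨P, hP1, hP2, hP3⟩ := extract g X (u X.card) (by
      simp only [u]
      omega)
    rw [mem_biUnion]
    refine ⟨X, mem_filter.2 ⟨by simp, hX1, hX2⟩, ?_⟩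
    rw [mem_biUnion]
    exact ⟨P, mem_filter.2 ⟨mem_powersetCard.2 ⟨subset_univ _, hP1⟩, hP2⟩,
      mem_filter.2 ⟨mem_univ _, hP3⟩⟩
  have hcount : ((univ.filter (fun g : Host r L n₁ n₂ d₁ => ¬ G3 r L n₁ n₂ d₁ d₂ g)).card : ℝ) ≤
      ∑ X ∈ (univ : Finset (Fin (NN r n₂))).powerset, f X.card := by
    have h1 := (card_le_card hsub).trans card_biUnion_le
    have h2 : ((univ.filter (fun g : Host r L n₁ n₂ d₁ => ¬ G3 r L n₁ n₂ d₁ d₂ g)).card : ℝ) ≤
        ∑ X ∈ univ.powerset.filter (fun X : Finset (Fin (NN r n₂)) => cond X.card),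
          (((((powersetCard (u X.card) univ).filter
            (fun P => (FP P).card = 2 * P.card)).biUnion (fun P => Ev X P)).card : ℕ) : ℝ) := by
      exact_mod_cast h1
    refine h2.trans ?_
    rw [sum_filter]
    refine sum_le_sum fun X _ => ?_
    simp only [f]
    split_ifs with hc
    · have h3 : (((((powersetCard (u X.card) univ).filter
            (fun P => (FP P).card = 2 * P.card)).biUnion (fun P => Ev X P)).card : ℕ) : ℝ) ≤
          ∑ P ∈ (powersetCard (u X.card) univ).filter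
            (fun P => (FP P).card = 2 * P.card), ((Ev X P).card : ℝ) := by
        exact_mod_cast card_biUnion_le
      refine h3.trans ?_
      have h4 : ∀ P ∈ (powersetCard (u X.card) (univ :
          Finset (Fin (NN r n₁) × (Fin (dd r L d₁) × Fin (dd r L d₁))))).filter
            (fun P => (FP P).card = 2 * P.card), ((Ev X P).card : ℝ) ≤
            ((X.card : ℝ) / NN r n₂) ^ (2 * u X.card) * H := by
        intro P hP
        obtain ⟨hP1, hP2⟩ := mem_filter.1 hP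
        rw [hEv X P hP2, (mem_powersetCard.1 hP1).2]
      refine (sum_le_card_nsmul _ _ _ h4).trans ?_
      rw [nsmul_eq_mul]
      gcongr
      refine (card_filter_le _ _).trans ?_
      rw [card_powersetCard]
      simp
    · exact le_rfl
  rw [hbad]
  have hsum : ∑ X ∈ (univ : Finset (Fin (NN r n₂))).powerset, f X.card =
      ∑ m ∈ range (NN r n₂ + 1), ((NN r n₂).choose m : ℝ) * f m := by
    rw [sum_powerset_apply_card f]
    simp
  have hterm : ∀ m ∈ range (NN r n₂ + 1), ((NN r n₂).choose m : ℝ) * f m ≤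
      (1 / 2) ^ m * (H / 16) := by
    intro m _
    simp only [f]
    split_ifs with hc
    · have h1 := numeric hCH hp hbig m hc.1 hc.2
      have h2 : ((1 : ℝ) / 2) ^ (15 * m) ≤ (1 / 2) ^ m * (1 / 16) := by
        have e : ((1 : ℝ) / 2) ^ m * (1 / 16) = (1 / 2) ^ (m + 4) := by
          rw [pow_add]; norm_num
        rw [e]
        apply pow_le_pow_of_le_one (by norm_num) (by norm_num)
        have := hc.1
        omega
      have hH0 : (0 : ℝ) ≤ H := by positivity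
      calc ((NN r n₂).choose m : ℝ) *
            ((((NN r n₁ * (dd r L d₁ * dd r L d₁)).choose (u m) : ℕ) : ℝ) *
              (((m : ℝ) / NN r n₂) ^ (2 * u m) * H))
          = (((NN r n₂).choose m : ℝ) *
            (((NN r n₁ * (dd r L d₁ * dd r L d₁)).choose (u m) : ℕ) : ℝ) *
              ((m : ℝ) / NN r n₂) ^ (2 * u m)) * H := by ring
        _ ≤ (1 / 2) ^ (15 * m) * H := by gcongr
        _ ≤ ((1 / 2) ^ m * (1 / 16)) * H := by gcongr
        _ = (1 / 2) ^ m * (H / 16) := by ring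
    · rw [mul_zero]
      positivity
  have hfin : ((univ.filter (fun g : Host r L n₁ n₂ d₁ => ¬ G3 r L n₁ n₂ d₁ d₂ g)).card : ℝ) ≤
      2 * (H / 16) := by
    refine hcount.trans ?_
    rw [hsum]
    refine (sum_le_sum hterm).trans ?_
    rw [← sum_mul]
    gcongr
    have := geom_sum_eq (by norm_num : (1 / 2 : ℝ) ≠ 1) (NN r n₂ + 1)
    rw [this, div_le_iff_of_neg (by norm_num)]
    have h0 : (0 : ℝ) ≤ (1 / 2) ^ (NN r n₂ + 1) := by positivity
    linarith
  have hHR : (0 : ℝ) < H := by exact_mod_cast hHpos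
  have : (4 : ℝ) * (univ.filter (fun g : Host r L n₁ n₂ d₁ => ¬ G3 r L n₁ n₂ d₁ d₂ g)).card < H := by
    linarith
  exact_mod_cast this

end Pool.Agent.H62.SR.T.H3
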