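import Pool.Agent.H62.SR.Stubs

/-!
# Task SPARSE (project SR): the random host

Sections 2 and 3 of `tree_ramsey_proof.md`: existence of the host, majority colour, cleaning,
the conditions (HA), (HBA), (HBB), and the two embedding theorems.
-/

namespace Pool.Agent.H62.SR.T.SPARSE

open Finset Pool.Agent.H62.SR

/-- four properties each of which fails for less than a quarter of all points hold together
somewhere -/
lemma exists_good {Ω : Type} [Fintype Ω] (P Q R S : Ω → Prop)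
    (hP : 4 * {g : Ω | ¬ P g}.ncard < Fintype.card Ω)
    (hQ : 4 * {g : Ω | ¬ Q g}.ncard < Fintype.card Ω)
    (hR : 4 * {g : Ω | ¬ R g}.ncard < Fintype.card Ω)
    (hS : 4 * {g : Ω | ¬ S g}.ncard < Fintype.card Ω) : ∃ g, P g ∧ Q g ∧ R g ∧ S g := by
  by_contra hcon
  push Not at hcon
  have hcov : (Set.univ : Set Ω) ⊆ ({g : Ω | ¬ P g} ∪ {g : Ω | ¬ Q g}) ∪
      ({g : Ω | ¬ R g} ∪ {g : Ω | ¬ S g}) := by
    intro g _
    by_cases h1 : P g
    · by_cases h2 : Q g
      · by_cases h3 : R g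
        · exact Or.inr (Or.inr (hcon g h1 h2 h3))
        · exact Or.inr (Or.inl h3)
      · exact Or.inl (Or.inr h2)
    · exact Or.inl (Or.inl h1)
  have h1 := Set.ncard_le_ncard hcov (Set.toFinite _)
  have h2 := Set.ncard_union_le ({g : Ω | ¬ P g} ∪ {g : Ω | ¬ Q g})
    ({g : Ω | ¬ R g} ∪ {g : Ω | ¬ S g})
  have h3 := Set.ncard_union_le {g : Ω | ¬ P g} {g : Ω | ¬ Q g}
  have h4 := Set.ncard_union_le {g : Ω | ¬ R g} {g : Ω | ¬ S g}
  rw [Set.ncard_univ, Nat.card_eq_fintype_card] at h1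
  omega

/-- embeddings are monotone in the host relation -/
lemma embeds_mono {V A B : Type} {T : SimpleGraph V} {side : V → Bool} {E F : A → B → Prop}
    (h : ∀ a b, E a b → F a b) (hE : Embeds T side E) : Embeds T side F := by
  obtain ⟨f, g, h1, h2, h3⟩ := hE
  exact ⟨f, g, h1, h2, fun u v hu hv huv => h _ _ (h3 u v hu hv huv)⟩

/-- the cleaned structure inside one colour class -/
structure Cleaned {r L n₁ n₂ d₁ : ℕ} (d₂ : ℕ) (g : Host r L n₁ n₂ d₁)
    (χ : Fin (NN r n₁) → Fin (NN r n₂) → Fin r) (c : Fin r)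
    (A' : Finset (Fin (NN r n₁))) (B' : Finset (Fin (NN r n₂)))
    (C : Fin (NN r n₂) → Finset (Fin (NN r n₁)))
    (La : Fin (NN r n₁) → Finset (Fin (NN r n₂))) : Prop where
  ne : B'.Nonempty
  CA : ∀ b ∈ B', C b ⊆ A'
  LB : ∀ a ∈ A', La a ⊆ B'
  Cc : ∀ b ∈ B', (C b).card = t2 L d₂
  Lc : ∀ a ∈ A', (La a).card = t1 L d₁
  CE : ∀ b ∈ B', ∀ a ∈ C b, b ∈ nb g a ∧ χ a b = c
  LE : ∀ a ∈ A', ∀ b ∈ La a, b ∈ nb g a ∧ χ a b = c

lemma exists_cleaned (hclean : S_CLEAN) {r L n₁ n₂ d₁ d₂ : ℕ} (hp : Par r L n₁ n₂ d₁ d₂)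
    (g : Host r L n₁ n₂ d₁) (h0 : G0 r L n₁ n₂ d₁ g)
    (χ : Fin (NN r n₁) → Fin (NN r n₂) → Fin r) :
    ∃ c A' B' C La, Cleaned d₂ g χ c A' B' C La := by
  classical
  -- the host pairs
  set H : Finset (Fin (NN r n₁) × Fin (NN r n₂)) := univ.filter (fun p => p.2 ∈ nb g p.1) with hH
  have hHcard : H.card = ∑ a, (nb g a).card := by
    rw [hH, card_filter, Fintype.sum_prod_type]
    apply sum_congr rfl
    intro a _
    rw [← card_filter]
    congr 1
    ext b
    simp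
  -- the majority colour
  obtain ⟨c, hc⟩ : ∃ c : Fin r, H.card ≤ r * (H.filter (fun p => χ p.1 p.2 = c)).card := by
    by_contra hcon
    push Not at hcon
    have hr : 0 < r := by have := hp.hr; omega
    have h1 : H.card = ∑ c : Fin r, (H.filter (fun p => χ p.1 p.2 = c)).card :=
      card_eq_sum_card_fiberwise (fun p _ => mem_univ _)
    have h2 : ∑ c : Fin r, r * (H.filter (fun p => χ p.1 p.2 = c)).card < ∑ _c : Fin r, H.card :=
      sum_lt_sum_of_nonempty ⟨⟨0, hr⟩, mem_univ _⟩ (fun c _ => hcon c)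
    rw [← mul_sum, ← h1, sum_const, card_univ, Fintype.card_fin, smul_eq_mul] at h2
    exact lt_irrefl _ h2
  set J := H.filter (fun p => χ p.1 p.2 = c) with hJ
  have hr := hp.hr
  have hL := hp.hL
  have hn₂ := hp.hn₂
  have hn := hp.hn
  have hd₁ := hp.hd₁
  have hd := hp.hd
  have h21 := hp.h21
  have hJcard : t1 L d₁ * Fintype.card (Fin (NN r n₁)) + t2 L d₂ * Fintype.card (Fin (NN r n₂))
      < J.card := by
    rw [Fintype.card_fin, Fintype.card_fin]
    have e1 : 3 * (NN r n₁ * dd r L d₁) ≤ 4 * (r * J.card) := by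
      have := h0
      unfold G0 at this
      rw [← hHcard] at this
      have := hc
      omega
    have e2 : 3 * (t1 L d₁ * NN r n₁) ≤ J.card := by
      have e3 : (4 * r) * (3 * (t1 L d₁ * NN r n₁)) ≤ (4 * r) * J.card := by
        calc (4 * r) * (3 * (t1 L d₁ * NN r n₁)) = 3 * (NN r n₁ * dd r L d₁) := by
              unfold dd; ring
          _ ≤ 4 * (r * J.card) := e1
          _ = (4 * r) * J.card := by ring
      exact Nat.le_of_mul_le_mul_left e3 (by omega)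
    have e4 : t2 L d₂ * NN r n₂ ≤ t1 L d₁ * NN r n₁ := by
      have e5 : (512 * 2 ^ 20 * L * r) * (n₂ * d₂) ≤ (512 * 2 ^ 20 * L * r) * (2 * (n₁ * d₁)) :=
        Nat.mul_le_mul_left _ h21
      calc t2 L d₂ * NN r n₂ = (512 * 2 ^ 20 * L * r) * (n₂ * d₂) := by
            unfold t2 NN; ring
        _ ≤ (512 * 2 ^ 20 * L * r) * (2 * (n₁ * d₁)) := e5
        _ = t1 L d₁ * NN r n₁ := by unfold t1 NN; ring
    have e6 : 0 < t1 L d₁ * NN r n₁ := by
      have p1 : 0 < r := by omega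
      have p2 : 0 < n₁ := by omega
      have p3 : 0 < d₁ := hd₁
      have p4 : 0 < L := hL
      unfold t1 NN
      positivity
    omega
  obtain ⟨J', hJJ, hne, hdeg⟩ := hclean _ _ J (t1 L d₁) (t2 L d₂) hJcard
  have hmem : ∀ a b, (a, b) ∈ J' → b ∈ nb g a ∧ χ a b = c := by
    intro a b hab
    have := hJJ hab
    rw [hJ, mem_filter, hH, mem_filter] at this
    exact ⟨this.1.2, this.2⟩
  -- choice of the children
  have hCex : ∀ b, ∃ s : Finset (Fin (NN r n₁)), (∀ a ∈ s, (a, b) ∈ J') ∧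
      (b ∈ J'.image Prod.snd → s.card = t2 L d₂) := by
    intro b
    by_cases hb : b ∈ J'.image Prod.snd
    · obtain ⟨p, hp', hpb⟩ := mem_image.mp hb
      have h1 := (hdeg p hp').2
      rw [hpb] at h1
      have h2 : t2 L d₂ ≤ ((J'.filter (fun x => x.2 = b)).image Prod.fst).card := by
        rw [card_image_of_injOn]
        · exact h1
        · rintro ⟨a, b1⟩ h ⟨a', b2⟩ h' he
          simp only [coe_filter, Set.mem_ofPred_eq] at h h'
          simp only at he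
          rw [he, h.2, h'.2]
      obtain ⟨s, hs, hsc⟩ := exists_subset_card_eq h2
      refine ⟨s, fun a ha => ?_, fun _ => hsc⟩
      obtain ⟨x, hx, hxa⟩ := mem_image.mp (hs ha)
      rw [mem_filter] at hx
      have : x = (a, b) := by
        ext1
        · exact hxa
        · exact hx.2
      rw [← this]
      exact hx.1
    · exact ⟨∅, by simp, fun h => absurd h hb⟩
  have hLex : ∀ a, ∃ s : Finset (Fin (NN r n₂)), (∀ b ∈ s, (a, b) ∈ J') ∧
      (a ∈ J'.image Prod.fst → s.card = t1 L d₁) := by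
    intro a
    by_cases ha : a ∈ J'.image Prod.fst
    · obtain ⟨p, hp', hpa⟩ := mem_image.mp ha
      have h1 := (hdeg p hp').1
      rw [hpa] at h1
      have h2 : t1 L d₁ ≤ ((J'.filter (fun x => x.1 = a)).image Prod.snd).card := by
        rw [card_image_of_injOn]
        · exact h1
        · rintro ⟨a1, b⟩ h ⟨a2, b'⟩ h' he
          simp only [coe_filter, Set.mem_ofPred_eq] at h h'
          simp only at he
          rw [he, h.2, h'.2]
      obtain ⟨s, hs, hsc⟩ := exists_subset_card_eq h2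
      refine ⟨s, fun b hb => ?_, fun _ => hsc⟩
      obtain ⟨x, hx, hxb⟩ := mem_image.mp (hs hb)
      rw [mem_filter] at hx
      have : x = (a, b) := by
        ext1
        · exact hx.2
        · exact hxb
      rw [← this]
      exact hx.1
    · exact ⟨∅, by simp, fun h => absurd h ha⟩
  choose C hC1 hC2 using hCex
  choose La hL1 hL2 using hLex
  refine ⟨c, J'.image Prod.fst, J'.image Prod.snd, C, La, ?_⟩
  refine
    { ne := hne.image _
      CA := fun b _ a ha => mem_image.mpr ⟨(a, b), hC1 b a ha, rfl⟩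
      LB := fun a _ b hb => mem_image.mpr ⟨(a, b), hL1 a b hb, rfl⟩
      Cc := fun b hb => hC2 b hb
      Lc := fun a ha => hL2 a ha
      CE := fun b _ a ha => hmem a b (hC1 b a ha)
      LE := fun a _ b hb => hmem a b (hL1 a b hb) }

section
variable {r L n₁ n₂ d₁ d₂ : ℕ} {g : Host r L n₁ n₂ d₁}
  {χ : Fin (NN r n₁) → Fin (NN r n₂) → Fin r} {c : Fin r}
  {A' : Finset (Fin (NN r n₁))} {B' : Finset (Fin (NN r n₂))}
  {C : Fin (NN r n₂) → Finset (Fin (NN r n₁))}
  {La : Fin (NN r n₁) → Finset (Fin (NN r n₂))}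

lemma cleaned_HA (hp : Par r L n₁ n₂ d₁ d₂) (h1 : G1 r L n₁ n₂ d₁ d₂ g)
    (hc : Cleaned d₂ g χ c A' B' C La) : HA B' C n₁ d₂ := by
  intro Y hY
  have hL := hp.hL
  have hd₂ : 1 ≤ d₂ := le_trans hp.hd₁ hp.hd
  set X := B'.filter (fun b => (C b \ Y).card < 4 * d₂) with hX
  have ht : 8 * d₂ ≤ t2 L d₂ := by
    unfold t2
    have : d₂ ≤ d₂ * L := Nat.le_mul_of_pos_right _ hL
    omega
  have key : 8 * d₂ * X.card ≤ Y.card := by
    refine h1 X Y hY (fun b hb => ?_)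
    rw [hX, mem_filter] at hb
    have e1 : (C b ∩ Y).card ≤ (Y.filter (fun a => b ∈ nb g a)).card := by
      apply card_le_card
      intro a ha
      rw [mem_inter] at ha
      exact mem_filter.mpr ⟨ha.2, (hc.CE b hb.1 a ha.1).1⟩
    have e2 : (C b ∩ Y).card + (C b \ Y).card = (C b).card := card_inter_add_card_sdiff _ _
    have e3 := hc.Cc b hb.1
    have e4 := hb.2
    omega
  have e5 : ∑ b ∈ B', (4 * d₂ - (C b \ Y).card) = ∑ b ∈ X, (4 * d₂ - (C b \ Y).card) := by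
    rw [hX, sum_filter]
    apply sum_congr rfl
    intro b _
    split_ifs with h
    · rfl
    · omega
  have e6 : ∑ b ∈ X, (4 * d₂ - (C b \ Y).card) ≤ X.card * (4 * d₂) := by
    rw [← smul_eq_mul]
    exact sum_le_card_nsmul _ _ _ (fun b _ => Nat.sub_le _ _)
  rw [e5]
  calc 2 * ∑ b ∈ X, (4 * d₂ - (C b \ Y).card) ≤ 2 * (X.card * (4 * d₂)) :=
        Nat.mul_le_mul_left _ e6
    _ = 8 * d₂ * X.card := by ring
    _ ≤ Y.card := key

lemma cleaned_HBA (hp : Par r L n₁ n₂ d₁ d₂) (h2 : G2A r L n₁ n₂ d₁ g)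
    (hc : Cleaned d₂ g χ c A' B' C La) : HBA A' La n₂ d₁ := by
  intro R hR
  have hL := hp.hL
  have hd₁ := hp.hd₁
  set S := A'.filter (fun a => (La a \ R).card < d₁) with hS
  have ht : 2 * d₁ ≤ t1 L d₁ := by
    unfold t1
    have : d₁ ≤ d₁ * L := Nat.le_mul_of_pos_right _ hL
    omega
  have key : 2 * d₁ * S.card ≤ R.card := by
    refine h2 R S hR (fun a ha => ?_)
    rw [hS, mem_filter] at ha
    have e1 : (La a ∩ R).card ≤ (nb g a ∩ R).card := by
      apply card_le_card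
      intro b hb
      rw [mem_inter] at hb
      exact mem_inter.mpr ⟨(hc.LE a ha.1 b hb.1).1, hb.2⟩
    have e2 : (La a ∩ R).card + (La a \ R).card = (La a).card := card_inter_add_card_sdiff _ _
    have e3 := hc.Lc a ha.1
    have e4 := ha.2
    omega
  have e5 : ∑ a ∈ A', (d₁ - (La a \ R).card) = ∑ a ∈ S, (d₁ - (La a \ R).card) := by
    rw [hS, sum_filter]
    apply sum_congr rfl
    intro b _
    split_ifs with h
    · rfl
    · omega
  have e6 : ∑ a ∈ S, (d₁ - (La a \ R).card) ≤ S.card * d₁ := by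
    rw [← smul_eq_mul]
    exact sum_le_card_nsmul _ _ _ (fun b _ => Nat.sub_le _ _)
  rw [e5]
  calc 2 * ∑ a ∈ S, (d₁ - (La a \ R).card) ≤ 2 * (S.card * d₁) :=
        Nat.mul_le_mul_left _ e6
    _ = 2 * d₁ * S.card := by ring
    _ ≤ R.card := key

lemma cleaned_HBB (hp : Par r L n₁ n₂ d₁ d₂) (h2 : G2B r L n₁ n₂ d₁ d₂ g)
    (h3 : G3 r L n₁ n₂ d₁ d₂ g)
    (hc : Cleaned d₂ g χ c A' B' C La) : HBB B' C La n₂ d₁ d₂ := by
  classical
  intro R hR
  have hL := hp.hL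
  have hd₁ := hp.hd₁
  have hd₂ : 1 ≤ d₂ := le_trans hp.hd₁ hp.hd
  have hn₂ := hp.hn₂
  by_contra hcon
  rw [not_le] at hcon
  set BB := B'.filter (fun b => d₂ < bad C La (16 * d₁) b R) with hBB
  set w : Fin (NN r n₂) → ℕ := fun b => bad C La (16 * d₁) b R with hw
  -- a minimal subset
  obtain ⟨X, hXmem, hXmin⟩ := exists_min_image
    (BB.powerset.filter (fun X => R.card < ∑ b ∈ X, 2 * (16 * d₁) * w b)) Finset.card
    ⟨BB, mem_filter.mpr ⟨mem_powerset_self _, hcon⟩⟩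
  rw [mem_filter, mem_powerset] at hXmem
  obtain ⟨hXB, hXsum⟩ := hXmem
  have hXw : ∀ b ∈ X, d₂ < w b := fun b hb => (mem_filter.mp (hXB hb)).2
  have hXB' : ∀ b ∈ X, b ∈ B' := fun b hb => (mem_filter.mp (hXB hb)).1
  have hXne : X.Nonempty := by
    rw [nonempty_iff_ne_empty]
    rintro rfl
    simp at hXsum
  rw [← mul_sum] at hXsum
  set E := ∑ b ∈ X, w b with hE
  have hEX : d₂ * X.card < E := by
    have : ∑ _b ∈ X, d₂ < ∑ b ∈ X, w b := sum_lt_sum_of_nonempty hXne hXw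
    rw [sum_const, smul_eq_mul] at this
    rw [mul_comm]
    exact this
  -- size of X
  have hXsize : 2 ≤ X.card → 2 * d₁ * d₂ * X.card ≤ n₂ := by
    intro hX2
    obtain ⟨b0, hb0⟩ := hXne
    have h4 : ∑ b ∈ X.erase b0, 2 * (16 * d₁) * w b ≤ R.card := by
      by_contra h5
      rw [not_le] at h5
      have := hXmin (X.erase b0) (mem_filter.mpr ⟨mem_powerset.mpr
        ((erase_subset _ _).trans hXB), h5⟩)
      rw [card_erase_of_mem hb0] at this
      omega
    have h5 : ∑ _b ∈ X.erase b0, 2 * (16 * d₁) * d₂ ≤ ∑ b ∈ X.erase b0, 2 * (16 * d₁) * w b :=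
      sum_le_sum (fun b hb => Nat.mul_le_mul_left _ (hXw b (mem_of_mem_erase hb)).le)
    rw [sum_const, smul_eq_mul, card_erase_of_mem hb0] at h5
    have h6 : X.card ≤ 2 * (X.card - 1) := by omega
    have h7 : (X.card - 1) * (2 * (16 * d₁) * d₂) ≤ 8 * n₂ := le_trans h5 (le_trans h4 hR)
    have h8 : 8 * (2 * d₁ * d₂ * X.card) ≤ 8 * n₂ := by
      calc 8 * (2 * d₁ * d₂ * X.card) ≤ 8 * (2 * d₁ * d₂ * (2 * (X.card - 1))) := by
            exact Nat.mul_le_mul_left _ (Nat.mul_le_mul_left _ h6)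
        _ = (X.card - 1) * (2 * (16 * d₁) * d₂) := by ring
        _ ≤ 8 * n₂ := h7
    omega
  -- the bad children
  set S := X.biUnion (fun b => (C b).filter (fun a => (La a \ R).card < 16 * d₁)) with hS
  have hSmem : ∀ a ∈ S, ∃ b ∈ X, a ∈ C b ∧ (La a \ R).card < 16 * d₁ := by
    intro a ha
    rw [hS, mem_biUnion] at ha
    obtain ⟨b, hb, hab⟩ := ha
    rw [mem_filter] at hab
    exact ⟨b, hb, hab⟩
  have hES : E ≤ ∑ a ∈ S, (nb g a ∩ X).card := by
    have h5 : E = ∑ b ∈ X, ∑ a ∈ S, if (a ∈ C b ∧ (La a \ R).card < 16 * d₁) then 1 else 0 := by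
      rw [hE]
      apply sum_congr rfl
      intro b hb
      rw [← card_filter]
      simp only [hw, bad]
      congr 1
      ext a
      simp only [mem_filter]
      constructor
      · intro h
        exact ⟨mem_biUnion.mpr ⟨b, hb, mem_filter.mpr h⟩, h⟩
      · intro h
        exact h.2
    rw [h5, sum_comm]
    apply sum_le_sum
    intro a _
    rw [← card_filter]
    apply card_le_card
    intro b hb
    rw [mem_filter] at hb
    exact mem_inter.mpr ⟨(hc.CE b (hXB' b hb.1) a hb.2.1).1, hb.1⟩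
  have hES2 : E ≤ S.card + ∑ a ∈ S, ((nb g a ∩ X).card - 1) := by
    refine hES.trans ?_
    rw [card_eq_sum_ones, ← sum_add_distrib]
    apply sum_le_sum
    intro a _
    omega
  have hS2 : E ≤ 2 * S.card := by
    by_cases hX2 : 2 ≤ X.card
    · have h4 := h3 X hX2 (hXsize hX2)
      have h5 : ∑ a ∈ S, ((nb g a ∩ X).card - 1) ≤ ∑ a, ((nb g a ∩ X).card - 1) :=
        sum_le_sum_of_subset (subset_univ _)
      omega
    · have hX1 : X.card ≤ 1 := by omega
      have h5 : ∑ a ∈ S, ((nb g a ∩ X).card - 1) = 0 := by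
        apply sum_eq_zero
        intro a _
        have : (nb g a ∩ X).card ≤ X.card := card_le_card inter_subset_right
        omega
      omega
  have hSne : S.Nonempty := by
    rw [nonempty_iff_ne_empty]
    intro h
    rw [h, card_empty] at hS2
    omega
  refine h2 R X S hR hSne ?_ ?_ ?_ ?_
  · intro a ha
    obtain ⟨b, hb, hab, hlt⟩ := hSmem a ha
    have haA : a ∈ A' := hc.CA b (hXB' b hb) hab
    have e1 : (La a ∩ R).card ≤ (nb g a ∩ R).card := by
      apply card_le_card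
      intro b hb
      rw [mem_inter] at hb
      exact mem_inter.mpr ⟨(hc.LE a haA b hb.1).1, hb.2⟩
    have e2 : (La a ∩ R).card + (La a \ R).card = (La a).card := card_inter_add_card_sdiff _ _
    have e3 := hc.Lc a haA
    have ht : 32 * d₁ ≤ t1 L d₁ := by
      unfold t1
      have : d₁ ≤ d₁ * L := Nat.le_mul_of_pos_right _ hL
      omega
    omega
  · intro a ha
    obtain ⟨b, hb, hab, _⟩ := hSmem a ha
    exact ⟨b, mem_inter.mpr ⟨(hc.CE b (hXB' b hb) a hab).1, hb⟩⟩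
  · calc R.card ≤ 2 * (16 * d₁) * E := hXsum.le
      _ ≤ 2 * (16 * d₁) * (2 * S.card) := Nat.mul_le_mul_left _ hS2
      _ = 64 * d₁ * S.card := by ring
  · omega

end

/-- **Task SPARSE.** -/
theorem main (h0 : S_H0) (h1 : S_H1) (h2a : S_H2A) (h2b : S_H2B) (h3 : S_H3)
    (hclean : S_CLEAN) (hA : S_EMBA) (hB : S_EMBB) : S_SPARSE := by
  classical
  intro V _ _ T _ side r L n₁ n₂ d₁ d₂ hT hp
  by_cases hcase : d₂ ≤ 2 ^ (30 * (d₁ * L))
  · obtain ⟨g, g0, g1, g2, -⟩ := exists_good (G0 r L n₁ n₂ d₁) (G1 r L n₁ n₂ d₁ d₂)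
      (G2A r L n₁ n₂ d₁) (G0 r L n₁ n₂ d₁) (h0 _ _ _ _ _ _ hp) (h1 _ _ _ _ _ _ hp)
      (h2a _ _ _ _ _ _ hp hcase) (h0 _ _ _ _ _ _ hp)
    refine ⟨g, fun χ => ?_⟩
    obtain ⟨c, A', B', C, La, hc⟩ := exists_cleaned hclean hp g g0 χ
    refine ⟨c, embeds_mono ?_ (hA V _ _ T side n₁ n₂ d₁ d₂ hT A' B' C La hc.ne hc.CA hc.LB
      (cleaned_HA hp g1 hc) (cleaned_HBA hp g2 hc))⟩
    rintro a b ⟨⟨ha, hb⟩, h | h⟩
    · exact hc.CE b hb a h
    · exact hc.LE a ha b h
  · rw [not_le] at hcase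
    obtain ⟨g, g0, g1, g2, g3⟩ := exists_good (G0 r L n₁ n₂ d₁) (G1 r L n₁ n₂ d₁ d₂)
      (G2B r L n₁ n₂ d₁ d₂) (G3 r L n₁ n₂ d₁ d₂) (h0 _ _ _ _ _ _ hp) (h1 _ _ _ _ _ _ hp)
      (h2b _ _ _ _ _ _ hp hcase) (h3 _ _ _ _ _ _ hp hcase)
    refine ⟨g, fun χ => ?_⟩
    obtain ⟨c, A', B', C, La, hc⟩ := exists_cleaned hclean hp g g0 χ
    have hd₂ : 1 ≤ d₂ := le_trans hp.hd₁ hp.hd
    have ht : 4 * d₂ ≤ t2 L d₂ := by
      unfold t2
      have : d₂ ≤ d₂ * L := Nat.le_mul_of_pos_right _ hp.hL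
      omega
    refine ⟨c, embeds_mono ?_ (hB V _ _ T side n₁ n₂ d₁ d₂ (t2 L d₂) hT A' B' C La hc.ne hc.CA
      hc.LB hc.Cc ht (fun a ha => by rw [hc.Lc a ha]; exact hp.hs)
      (cleaned_HA hp g1 hc) (cleaned_HBB hp g2 g3 hc))⟩
    rintro a b ⟨⟨ha, hb⟩, h | h⟩
    · exact hc.CE b hb a h
    · exact hc.LE a ha b h

end Pool.Agent.H62.SR.T.SPARSE
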