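import Pool.Agent.H62.SR.Stubs

/-! Task TREE: embedding a tree star by star. -/

namespace Pool.Agent.H62.SR.T.TREE

open Finset

variable {V A B : Type} [Fintype V] [DecidableEq V] [DecidableEq A] [DecidableEq B]

/-- the placed vertices of the second class -/
def UT (T : SimpleGraph V) [DecidableRel T.Adj] (r : V) (P : Finset V) : Finset V :=
  insert r (P.biUnion fun s => T.neighborFinset s)

theorem mem_UT {T : SimpleGraph V} [DecidableRel T.Adj] {r : V} {P : Finset V} {y : V} :
    y ∈ UT T r P ↔ y = r ∨ ∃ s ∈ P, T.Adj s y := by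
  simp [UT]

theorem UT_insert {T : SimpleGraph V} [DecidableRel T.Adj] {r : V} {P : Finset V} {s : V} :
    UT T r (insert s P) = UT T r P ∪ T.neighborFinset s := by
  ext y
  simp only [mem_UT, mem_union, mem_insert, SimpleGraph.mem_neighborFinset]
  constructor
  · rintro (h | ⟨t, rfl | ht, hty⟩)
    · exact Or.inl (Or.inl h)
    · exact Or.inr hty
    · exact Or.inl (Or.inr ⟨t, ht, hty⟩)
  · rintro ((h | ⟨t, ht, hty⟩) | h)
    · exact Or.inl h
    · exact Or.inr ⟨t, Or.inr ht, hty⟩
    · exact Or.inr ⟨s, Or.inl rfl, h⟩

/-- the processed part is connected -/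
def Conn (T : SimpleGraph V) [DecidableRel T.Adj] (r : V) (P : Finset V) : Prop :=
  ∀ y, (y ∈ UT T r P ∨ y ∈ P) → ∃ p : T.Walk r y, ∀ z ∈ p.support, z ∈ UT T r P ∨ z ∈ P

/-- at most one neighbour -/
theorem unique_nb {T : SimpleGraph V} [DecidableRel T.Adj] (hT : T.IsTree) {r : V} {P : Finset V}
    (hc : Conn T r P) {s x x' : V} (hs : ¬ (s ∈ UT T r P ∨ s ∈ P)) (hx : x ∈ UT T r P)
    (hx' : x' ∈ UT T r P) (h : T.Adj s x) (h' : T.Adj s x') : x = x' := by
  by_contra hne
  obtain ⟨p, hp⟩ := hc x (Or.inl hx)
  obtain ⟨p', hp'⟩ := hc x' (Or.inl hx')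
  let q := (p.reverse.append p').bypass
  have hq : q.IsPath := SimpleGraph.Walk.bypass_isPath _
  have hqs : ∀ z ∈ q.support, z ∈ UT T r P ∨ z ∈ P := by
    intro z hz
    have h1 := SimpleGraph.Walk.support_bypass_subset _ hz
    rw [SimpleGraph.Walk.mem_support_append_iff, SimpleGraph.Walk.support_reverse,
      List.mem_reverse] at h1
    rcases h1 with h1 | h1
    · exact hp z h1
    · exact hp' z h1
  let w : T.Walk x x' := SimpleGraph.Walk.cons h.symm (SimpleGraph.Walk.cons h' SimpleGraph.Walk.nil)
  have hw : w.IsPath := by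
    simp only [w, SimpleGraph.Walk.cons_isPath_iff, SimpleGraph.Walk.support_cons,
      SimpleGraph.Walk.support_nil, List.mem_cons, List.not_mem_nil, or_false]
    refine ⟨⟨SimpleGraph.Walk.IsPath.nil, h'.ne⟩, ?_⟩
    rintro (e | e)
    · exact h.ne e.symm
    · exact hne e
  have he : (⟨q, hq⟩ : T.Path x x') = ⟨w, hw⟩ := hT.IsAcyclic.path_unique _ _
  have he' : q = w := congrArg Subtype.val he
  apply hs
  apply hqs
  rw [he']
  simp [w]

/-- at least one neighbour -/
theorem exists_nb {T : SimpleGraph V} [DecidableRel T.Adj] (hT : T.IsTree) {side : V → Bool}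
    (hside : ∀ u v, T.Adj u v → side u ≠ side v) {r : V} (hr : side r = true) {P : Finset V}
    (hP : ∀ s ∈ P, side s = false) {v : V} (hv : side v = false) (hvP : v ∉ P) :
    ∃ s, side s = false ∧ s ∉ P ∧ ∃ x ∈ UT T r P, T.Adj s x := by
  by_contra hcon
  push Not at hcon
  have key : ∀ (u w : V) (_ : T.Walk u w), (u ∈ UT T r P ∨ u ∈ P) → (w ∈ UT T r P ∨ w ∈ P) := by
    intro u w p
    induction p with
    | nil => exact id
    | cons h _ ih =>
      rename_i a b c _
      intro hu
      apply ih
      by_cases hb : side b = false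
      · right
        by_contra hbP
        have ha : side a = true := by
          have := hside _ _ h
          rw [hb] at this
          simpa using this
        have haU : a ∈ UT T r P := by
          rcases hu with hu | hu
          · exact hu
          · exact absurd (hP a hu) (by simp [ha])
        exact hcon b hb hbP a haU h.symm
      · left
        have hb' : side b = true := by simpa using hb
        have ha : side a = false := by
          have := hside _ _ h
          rw [hb'] at this
          simpa using this
        rw [mem_UT]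
        right
        refine ⟨a, ?_, h⟩
        rcases hu with hu | hu
        · exfalso
          rw [mem_UT] at hu
          rcases hu with hu | ⟨s, hs, hsa⟩
          · rw [hu, hr] at ha
            exact absurd ha (by simp)
          · have := hside _ _ hsa
            rw [hP s hs, ha] at this
            exact this rfl
        · exact hu
  obtain ⟨p⟩ := hT.connected.preconnected r v
  have h1 := key r v p (Or.inl (mem_UT.2 (Or.inl rfl)))
  rcases h1 with h1 | h1
  · rw [mem_UT] at h1
    rcases h1 with h1 | ⟨s, hs, hsv⟩
    · rw [h1, hr] at hv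
      exact absurd hv (by simp)
    · have := hside _ _ hsv
      rw [hP s hs, hv] at this
      exact this rfl
  · exact hvP h1

/-- the state after the vertices of `P` have been processed -/
def St (T : SimpleGraph V) [DecidableRel T.Adj] (side : V → Bool) (E : A → B → Prop)
    (Inv : Finset A → Finset B → (B → ℕ) → Prop) (r : V) (P : Finset V) : Prop :=
  ∃ (f : V → A) (g : V → B) (used : B → ℕ),
    Inv (P.image f) ((UT T r P).image g) used ∧
    (∀ u ∈ P, ∀ v ∈ P, f u = f v → u = v) ∧
    (∀ u ∈ UT T r P, ∀ v ∈ UT T r P, g u = g v → u = v) ∧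
    (∀ b, b ∉ (UT T r P).image g → used b = 0) ∧
    (∀ x ∈ UT T r P, used (g x) ≤ (T.neighborFinset x ∩ P).card) ∧
    (∀ u ∈ P, ∀ v, T.Adj u v → E (f u) (g v)) ∧
    (∀ u ∈ P, side u = false) ∧ Conn T r P

theorem UT_side {T : SimpleGraph V} [DecidableRel T.Adj] {side : V → Bool}
    (hside : ∀ u v, T.Adj u v → side u ≠ side v) {r : V} (hr : side r = true) {P : Finset V}
    (hP : ∀ s ∈ P, side s = false) {y : V} (hy : y ∈ UT T r P) : side y = true := by
  rw [mem_UT] at hy
  rcases hy with rfl | ⟨s, hs, hsy⟩
  · exact hr
  · have := hside _ _ hsy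
    rw [hP s hs] at this
    simpa using this.symm

theorem step {T : SimpleGraph V} [DecidableRel T.Adj] (hT : T.IsTree) {side : V → Bool}
    (hside : ∀ u v, T.Adj u v → side u ≠ side v) {r : V} (hr : side r = true)
    {d₁ d₂ : ℕ} (hd₁ : ∀ v, side v = false → T.degree v ≤ d₁)
    (hd₂ : ∀ v, side v = true → T.degree v ≤ d₂)
    {E : A → B → Prop} {Inv : Finset A → Finset B → (B → ℕ) → Prop}
    (hstep : ∀ W U used x k, Inv W U used → x ∈ U → used x < d₂ → k < d₁ →
      W.card < (univ.filter (fun v => side v = false)).card →
      U.card + k ≤ (univ.filter (fun v => side v = true)).card →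
      ∃ a, a ∉ W ∧ E a x ∧ ∃ K : Finset B, Disjoint K U ∧ K.card = k ∧ (∀ w ∈ K, E a w) ∧
        Inv (insert a W) (U ∪ K) (Function.update used x (used x + 1)))
    {P : Finset V} (hSt : St T side E Inv r P) {v : V} (hv : side v = false) (hvP : v ∉ P) :
    ∃ s, s ∉ P ∧ St T side E Inv r (insert s P) := by
  obtain ⟨f, g, used, hI, hf, hg, hu0, hu, hE, hP, hC⟩ := hSt
  obtain ⟨s, hs, hsP, x, hxU, hsx⟩ := exists_nb hT hside hr hP hv hvP
  have hxt : side x = true := UT_side hside hr hP hxU
  have hsU : s ∉ UT T r P := fun h => by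
    have := UT_side hside hr hP h
    rw [hs] at this
    exact absurd this (by simp)
  have huniq : ∀ x' ∈ UT T r P, T.Adj s x' → x' = x := fun x' hx' h' =>
    unique_nb hT hC (fun h => h.elim hsU hsP) hx' hxU h' hsx
  -- the new vertices
  obtain ⟨N, hN⟩ : ∃ N : Finset V, N = (T.neighborFinset s).erase x := ⟨_, rfl⟩
  have hNmem : ∀ y, y ∈ N ↔ y ≠ x ∧ T.Adj s y := by
    intro y
    rw [hN, mem_erase, SimpleGraph.mem_neighborFinset]
  have hNU : Disjoint (UT T r P) N := by
    rw [disjoint_left]
    intro y hy hyN
    rw [hNmem] at hyN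
    exact hyN.1 (huniq y hy hyN.2)
  have hNcard : N.card + 1 = T.degree s := by
    rw [hN, card_erase_of_mem (by rw [SimpleGraph.mem_neighborFinset]; exact hsx),
      SimpleGraph.card_neighborFinset_eq_degree]
    have : 0 < T.degree s := by
      rw [← SimpleGraph.card_neighborFinset_eq_degree]
      exact card_pos.2 ⟨x, by rw [SimpleGraph.mem_neighborFinset]; exact hsx⟩
    omega
  have hUcard : ((UT T r P).image g).card = (UT T r P).card :=
    card_image_of_injOn fun u hu v hv h => hg u hu v hv h
  have hWcard : (P.image f).card = P.card :=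
    card_image_of_injOn fun u hu v hv h => hf u hu v hv h
  have hlt : (P.image f).card < (univ.filter (fun v => side v = false)).card := by
    rw [hWcard]
    apply card_lt_card
    rw [ssubset_iff_of_subset]
    · exact ⟨s, by simp [hs], hsP⟩
    · intro u hu'
      simp [hP u hu']
  have hle : ((UT T r P).image g).card + N.card ≤ (univ.filter (fun v => side v = true)).card := by
    rw [hUcard, ← card_union_of_disjoint hNU]
    apply card_le_card
    intro y hy
    rw [mem_union] at hy
    rw [mem_filter]
    refine ⟨mem_univ _, ?_⟩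
    rcases hy with hy | hy
    · exact UT_side hside hr hP hy
    · have := hside _ _ ((hNmem y).1 hy).2
      rw [hs] at this
      simpa using this.symm
  have husedx : used (g x) < d₂ := by
    refine lt_of_le_of_lt (hu x hxU) (lt_of_lt_of_le ?_ (hd₂ x hxt))
    rw [← SimpleGraph.card_neighborFinset_eq_degree]
    apply card_lt_card
    rw [ssubset_iff_of_subset inter_subset_left]
    refine ⟨s, ?_, ?_⟩
    · rw [SimpleGraph.mem_neighborFinset]; exact hsx.symm
    · rw [mem_inter]; exact fun h => hsP h.2
  obtain ⟨a, haW, hax, K, hKU, hKcard, hKE, hI'⟩ := hstep _ _ used (g x) N.card hI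
    (mem_image_of_mem g hxU) husedx (by have := hd₁ s hs; omega) hlt hle
  -- the new maps
  let e : N ≃ K := Finset.equivOfCardEq hKcard.symm
  let f' : V → A := Function.update f s a
  let g' : V → B := fun y => if h : y ∈ N then (e ⟨y, h⟩ : B) else g y
  have hf's : f' s = a := Function.update_self _ _ _
  have hf'P : ∀ u ∈ P, f' u = f u := fun u hu' =>
    Function.update_of_ne (fun h => hsP (by rw [← h]; exact hu')) _ _
  have hg'N : ∀ y (h : y ∈ N), g' y = (e ⟨y, h⟩ : B) := fun y h => by simp only [g', dif_pos h]
  have hg'K : ∀ y ∈ N, g' y ∈ K := fun y h => by rw [hg'N y h]; exact (e ⟨y, h⟩).2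
  have hg'U : ∀ y ∈ UT T r P, g' y = g y := fun y h => by
    have : y ∉ N := disjoint_left.1 hNU h
    simp only [g', dif_neg this]
  have hUT' : UT T r (insert s P) = UT T r P ∪ N := by
    rw [UT_insert]
    ext y
    simp only [mem_union, SimpleGraph.mem_neighborFinset, hNmem]
    constructor
    · rintro (h | h)
      · exact Or.inl h
      · by_cases hyx : y = x
        · left; rw [hyx]; exact hxU
        · exact Or.inr ⟨hyx, h⟩
    · rintro (h | h)
      · exact Or.inl h
      · exact Or.inr h.2
  have himf : (insert s P).image f' = insert a (P.image f) := by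
    rw [image_insert, hf's]
    congr 1
    exact image_congr fun u hu' => hf'P u hu'
  have himg : (UT T r (insert s P)).image g' = (UT T r P).image g ∪ K := by
    rw [hUT', image_union]
    congr 1
    · exact image_congr fun u hu' => hg'U u hu'
    · ext b
      rw [mem_image]
      constructor
      · rintro ⟨y, hy, rfl⟩
        exact hg'K y hy
      · intro hb
        refine ⟨(e.symm ⟨b, hb⟩ : V), (e.symm ⟨b, hb⟩).2, ?_⟩
        rw [hg'N _ (e.symm ⟨b, hb⟩).2]
        simp
  have hg'x : g' x = g x := hg'U x hxU
  refine ⟨s, hsP, f', g', Function.update used (g x) (used (g x) + 1), ?_, ?_, ?_, ?_, ?_, ?_, ?_, ?_⟩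
  · rw [himf, himg]; exact hI'
  · intro u hu' w hw' huw
    rw [mem_insert] at hu' hw'
    rcases hu' with rfl | hu' <;> rcases hw' with rfl | hw'
    · rfl
    · rw [hf's, hf'P w hw'] at huw
      exact absurd (huw ▸ mem_image_of_mem f hw') haW
    · rw [hf's, hf'P u hu'] at huw
      exact absurd (huw ▸ mem_image_of_mem f hu') haW
    · rw [hf'P u hu', hf'P w hw'] at huw
      exact hf u hu' w hw' huw
  · intro u hu' w hw' huw
    rw [hUT', mem_union] at hu' hw'
    rcases hu' with hu' | hu' <;> rcases hw' with hw' | hw'
    · rw [hg'U u hu', hg'U w hw'] at huw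
      exact hg u hu' w hw' huw
    · rw [hg'U u hu'] at huw
      exact absurd (huw ▸ mem_image_of_mem g hu') (disjoint_left.1 hKU (hg'K w hw'))
    · rw [hg'U w hw'] at huw
      exact absurd (huw ▸ mem_image_of_mem g hw') (disjoint_left.1 hKU (hg'K u hu'))
    · rw [hg'N u hu', hg'N w hw'] at huw
      have h1 := e.injective (Subtype.ext huw)
      exact congrArg Subtype.val h1
  · intro b hb
    rw [himg, mem_union, not_or] at hb
    rw [Function.update_of_ne]
    · exact hu0 b hb.1
    · rintro rfl
      exact hb.1 (mem_image_of_mem g hxU)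
  · intro y hy
    rw [hUT', mem_union] at hy
    rcases hy with hy | hy
    · rw [hg'U y hy]
      by_cases hyx : y = x
      · subst hyx
        rw [Function.update_self]
        have h1 : T.neighborFinset y ∩ insert s P = insert s (T.neighborFinset y ∩ P) := by
          rw [inter_insert_of_mem]
          rw [SimpleGraph.mem_neighborFinset]; exact hsx.symm
        rw [h1, card_insert_of_notMem (fun h => hsP (mem_inter.1 h).2)]
        exact Nat.add_le_add_right (hu y hy) 1
      · rw [Function.update_of_ne]
        · exact (hu y hy).trans (card_le_card (inter_subset_inter_left (subset_insert _ _)))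
        · intro h
          exact hyx (hg y hy x hxU h)
    · have h1 : g' y ∉ (UT T r P).image g := disjoint_left.1 hKU (hg'K y hy)
      rw [Function.update_of_ne]
      · rw [hu0 _ h1]
        exact Nat.zero_le _
      · intro h
        exact h1 (h ▸ mem_image_of_mem g hxU)
  · intro u hu' w huw
    rw [mem_insert] at hu'
    rcases hu' with rfl | hu'
    · rw [hf's]
      by_cases hwx : w = x
      · rw [hwx, hg'x]; exact hax
      · exact hKE _ (hg'K w ((hNmem w).2 ⟨hwx, huw⟩))
    · rw [hf'P u hu', hg'U w (mem_UT.2 (Or.inr ⟨u, hu', huw⟩))]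
      exact hE u hu' w huw
  · intro u hu'
    rw [mem_insert] at hu'
    rcases hu' with rfl | hu'
    · exact hs
    · exact hP u hu'
  · -- connectivity
    have hmono : ∀ z, (z ∈ UT T r P ∨ z ∈ P) → (z ∈ UT T r (insert s P) ∨ z ∈ insert s P) := by
      intro z hz
      rcases hz with hz | hz
      · left; rw [hUT']; exact mem_union_left _ hz
      · right; exact mem_insert_of_mem hz
    have hws : ∃ p : T.Walk r s, ∀ z ∈ p.support, z ∈ UT T r (insert s P) ∨ z ∈ insert s P := by
      obtain ⟨p, hp⟩ := hC x (Or.inl hxU)
      refine ⟨p.concat hsx.symm, ?_⟩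
      intro z hz
      rw [SimpleGraph.Walk.support_concat, List.mem_append] at hz
      rcases hz with hz | hz
      · exact hmono z (hp z hz)
      · rw [List.mem_singleton] at hz
        rw [hz]; exact Or.inr (mem_insert_self _ _)
    intro y hy
    by_cases hyo : y ∈ UT T r P ∨ y ∈ P
    · obtain ⟨p, hp⟩ := hC y hyo
      exact ⟨p, fun z hz => hmono z (hp z hz)⟩
    · rw [hUT', mem_union, mem_insert] at hy
      rcases hy with (hy | hy) | (hy | hy)
      · exact absurd (Or.inl hy) hyo
      · obtain ⟨p, hp⟩ := hws
        refine ⟨p.concat ((hNmem y).1 hy).2, ?_⟩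
        intro z hz
        rw [SimpleGraph.Walk.support_concat, List.mem_append] at hz
        rcases hz with hz | hz
        · exact hp z hz
        · rw [List.mem_singleton] at hz
          left; rw [hz, hUT']; exact mem_union_right _ hy
      · subst hy; exact hws
      · exact absurd (Or.inr hy) hyo

theorem main : S_TREE := by
  intro V A B _ _ _ _ _ T _ hT side hside hex d₁ d₂ hd₁ hd₂ E Inv h0 hstep
  obtain ⟨r, hr⟩ := hex
  obtain ⟨x₀, hx₀⟩ := h0
  have main : ∀ j ≤ (univ.filter (fun v => side v = false)).card,
      ∃ P : Finset V, P.card = j ∧ St T side E Inv r P := by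
    intro j
    induction j with
    | zero =>
      intro _
      refine ⟨∅, rfl, fun _ => Classical.arbitrary A, fun _ => x₀, fun _ => 0, ?_, ?_, ?_, ?_, ?_,
        ?_, ?_, ?_⟩
      · have : UT T r (∅ : Finset V) = {r} := by simp [UT]
        rw [this]
        simpa using hx₀
      · simp
      · intro u hu v hv _
        rw [mem_UT] at hu hv
        simp at hu hv
        rw [hu, hv]
      · simp
      · simp
      · simp
      · simp
      · intro y hy
        have hyr : y = r := by
          rcases hy with hy | hy
          · rw [mem_UT] at hy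
            simpa using hy
          · simp at hy
        subst hyr
        refine ⟨SimpleGraph.Walk.nil, ?_⟩
        intro z hz
        rw [SimpleGraph.Walk.support_nil, List.mem_singleton] at hz
        left
        rw [mem_UT]; exact Or.inl hz
    | succ j ih =>
      intro hj
      obtain ⟨P, hPc, hSt⟩ := ih (by omega)
      have hPs : ∀ u ∈ P, side u = false := by
        obtain ⟨f, g, used, h⟩ := hSt
        exact h.2.2.2.2.2.2.1
      obtain ⟨v, hv, hvP⟩ : ∃ v ∈ univ.filter (fun v => side v = false), v ∉ P := by
        by_contra hcon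
        push Not at hcon
        have := card_le_card hcon
        omega
      rw [mem_filter] at hv
      obtain ⟨s, hsP, hSt'⟩ := step hT hside hr hd₁ hd₂ hstep hSt hv.2 hvP
      exact ⟨insert s P, by rw [card_insert_of_notMem hsP, hPc], hSt'⟩
  obtain ⟨P, hPc, f, g, used, hI, hf, hg, hu0, hu, hE, hP, hC⟩ := main _ le_rfl
  have hPall : ∀ u, side u = false → u ∈ P := by
    have h1 : P ⊆ univ.filter (fun v => side v = false) := fun u hu' => by simp [hP u hu']
    have h2 : P = univ.filter (fun v => side v = false) := eq_of_subset_of_card_le h1 hPc.ge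
    intro u hu'
    rw [h2]; simp [hu']
  have hUall : ∀ u, side u = true → u ∈ UT T r P := by
    intro u hu'
    rw [mem_UT]
    by_cases hur : u = r
    · exact Or.inl hur
    · right
      obtain ⟨p⟩ := hT.connected.preconnected u r
      cases p with
      | nil => exact absurd rfl hur
      | cons h _ =>
        rename_i w _
        refine ⟨w, hPall w ?_, h.symm⟩
        have := hside _ _ h
        rw [hu'] at this
        simpa using this.symm
  refine ⟨f, g, ?_, ?_, ?_⟩
  · intro u v hu' hv' h
    exact hf u (hPall u hu') v (hPall v hv') h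
  · intro u v hu' hv' h
    exact hg u (hUall u hu') v (hUall v hv') h
  · intro u v hu' _ huv
    exact hE u (hPall u hu') v huv

end Pool.Agent.H62.SR.T.TREE
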