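import Pool.Agent.H62.SR.T.WSTEP

/-! # The step on the level `A` -/

namespace Pool.Agent.H62.SR.T.STEPA

open Finset Pool.Agent.H62.SR

theorem main : S_STEPA := by
  intro A B _ _ B' C n₁ d₂ D W x hW hn₁ hx hDx hD hHA hP
  classical
  set Φ : Finset A → ℕ := fun Y => ∑ b ∈ B'.erase x, (D b - (C b \ Y).card) with hΦ
  have hΦs : MonSup Φ := MonSup.sum _ fun b _ => monSup_sdiff (C b) (D b)
  have hsplit : ∀ Y, ∑ b ∈ B', (D b - (C b \ Y).card) = Φ Y + (D x - (C x \ Y).card) := by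
    intro Y
    rw [← sum_erase_add _ _ hx]
  have hsplit' : ∀ Y, ∑ b ∈ B', (Function.update D x (D x - 1) b - (C b \ Y).card) =
      Φ Y + (D x - 1 - (C x \ Y).card) := by
    intro Y
    rw [← sum_erase_add _ _ hx, Function.update_self]
    congr 1
    refine sum_congr rfl fun b hb => ?_
    rw [Function.update_of_ne (ne_of_mem_erase hb)]
  have hhalf : ∀ Y : Finset A, Y.card ≤ 8 * n₁ → 2 * Φ Y ≤ Y.card := by
    intro Y hY
    refine le_trans (Nat.mul_le_mul_left _ ?_) (hHA Y hY)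
    calc Φ Y ≤ ∑ b ∈ B'.erase x, (4 * d₂ - (C b \ Y).card) :=
          sum_le_sum fun b _ => Nat.sub_le_sub_right (hD b) _
      _ ≤ ∑ b ∈ B', (4 * d₂ - (C b \ Y).card) := sum_le_sum_of_subset (erase_subset _ _)
  set Sb : Finset A := (C x).filter (fun a => a ∉ W ∧ ¬ ∀ Y : Finset A, insert a W ⊆ Y →
    Y.card ≤ 8 * n₁ →
    ∑ b ∈ B', (Function.update D x (D x - 1) b - (C b \ Y).card) + (insert a W).card ≤ Y.card)
    with hSb
  have hwit : ∀ a ∈ Sb, ∃ Y : Finset A, W ⊆ Y ∧ a ∈ Y ∧ Y.card ≤ 2 * (4 * n₁) ∧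
      Y.card ≤ Φ Y + W.card := by
    intro a ha
    obtain ⟨_, haW, h1⟩ := mem_filter.1 ha
    push Not at h1
    obtain ⟨Y, hY, hYc, hlt⟩ := h1
    rw [card_insert_of_notMem haW, hsplit'] at hlt
    rw [insert_subset_iff] at hY
    refine ⟨Y, hY.2, hY.1, by omega, ?_⟩
    have := hP Y hY.2 hYc
    rw [hsplit] at this
    omega
  obtain ⟨R, hWR, hSR, hRc, hRs⟩ := WSTEP.tight_cover hΦs (Q := 4 * n₁) (by omega)
    (fun R h1 h2 => by have := hP R h1 (by omega); rw [hsplit] at this; omega)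
    (fun R _ h2 h3 => by have := hhalf R (by omega); omega) Sb hwit
  have h1 := hP R hWR (by omega)
  rw [hsplit] at h1
  refine ⟨R, by omega, hWR, fun a haC haR => ?_⟩
  by_contra hcon
  exact haR (hSR (mem_filter.2 ⟨haC, fun h => haR (hWR h), hcon⟩))

end Pool.Agent.H62.SR.T.STEPA
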